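import Pool.Agent.Work.MP_3e8c7a_g.Interface

/-!
# Block CPG (helper10): every subspace is complemented in the section
-/

set_option autoImplicit false

namespace Pool.RG

open Module Pool.Agent.MP3e8c7a Pool.Agent.MP3e8c7as

/-- the combinations with coefficients `c` -/
noncomputable def CPG_G {M N : ℕ} (c : Fin M → Fin N → ℝ) : (Fin N → ℝ) →ₗ[ℝ] (Fin M → ℝ) :=
  LinearMap.pi fun l => ∑ u, c l u • LinearMap.proj u

theorem CPG_G_apply {M N : ℕ} (c : Fin M → Fin N → ℝ) (t : Fin N → ℝ) (l : Fin M) :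
    CPG_G c t l = ∑ u, c l u * t u := by
  simp [CPG_G, LinearMap.sum_apply]

/-- the combinations of the sign vectors -/
noncomputable def CPG_H {M N : ℕ} (c : Fin M → Fin N → ℝ) : (Fin M → ℝ) →ₗ[ℝ] (Fin N → ℝ) :=
  LinearMap.pi fun u => ∑ l, ((SignType.sign (c l u) : SignType) : ℝ) • LinearMap.proj l

theorem CPG_H_apply {M N : ℕ} (c : Fin M → Fin N → ℝ) (t : Fin M → ℝ) (u : Fin N) :
    CPG_H c t u = ∑ l, ((SignType.sign (c l u) : SignType) : ℝ) * t l := by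
  simp [CPG_H, LinearMap.sum_apply]

theorem CPG_G_norm {M N : ℕ} (c : Fin M → Fin N → ℝ) (hc : Nrm c) (t : Fin N → ℝ) :
    ‖CPG_G c t‖ ≤ ‖t‖ := by
  rw [pi_norm_le_iff_of_nonneg (norm_nonneg _)]
  intro l
  rw [CPG_G_apply, Real.norm_eq_abs]
  calc |∑ u, c l u * t u| ≤ ∑ u, |c l u * t u| := Finset.abs_sum_le_sum_abs _ _
    _ ≤ ∑ u, |c l u| * ‖t‖ := by
        refine Finset.sum_le_sum fun u _ => ?_
        rw [abs_mul]
        exact mul_le_mul_of_nonneg_left (norm_le_pi_norm t u) (abs_nonneg _)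
    _ = ‖t‖ := by rw [← Finset.sum_mul, hc.one, one_mul]

theorem CPG_H_one {M N : ℕ} (c : Fin M → Fin N → ℝ) (hc : Nrm c) (t : Fin M → ℝ) (u : Fin N)
    (l : Fin M) (hl : c l u ≠ 0) : CPG_H c t u = ((SignType.sign (c l u) : SignType) : ℝ) * t l := by
  rw [CPG_H_apply, Finset.sum_eq_single l]
  · intro l' _ h
    have h0 : c l' u = 0 := (hc.dis l' l u h).resolve_right hl
    rw [h0, sign_zero, SignType.coe_zero, zero_mul]
  · intro h
    exact absurd (Finset.mem_univ _) h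

theorem CPG_H_norm {M N : ℕ} (c : Fin M → Fin N → ℝ) (hc : Nrm c) (t : Fin M → ℝ) :
    ‖CPG_H c t‖ ≤ ‖t‖ := by
  rw [pi_norm_le_iff_of_nonneg (norm_nonneg _)]
  intro u
  rw [Real.norm_eq_abs]
  by_cases h : ∃ l, c l u ≠ 0
  · obtain ⟨l, hl⟩ := h
    rw [CPG_H_one c hc t u l hl, abs_mul]
    have h1 : |((SignType.sign (c l u) : SignType) : ℝ)| ≤ 1 := by
      rcases lt_trichotomy (c l u) 0 with h2 | h2 | h2
      · rw [sign_neg h2]; simp
      · rw [h2]; simp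
      · rw [sign_pos h2]; simp
    calc |((SignType.sign (c l u) : SignType) : ℝ)| * |t l| ≤ 1 * |t l| :=
          mul_le_mul_of_nonneg_right h1 (abs_nonneg _)
      _ = ‖t l‖ := by rw [one_mul, Real.norm_eq_abs]
      _ ≤ ‖t‖ := norm_le_pi_norm t l
  · push Not at h
    rw [CPG_H_apply, Finset.sum_eq_zero, abs_zero]
    · exact norm_nonneg _
    · intro l _
      rw [h l, sign_zero, SignType.coe_zero, zero_mul]

theorem CPG_GH {M N : ℕ} (c : Fin M → Fin N → ℝ) (hc : Nrm c) (t : Fin M → ℝ) :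
    CPG_G c (CPG_H c t) = t := by
  funext l
  rw [CPG_G_apply]
  have h1 : ∀ u, c l u * CPG_H c t u = |c l u| * t l := by
    intro u
    by_cases h : c l u = 0
    · rw [h, zero_mul, abs_zero, zero_mul]
    · rw [CPG_H_one c hc t u l h, ← mul_assoc, self_mul_sign]
  rw [Finset.sum_congr rfl fun u _ => h1 u, ← Finset.sum_mul, hc.one, one_mul]

/-- a projection with norm at most `M + 1` for the sup norm -/
theorem CPG_proj (M : ℕ) (S : Submodule ℝ (Fin M → ℝ)) : ∃ π : (Fin M → ℝ) →ₗ[ℝ] S,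
    (∀ x : S, π (x : Fin M → ℝ) = x) ∧ ∀ x, ‖(π x : Fin M → ℝ)‖ ≤ (M + 1) * ‖x‖ := by
  let e : EuclideanSpace ℝ (Fin M) ≃ₗ[ℝ] (Fin M → ℝ) := WithLp.linearEquiv 2 ℝ (Fin M → ℝ)
  let S' : Submodule ℝ (EuclideanSpace ℝ (Fin M)) := S.comap e.toLinearMap
  let π₀ : (Fin M → ℝ) →ₗ[ℝ] (Fin M → ℝ) :=
    e.toLinearMap ∘ₗ (S'.starProjection : EuclideanSpace ℝ (Fin M) →ₗ[ℝ] EuclideanSpace ℝ (Fin M)) ∘ₗ
      e.symm.toLinearMap
  have h0 : ∀ x, π₀ x ∈ S := by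
    intro x
    have h1 : S'.starProjection (e.symm x) ∈ S' := Submodule.starProjection_apply_mem _ _
    exact h1
  refine ⟨LinearMap.codRestrict S π₀ h0, ?_, ?_⟩
  · intro x
    apply Subtype.ext
    rw [LinearMap.codRestrict_apply]
    have h1 : e.symm (x : Fin M → ℝ) ∈ S' := by
      rw [Submodule.mem_comap]
      simp
    have h2 : S'.starProjection (e.symm (x : Fin M → ℝ)) = e.symm (x : Fin M → ℝ) :=
      Submodule.starProjection_eq_self_iff.mpr h1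
    change e (S'.starProjection (e.symm (x : Fin M → ℝ))) = x
    rw [h2, LinearEquiv.apply_symm_apply]
  · intro x
    rw [LinearMap.codRestrict_apply]
    have h1 : ‖S'.starProjection (e.symm x)‖ ≤ ‖e.symm x‖ := Submodule.norm_starProjection_apply_le _ _
    have h2 : ‖π₀ x‖ ≤ ‖S'.starProjection (e.symm x)‖ := by
      rw [pi_norm_le_iff_of_nonneg (norm_nonneg _)]
      intro l
      exact PiLp.norm_apply_le (S'.starProjection (e.symm x)) l
    have h3 : ‖e.symm x‖ ≤ (M + 1) * ‖x‖ := by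
      rw [EuclideanSpace.norm_eq]
      apply Real.sqrt_le_iff.mpr
      refine ⟨by positivity, ?_⟩
      calc ∑ l, ‖(e.symm x) l‖ ^ 2 ≤ ∑ _l : Fin M, ‖x‖ ^ 2 := by
            refine Finset.sum_le_sum fun l _ => ?_
            have h4 : ‖(e.symm x) l‖ ≤ ‖x‖ := norm_le_pi_norm x l
            exact pow_le_pow_left₀ (norm_nonneg _) h4 2
        _ = M * ‖x‖ ^ 2 := by rw [Finset.sum_const, Finset.card_univ, Fintype.card_fin, nsmul_eq_mul]
        _ ≤ (M + 1) ^ 2 * ‖x‖ ^ 2 := by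
            refine mul_le_mul_of_nonneg_right ?_ (by positivity)
            have : (0 : ℝ) ≤ M := Nat.cast_nonneg _
            nlinarith
        _ = ((M + 1) * ‖x‖) ^ 2 := by ring
    exact h2.trans (h1.trans h3)

theorem p_CPG : Stmt_CPG := by
  intro M A B hA hB
  have hM : (0 : ℝ) < (M : ℝ) + 1 := by positivity
  have hA0 : 0 < A := by linarith
  refine ⟨2 * A * (M + 1) * B, by positivity, ?_⟩
  intro V _ _ _ k p r b C τ σ i φ W β ξ hb hC hτ hp hr hyp hφi hproj hW hβ hβξ hξ hσ hD s hs S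
  have hb0 : 0 < b := by linarith
  -- (0) the block trick
  obtain ⟨c, hc, hc0⟩ := kil (Fin M → ℝ) M (M + 1) (M * (M + 1))
    (fun t => fun l => β (i (φ (W (Pi.single l 1)))) t) (by rw [finrank_fin_fun]; omega) le_rfl
  have hkill : ∀ ω, CPG_G c (β (i (φ (W ω)))) = 0 := by
    intro ω
    have h1 : ω = ∑ l, ω l • (Pi.single l (1 : ℝ) : Fin M → ℝ) := by
      funext j
      rw [Finset.sum_apply, Finset.sum_eq_single j]
      · simp
      · intro l _ hl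
        rw [Pi.smul_apply, Pi.single_eq_of_ne hl.symm, smul_zero]
      · intro h
        exact absurd (Finset.mem_univ _) h
    have h2 : β (i (φ (W ω))) = ∑ l, ω l • β (i (φ (W (Pi.single l 1)))) := by
      conv_lhs => rw [h1]
      simp only [map_sum, map_smul]
    rw [h2, map_sum]
    refine Finset.sum_eq_zero fun l _ => ?_
    rw [map_smul]
    have h3 : CPG_G c (β (i (φ (W (Pi.single l 1))))) = 0 := by
      funext m
      rw [CPG_G_apply]
      have h4 := congrFun (hc0 m) l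
      rw [Finset.sum_apply] at h4
      exact h4
    rw [h3, smul_zero]
  -- the functionals
  let u : (Fin k → ℝ) →ₗ[ℝ] (Fin M → ℝ) := CPG_G c ∘ₗ β ∘ₗ i
  have huz : ∀ z, u z = CPG_G c (β (i z)) := fun z => rfl
  let ξ' : (Fin M → ℝ) →ₗ[ℝ] (Fin k → ℝ) := ξ ∘ₗ CPG_H c
  have hξ'a : ∀ t, ξ' t = ξ (CPG_H c t) := fun t => rfl
  have huξ : ∀ t, u (ξ' t) = t := by
    intro t
    rw [huz, hξ'a, hβξ, CPG_GH c hc]
  have hun : ∀ z, ‖u z‖ ≤ τ * r (i z) := by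
    intro z
    rw [huz]
    exact (CPG_G_norm c hc _).trans (hβ _)
  have hξ'n : ∀ t, p (i (ξ' t)) ≤ B * ‖t‖ := by
    intro t
    rw [hξ'a]
    exact (hξ _).trans (mul_le_mul_of_nonneg_left (CPG_H_norm c hc t) hB.le)
  have hu0 : ∀ ω, u (φ (W ω)) = 0 := fun ω => hkill ω
  -- (1) the projection
  obtain ⟨π, hπ1, hπ2⟩ := CPG_proj M S
  -- (2) the perturbation
  obtain ⟨s₀, hs₀⟩ : ∃ s₀ : ℝ, s₀ = 1 / (2 * A * (M + 1) * τ) := ⟨_, rfl⟩
  have hs₀0 : 0 < s₀ := by rw [hs₀]; positivity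
  have hs₀i : s₀⁻¹ = 2 * A * (M + 1) * τ := by rw [hs₀, one_div, inv_inv]
  let q₃ : (Fin k → ℝ) →ₗ[ℝ] S := s₀ • (π ∘ₗ u)
  have hq₃ : ∀ z, q₃ z = s₀ • π (u z) := fun z => rfl
  let i₃ : (Fin k → ℝ) →ₗ[ℝ] V := i + W ∘ₗ S.subtype ∘ₗ q₃
  have hi₃ : ∀ z, i₃ z = i z + W (q₃ z : Fin M → ℝ) := fun z => rfl
  have hrW : ∀ z, r (W (q₃ z : Fin M → ℝ)) ≤ 1 / 2 * r (i z) := by
    intro z
    have h1 : ((q₃ z : S) : Fin M → ℝ) = s₀ • ((π (u z) : S) : Fin M → ℝ) := by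
      rw [hq₃, Submodule.coe_smul]
    rw [h1, map_smul, map_smul_eq_mul, Real.norm_eq_abs, abs_of_pos hs₀0]
    calc s₀ * r (W ((π (u z) : S) : Fin M → ℝ)) ≤ s₀ * (A * ((M + 1) * (τ * r (i z)))) := by
          refine mul_le_mul_of_nonneg_left ((hW _).trans ?_) hs₀0.le
          refine mul_le_mul_of_nonneg_left ((hπ2 _).trans ?_) hA0.le
          exact mul_le_mul_of_nonneg_left (hun z) hM.le
      _ = 1 / 2 * r (i z) := by
          rw [hs₀]
          field_simp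
  have hup : ∀ z, r (i₃ z) ≤ 3 / 2 * r (i z) := by
    intro z
    rw [hi₃]
    have h1 := map_add_le_add r (i z) (W (q₃ z : Fin M → ℝ))
    have h2 := hrW z
    linarith
  have hlow : ∀ z, r (i z) ≤ 2 * r (i₃ z) := by
    intro z
    have h0 : i z = i₃ z - W (q₃ z : Fin M → ℝ) := by rw [hi₃]; abel
    have h1 := map_sub_le_add r (i₃ z) (W (q₃ z : Fin M → ℝ))
    rw [← h0] at h1
    have h2 := hrW z
    linarith
  have hinj : Function.Injective i := by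
    intro x y hxy
    have := congrArg φ hxy
    rwa [hφi, hφi] at this
  have hinj₃ : Function.Injective i₃ := by
    rw [← LinearMap.ker_eq_bot, LinearMap.ker_eq_bot']
    intro z hz
    have h1 := hlow z
    rw [hz, map_zero, mul_zero] at h1
    have h2 : i z = 0 := hr _ (le_antisymm h1 (apply_nonneg r _))
    have h3 := hφi z
    rw [h2, map_zero] at h3
    exact h3.symm
  have hI1 : Iso b (p.comp i) (r.comp i) := hyp.inj i hinj (by rw [finrank_fin_fun])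
  have hI2 : Iso (2 * (3 / 2)) (r.comp i) (r.comp i₃) :=
    Iso.of_bounds (LinearEquiv.refl ℝ (Fin k → ℝ)) (A := 2) (B := 3 / 2) (by norm_num)
      (fun x => hlow x) (fun x => hup x)
  have hI3 : Iso b (r.comp i₃) (p.comp i₃) := (hyp.inj i₃ hinj₃ (by rw [finrank_fin_fun])).symm hb0
  obtain ⟨T, hT⟩ := (hI1.trans hI2 (by norm_num)).trans hI3 hb0.le
  have hT1 : ∀ z, p (i z) ≤ p (i₃ (T z)) := fun z => (hT z).1
  have hT2 : ∀ z, p (i₃ (T z)) ≤ 3 * b ^ 2 * p (i z) := by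
    intro z
    have h1 := (hT z).2
    have h2 : b * (2 * (3 / 2)) * b = 3 * b ^ 2 := by ring
    rw [h2] at h1
    exact h1
  -- (3)
  have hsq : ∀ z, s (q₃ z : Fin M → ℝ) ≤ (1 + C) * p (i₃ z) := by
    intro z
    have h1 : W (q₃ z : Fin M → ℝ) - i (φ (W (q₃ z : Fin M → ℝ))) = i₃ z - i (φ (i₃ z)) := by
      rw [hi₃, map_add φ, hφi, map_add i]
      abel
    rw [hs, h1]
    have h2 := map_sub_le_add p (i₃ z) (i (φ (i₃ z)))
    have h3 := hproj (i₃ z)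
    linarith
  let j₃ : S →ₗ[ℝ] (Fin k → ℝ) := (s₀⁻¹ • ξ' - φ ∘ₗ W) ∘ₗ S.subtype
  have hj₃ : ∀ ω : S, j₃ ω = s₀⁻¹ • ξ' (ω : Fin M → ℝ) - φ (W (ω : Fin M → ℝ)) := fun ω => rfl
  have huj : ∀ ω : S, u (j₃ ω) = s₀⁻¹ • (ω : Fin M → ℝ) := by
    intro ω
    rw [hj₃, map_sub, map_smul, huξ, hu0, sub_zero]
  have hqj : ∀ ω : S, q₃ (j₃ ω) = ω := by
    intro ω
    rw [hq₃, huj, map_smul, hπ1, smul_smul, mul_inv_cancel₀ hs₀0.ne', one_smul]
  have hpj : ∀ ω : S, p (i₃ (j₃ ω)) ≤ 2 * s (ω : Fin M → ℝ) := by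
    intro ω
    have h1 : i₃ (j₃ ω) = s₀⁻¹ • i (ξ' (ω : Fin M → ℝ)) +
        (W (ω : Fin M → ℝ) - i (φ (W (ω : Fin M → ℝ)))) := by
      rw [hi₃, hqj, hj₃, map_sub, map_smul]
      abel
    have h2 := map_add_le_add p (s₀⁻¹ • i (ξ' (ω : Fin M → ℝ)))
      (W (ω : Fin M → ℝ) - i (φ (W (ω : Fin M → ℝ))))
    rw [← h1, ← hs, map_smul_eq_mul, Real.norm_eq_abs, abs_of_pos (inv_pos.mpr hs₀0)] at h2
    have h3 : s₀⁻¹ * p (i (ξ' (ω : Fin M → ℝ))) ≤ s (ω : Fin M → ℝ) := by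
      calc s₀⁻¹ * p (i (ξ' (ω : Fin M → ℝ))) ≤ s₀⁻¹ * (B * ‖(ω : Fin M → ℝ)‖) :=
            mul_le_mul_of_nonneg_left (hξ'n _) (inv_pos.mpr hs₀0).le
        _ = 2 * A * (M + 1) * B * τ * ‖(ω : Fin M → ℝ)‖ := by rw [hs₀i]; ring
        _ ≤ σ * ‖(ω : Fin M → ℝ)‖ := mul_le_mul_of_nonneg_right hD (norm_nonneg _)
        _ ≤ s (ω : Fin M → ℝ) := by rw [hs]; exact hσ _
    linarith
  -- (4)
  refine ⟨T.symm.toLinearMap ∘ₗ ((1 / 2 : ℝ) • j₃), (2 : ℝ) • (q₃ ∘ₗ T.toLinearMap), ?_, ?_, ?_⟩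
  · intro ω
    change (2 : ℝ) • q₃ (T (T.symm ((1 / 2 : ℝ) • j₃ ω))) = ω
    rw [LinearEquiv.apply_symm_apply, map_smul, hqj, smul_smul]
    norm_num
  · intro ω
    change p (i (T.symm ((1 / 2 : ℝ) • j₃ ω))) ≤ s (ω : Fin M → ℝ)
    have h1 := hT1 (T.symm ((1 / 2 : ℝ) • j₃ ω))
    rw [LinearEquiv.apply_symm_apply] at h1
    have h3 : p (i₃ ((1 / 2 : ℝ) • j₃ ω)) = 1 / 2 * p (i₃ (j₃ ω)) := by
      rw [LinearMap.map_smul, map_smul_eq_mul, Real.norm_eq_abs,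
        abs_of_pos (by norm_num : (0 : ℝ) < 1 / 2)]
    rw [h3] at h1
    have h2 := hpj ω
    linarith
  · intro x
    change s (((2 : ℝ) • q₃ (T x) : S) : Fin M → ℝ) ≤ 6 * b ^ 2 * (1 + C) * p (i x)
    rw [Submodule.coe_smul, map_smul_eq_mul, Real.norm_eq_abs, abs_of_pos (by norm_num : (0 : ℝ) < 2)]
    have h1 := hsq (T x)
    have h2 := mul_le_mul_of_nonneg_left (hT2 x) (by linarith : (0 : ℝ) ≤ 1 + C)
    calc 2 * s (q₃ (T x) : Fin M → ℝ) ≤ 2 * ((1 + C) * (3 * b ^ 2 * p (i x))) := by linarith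
      _ = 6 * b ^ 2 * (1 + C) * p (i x) := by ring

end Pool.RG
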