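import Pool.Agent.Work.MP_3e8c7a_g.InterfaceD

/-! Block DRO (helper98): the lemma of Dvoretzky and Rogers. -/

set_option autoImplicit false

namespace Pool.RG

open Module Pool.Agent.MP3e8c7a Pool.Agent.MP3e8c7as

theorem DRO_det {d : ℕ} (U : Submodule ℝ (EuclideanSpace ℝ (Fin d))) (a b : ℝ) :
    ∃ A : EuclideanSpace ℝ (Fin d) →ₗ[ℝ] EuclideanSpace ℝ (Fin d),
      (∀ x, A x = a • U.starProjection x + b • Uᗮ.starProjection x) ∧
      LinearMap.det A = a ^ finrank ℝ U * b ^ finrank ℝ Uᗮ := by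
  refine ⟨a • (U.starProjection : EuclideanSpace ℝ (Fin d) →ₗ[ℝ] EuclideanSpace ℝ (Fin d)) +
    b • (Uᗮ.starProjection : EuclideanSpace ℝ (Fin d) →ₗ[ℝ] EuclideanSpace ℝ (Fin d)),
    fun x => rfl, ?_⟩
  have hc : IsCompl U Uᗮ := U.isCompl_orthogonal
  have key : a • (U.starProjection : EuclideanSpace ℝ (Fin d) →ₗ[ℝ] EuclideanSpace ℝ (Fin d)) +
      b • (Uᗮ.starProjection : EuclideanSpace ℝ (Fin d) →ₗ[ℝ] EuclideanSpace ℝ (Fin d)) =
      ((U.prodEquivOfIsCompl Uᗮ hc : (U × Uᗮ) ≃ₗ[ℝ] EuclideanSpace ℝ (Fin d)) :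
        (U × Uᗮ) →ₗ[ℝ] EuclideanSpace ℝ (Fin d)) ∘ₗ
      (LinearMap.prodMap (a • LinearMap.id) (b • LinearMap.id)) ∘ₗ
      ((U.prodEquivOfIsCompl Uᗮ hc).symm : EuclideanSpace ℝ (Fin d) →ₗ[ℝ] (U × Uᗮ)) := by
    ext1 x
    obtain ⟨p, rfl⟩ := (U.prodEquivOfIsCompl Uᗮ hc).surjective x
    obtain ⟨u, w⟩ := p
    have e1 : U.starProjection ((u : EuclideanSpace ℝ (Fin d)) + w) = u := by
      rw [map_add, Submodule.starProjection_mem_subspace_eq_self,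
        (Submodule.starProjection_apply_eq_zero_iff U).2 w.2, add_zero]
    have e2 : Uᗮ.starProjection ((u : EuclideanSpace ℝ (Fin d)) + w) = w := by
      rw [map_add, Submodule.starProjection_mem_subspace_eq_self,
        (Submodule.starProjection_apply_eq_zero_iff Uᗮ).2 (U.le_orthogonal_orthogonal u.2), zero_add]
    simp [e1, e2]
  rw [key, LinearMap.det_conj, LinearMap.det_prodMap, LinearMap.det_smul, LinearMap.det_smul,
    LinearMap.det_id, LinearMap.det_id, mul_one, mul_one]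

theorem DRO_num (m c : ℕ) (h : 2 * c + 1 ≤ m) : 1 < Real.sqrt 3 ^ m * (1 / 2 : ℝ) ^ c := by
  have h3 : (1 : ℝ) < Real.sqrt 3 := by
    rw [Real.lt_sqrt (by norm_num)]
    norm_num
  have h1 : Real.sqrt 3 ^ (2 * c + 1) ≤ Real.sqrt 3 ^ m := pow_le_pow_right₀ h3.le h
  have h2 : Real.sqrt 3 ^ (2 * c + 1) = 3 ^ c * Real.sqrt 3 := by
    rw [pow_succ, pow_mul, Real.sq_sqrt (by norm_num)]
  have h4 : (1 : ℝ) ≤ 3 ^ c * (1 / 2 : ℝ) ^ c := by
    rw [← mul_pow]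
    exact one_le_pow₀ (by norm_num)
  have h5 : (0 : ℝ) < (1 / 2 : ℝ) ^ c := by positivity
  calc (1 : ℝ) < Real.sqrt 3 := h3
    _ ≤ (3 ^ c * (1 / 2 : ℝ) ^ c) * Real.sqrt 3 := le_mul_of_one_le_left (by positivity) h4
    _ = Real.sqrt 3 ^ (2 * c + 1) * (1 / 2 : ℝ) ^ c := by rw [h2]; ring
    _ ≤ Real.sqrt 3 ^ m * (1 / 2 : ℝ) ^ c := mul_le_mul_of_nonneg_right h1 h5.le

theorem DRO_one {V : Type} [AddCommGroup V] [Module ℝ V] (s : Seminorm ℝ V) {d : ℕ}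
    (T : EuclideanSpace ℝ (Fin d) →ₗ[ℝ] V) (hT : ∀ x, s (T x) ≤ ‖x‖)
    (hA : ∀ A : EuclideanSpace ℝ (Fin d) →ₗ[ℝ] EuclideanSpace ℝ (Fin d),
      (∀ x, s (T (A x)) ≤ ‖x‖) → |LinearMap.det A| ≤ 1) (n : ℕ) (hd : 3 * n + 1 ≤ d)
    (U : Submodule ℝ (EuclideanSpace ℝ (Fin d))) (hU : finrank ℝ Uᗮ < n) :
    ∃ u ∈ U, ‖u‖ = 1 ∧ 1 / 2 ≤ s (T u) := by
  by_contra hcon
  push Not at hcon
  have h1 : ∀ u ∈ U, s (T u) ≤ ‖u‖ / 2 := by
    intro u hu
    by_cases hu0 : u = 0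
    · rw [hu0, map_zero, map_zero, norm_zero, zero_div]
    · have hn : 0 < ‖u‖ := norm_pos_iff.2 hu0
      have h2 := hcon (‖u‖⁻¹ • u) (U.smul_mem _ hu) (by
        rw [norm_smul, norm_inv, norm_norm, inv_mul_cancel₀ hn.ne'])
      rw [map_smul, map_smul_eq_mul, norm_inv, norm_norm, inv_mul_lt_iff₀ hn] at h2
      linarith
  obtain ⟨A, hAx, hdet⟩ := DRO_det U (Real.sqrt 3) (1 / 2)
  have h2 : ∀ x, s (T (A x)) ≤ ‖x‖ := by
    intro x
    have e := Submodule.norm_sq_eq_add_norm_sq_starProjection x U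
    have a1 := h1 (U.starProjection x) (U.starProjection_apply_mem x)
    have a2 := hT (Uᗮ.starProjection x)
    have hs3 : 0 ≤ Real.sqrt 3 := Real.sqrt_nonneg 3
    have a3 : s (T (A x)) ≤
        Real.sqrt 3 * (‖U.starProjection x‖ / 2) + 1 / 2 * ‖Uᗮ.starProjection x‖ := by
      rw [hAx x, map_add, map_smul, map_smul]
      refine (map_add_le_add s _ _).trans ?_
      rw [map_smul_eq_mul, map_smul_eq_mul, Real.norm_of_nonneg hs3,
        Real.norm_of_nonneg (by norm_num : (0 : ℝ) ≤ 1 / 2)]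
      exact add_le_add (mul_le_mul_of_nonneg_left a1 hs3)
        (mul_le_mul_of_nonneg_left a2 (by norm_num))
    refine a3.trans (abs_le_of_sq_le_sq' ?_ (norm_nonneg x)).2
    have hsq : Real.sqrt 3 ^ 2 = 3 := Real.sq_sqrt (by norm_num)
    rw [e]
    nlinarith [sq_nonneg (‖U.starProjection x‖ - Real.sqrt 3 * ‖Uᗮ.starProjection x‖), hsq,
      sq_nonneg ‖Uᗮ.starProjection x‖]
  have h3 := hA A h2
  have h4 := U.finrank_add_finrank_orthogonal
  rw [finrank_euclideanSpace_fin] at h4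
  have h5 := DRO_num (finrank ℝ U) (finrank ℝ Uᗮ) (by omega)
  rw [hdet] at h3
  exact absurd (h5.trans_le ((le_abs_self _).trans h3)) (lt_irrefl _)

theorem DRO_greedy {V : Type} [AddCommGroup V] [Module ℝ V] (s : Seminorm ℝ V) {d : ℕ}
    (T : EuclideanSpace ℝ (Fin d) →ₗ[ℝ] V) (hT : ∀ x, s (T x) ≤ ‖x‖)
    (hA : ∀ A : EuclideanSpace ℝ (Fin d) →ₗ[ℝ] EuclideanSpace ℝ (Fin d),
      (∀ x, s (T (A x)) ≤ ‖x‖) → |LinearMap.det A| ≤ 1) (n : ℕ) (hd : 3 * n + 1 ≤ d) :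
    ∀ k ≤ n, ∃ u : Fin k → EuclideanSpace ℝ (Fin d), Orthonormal ℝ u ∧
      ∀ i, 1 / 2 ≤ s (T (u i)) := by
  intro k
  induction k with
  | zero =>
    intro _
    exact ⟨fun i => i.elim0, ⟨fun i => i.elim0, fun i => i.elim0⟩, fun i => i.elim0⟩
  | succ k ih =>
    intro hk
    obtain ⟨u, hu, hs⟩ := ih (by omega)
    have hfin : finrank ℝ ((Submodule.span ℝ (Set.range u))ᗮᗮ : Submodule ℝ _) < n := by
      rw [Submodule.orthogonal_orthogonal]
      have := finrank_range_le_card (R := ℝ) u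
      rw [Fintype.card_fin] at this
      have h2 : finrank ℝ (Submodule.span ℝ (Set.range u)) ≤ k := this
      omega
    obtain ⟨w, hw, hw1, hws⟩ := DRO_one s T hT hA n hd (Submodule.span ℝ (Set.range u))ᗮ hfin
    refine ⟨Matrix.vecCons w u, ?_, ?_⟩
    · rw [orthonormal_vecCons_iff]
      refine ⟨hw1, fun i => ?_, hu⟩
      rw [real_inner_comm]
      exact (Submodule.mem_orthogonal _ _).1 hw (u i) (Submodule.subset_span ⟨i, rfl⟩)
    · intro i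
      refine Fin.cases ?_ (fun j => ?_) i
      · exact hws
      · exact hs j

theorem p_DRO (h1 : Stmt_MXD) : Stmt_DRO := by
  intro n V _ _ _ s hs hn
  obtain ⟨T, hT, hA⟩ := h1 V s (finrank ℝ V) hs rfl
  obtain ⟨u, hu, hus⟩ := DRO_greedy s T hT hA n hn n le_rfl
  refine ⟨fun i => T (u i), hus, fun a => ?_⟩
  have e1 : ∑ i, a i • T (u i) = T (∑ i, a i • u i) := by
    rw [map_sum]
    simp only [map_smul]
  rw [e1]
  refine (hT _).trans (le_of_eq ?_)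
  have e2 : inner ℝ (∑ i, a i • u i) (∑ i, a i • u i) = ∑ i, a i ^ 2 := by
    rw [hu.inner_sum a a Finset.univ]
    refine Finset.sum_congr rfl fun i _ => ?_
    simp [sq]
  rw [real_inner_self_eq_norm_sq] at e2
  unfold Pool.RG.e2
  rw [← e2, Real.sqrt_sq (norm_nonneg _)]

end Pool.RG
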