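import Pool.Agent.Work.MP_3e8c7a_g.InterfaceD

set_option autoImplicit false

namespace Pool.RG

open Module Pool.Agent.MP3e8c7a Pool.Agent.MP3e8c7as

theorem p_DVO (h1 : Stmt_SYN) (h2 : Stmt_HIL) : Stmt_DVO := by
  intro m
  obtain ⟨M, hM⟩ := h2 m
  obtain ⟨N, hN⟩ := h1 M
  refine ⟨N, ?_⟩
  intro V _ _ _ s hs hd
  obtain ⟨f, G, hf, hG⟩ := hN V s hs hd
  obtain ⟨h, c, hc, hh⟩ := hM f hf
  refine ⟨c⁻¹ • (G ∘ₗ h), fun x => ?_⟩
  have h3 : s ((c⁻¹ • (G ∘ₗ h)) x) = c⁻¹ * s (G (h x)) := by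
    rw [LinearMap.smul_apply, LinearMap.comp_apply, map_smul_eq_mul, Real.norm_eq_abs,
      abs_of_pos (inv_pos.2 hc)]
  rw [h3]
  obtain ⟨h4, h5⟩ := hh x
  obtain ⟨h6, h7⟩ := hG (h x)
  constructor
  · rw [inv_mul_eq_div, le_div_iff₀ hc, mul_comm]
    exact h4.trans h6
  · rw [inv_mul_eq_div, div_le_iff₀ hc]
    calc s (G (h x)) ≤ 10 * f (h x) := h7
      _ ≤ 10 * (7 * (c * e2 x)) := by linarith
      _ = 70 * e2 x * c := by ring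

end Pool.RG
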