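import Pool.Agent.Work.MP_3e8c7a_g.InterfaceD

set_option autoImplicit false

namespace Pool.RG

open Module Pool.Agent.MP3e8c7a Pool.Agent.MP3e8c7as

/-- The point of the cube with the new coordinate `b`. -/
def EFS_cons {ι : Type} (b : Bool) (ε : ι → Bool) : Option ι → Bool :=
  Equiv.piOptionEquivProd.symm (b, ε)

theorem EFS_cons_none {ι : Type} (b : Bool) (ε : ι → Bool) : EFS_cons b ε none = b := rfl

theorem EFS_cons_some {ι : Type} (b : Bool) (ε : ι → Bool) (i : ι) : EFS_cons b ε (some i) = ε i := rfl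

theorem EFS_upd_none {ι : Type} [DecidableEq (Option ι)] (b c : Bool) (ε : ι → Bool) :
    Function.update (EFS_cons b ε) none c = EFS_cons c ε := by
  funext j
  cases j with
  | none => rw [Function.update_self]; rfl
  | some i => rw [Function.update_of_ne (by simp)]; rfl

theorem EFS_upd_some {ι : Type} [DecidableEq ι] [DecidableEq (Option ι)] (b c : Bool) (ε : ι → Bool) (i : ι) :
    Function.update (EFS_cons b ε) (some i) c = EFS_cons b (Function.update ε i c) := by
  funext j
  cases j with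
  | none => rw [Function.update_of_ne (by simp)]; rfl
  | some k =>
    by_cases h : k = i
    · subst h; rw [Function.update_self, EFS_cons_some, Function.update_self]
    · rw [Function.update_of_ne (by simpa using h), EFS_cons_some, EFS_cons_some,
        Function.update_of_ne h]

theorem EFS_sum {ι : Type} [Fintype ι] [DecidableEq ι] [DecidableEq (Option ι)] (G : (Option ι → Bool) → ℝ) :
    ∑ η, G η = ∑ ε, G (EFS_cons true ε) + ∑ ε, G (EFS_cons false ε) := by
  rw [← Equiv.sum_comp (Equiv.piOptionEquivProd (β := fun _ : Option ι => Bool)).symm G,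
    Fintype.sum_prod_type, Fintype.sum_bool]
  rfl

theorem EFS_card {ι : Type} [Fintype ι] [DecidableEq ι] :
    ((Finset.univ : Finset (ι → Bool)).card : ℝ) = 2 ^ Fintype.card ι := by
  rw [Finset.card_univ, Fintype.card_fun, Fintype.card_bool]; push_cast; rfl

/-- Shift of the centre. -/
theorem EFS_shift {ι : Type} [Fintype ι] [DecidableEq ι] (F : (ι → Bool) → ℝ) (m μ : ℝ)
    (hm : m * 2 ^ Fintype.card ι = ∑ ε, F ε) :
    ∑ ε, (F ε - μ) ^ 2 = ∑ ε, (F ε - m) ^ 2 + 2 ^ Fintype.card ι * (m - μ) ^ 2 := by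
  have h0 : ∑ ε, (F ε - m) = 0 := by
    rw [Finset.sum_sub_distrib, Finset.sum_const, nsmul_eq_mul, EFS_card, ← hm]; ring
  have h1 : ∀ ε, (F ε - μ) ^ 2 = (F ε - m) ^ 2 + 2 * (m - μ) * (F ε - m) + (m - μ) ^ 2 := by
    intro ε; ring
  rw [Finset.sum_congr rfl fun ε _ => h1 ε, Finset.sum_add_distrib, Finset.sum_add_distrib,
    ← Finset.mul_sum, h0, Finset.sum_const, nsmul_eq_mul, EFS_card]
  ring

theorem EFS_max (a b : ℝ) : max (a - b) 0 ^ 2 + max (b - a) 0 ^ 2 = (a - b) ^ 2 := by
  rcases le_total a b with h | h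
  · rw [max_eq_right (by linarith), max_eq_left (by linarith)]; ring
  · rw [max_eq_left (by linarith), max_eq_right (by linarith)]; ring

/-- The statement for one index type. -/
def EFS_P (ι : Type) [Fintype ι] : Prop := ∀ [DecidableEq ι] (F : (ι → Bool) → ℝ) (μ : ℝ),
  μ * 2 ^ Fintype.card ι = ∑ ε, F ε →
  ∑ ε, (F ε - μ) ^ 2 ≤ 1 / 2 * ∑ ε, ∑ i, (max (F ε - F (Function.update ε i (!(ε i)))) 0) ^ 2

theorem EFS_step {ι : Type} [Fintype ι] (h : EFS_P ι) : EFS_P (Option ι) := by
  classical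
  intro inst F μ hμ
  set F1 : (ι → Bool) → ℝ := fun ε => F (EFS_cons true ε) with hF1
  set F0 : (ι → Bool) → ℝ := fun ε => F (EFS_cons false ε) with hF0
  set K : ℝ := 2 ^ Fintype.card ι with hK
  have hKpos : 0 < K := by positivity
  set m1 : ℝ := (∑ ε, F1 ε) / K with hm1
  set m0 : ℝ := (∑ ε, F0 ε) / K with hm0
  have e1 : m1 * K = ∑ ε, F1 ε := by rw [hm1]; field_simp
  have e0 : m0 * K = ∑ ε, F0 ε := by rw [hm0]; field_simp
  have hμ' : μ = (m1 + m0) / 2 := by
    rw [EFS_sum F, Fintype.card_option, pow_succ] at hμ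
    have : μ * (K * 2) = m1 * K + m0 * K := by rw [e1, e0]; exact hμ
    have h2 : K * (2 * μ - (m1 + m0)) = 0 := by linarith
    rcases mul_eq_zero.mp h2 with h3 | h3
    · exact absurd h3 hKpos.ne'
    · linarith
  have i1 := h F1 m1 e1
  have i0 := h F0 m0 e0
  have hL : ∑ η, (F η - μ) ^ 2 = ∑ ε, (F1 ε - m1) ^ 2 + ∑ ε, (F0 ε - m0) ^ 2 + K * (m1 - m0) ^ 2 / 2 := by
    rw [EFS_sum (fun η => (F η - μ) ^ 2)]
    have s1 := EFS_shift F1 m1 μ e1
    have s0 := EFS_shift F0 m0 μ e0
    simp only [hF1, hF0] at s1 s0 ⊢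
    rw [s1, s0, hμ']
    ring
  have hR : ∑ η, ∑ i, (max (F η - F (Function.update η i (!(η i)))) 0) ^ 2 =
      ∑ ε, (F1 ε - F0 ε) ^ 2 + ∑ ε, ∑ i, (max (F1 ε - F1 (Function.update ε i (!(ε i)))) 0) ^ 2 +
      ∑ ε, ∑ i, (max (F0 ε - F0 (Function.update ε i (!(ε i)))) 0) ^ 2 := by
    rw [EFS_sum (fun η => ∑ i, (max (F η - F (Function.update η i (!(η i)))) 0) ^ 2)]
    have q : ∀ (b : Bool) (ε : ι → Bool),
        ∑ i, (max (F (EFS_cons b ε) - F (Function.update (EFS_cons b ε) i (!(EFS_cons b ε i)))) 0) ^ 2 =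
        (max (F (EFS_cons b ε) - F (EFS_cons (!b) ε)) 0) ^ 2 +
        ∑ i, (max (F (EFS_cons b ε) - F (EFS_cons b (Function.update ε i (!(ε i))))) 0) ^ 2 := by
      intro b ε
      rw [Fintype.sum_option, EFS_cons_none, EFS_upd_none]
      congr 1
      refine Finset.sum_congr rfl fun i _ => ?_
      rw [EFS_cons_some, EFS_upd_some]
    rw [Finset.sum_congr rfl fun ε _ => q true ε, Finset.sum_congr rfl fun ε _ => q false ε,
      Finset.sum_add_distrib, Finset.sum_add_distrib]
    have r : ∑ ε, (F1 ε - F0 ε) ^ 2 = ∑ ε, (max (F (EFS_cons true ε) - F (EFS_cons (!true) ε)) 0) ^ 2 +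
        ∑ ε, (max (F (EFS_cons false ε) - F (EFS_cons (!false) ε)) 0) ^ 2 := by
      rw [← Finset.sum_add_distrib]
      refine Finset.sum_congr rfl fun ε _ => ?_
      simp only [Bool.not_true, Bool.not_false, hF1, hF0]
      exact (EFS_max _ _).symm
    rw [r]
    ring
  have hC : K * (m1 - m0) ^ 2 ≤ ∑ ε, (F1 ε - F0 ε) ^ 2 := by
    have c := sq_sum_le_card_mul_sum_sq (s := (Finset.univ : Finset (ι → Bool))) (f := fun ε => F1 ε - F0 ε)
    rw [EFS_card, Finset.sum_sub_distrib, ← e1, ← e0] at c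
    have c2 : K * (K * (m1 - m0) ^ 2) ≤ K * ∑ ε, (F1 ε - F0 ε) ^ 2 := by
      calc K * (K * (m1 - m0) ^ 2) = (m1 * K - m0 * K) ^ 2 := by ring
        _ ≤ _ := c
    exact le_of_mul_le_mul_left c2 hKpos
  rw [hL, hR]
  linarith

theorem EFS_all (ι : Type) [Fintype ι] : EFS_P ι := by
  classical
  refine Fintype.induction_empty_option (P := fun (α : Type) (_ : Fintype α) => EFS_P α) ?_ ?_ ?_ ι
  · intro α β inst e h instD F μ hμ
    let _ : Fintype α := Fintype.ofEquiv β e.symm
    let _ : DecidableEq α := e.decidableEq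
    set E : (α → Bool) ≃ (β → Bool) := Equiv.arrowCongr e (Equiv.refl Bool) with hE
    have hEa : ∀ (ε : α → Bool) (j : β), E ε j = ε (e.symm j) := fun ε j => rfl
    have hcard : Fintype.card α = Fintype.card β := Fintype.card_congr e
    have h1 := @h _ (fun ε => F (E ε)) μ (by rw [hcard, hμ, Equiv.sum_comp E F])
    have u : ∀ (ε : α → Bool) (i : α) (c : Bool), E (Function.update ε i c) = Function.update (E ε) (e i) c := by
      intro ε i c
      funext j
      rw [hEa]
      by_cases hj : j = e i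
      · subst hj; rw [Function.update_self, e.symm_apply_apply, Function.update_self]
      · rw [Function.update_of_ne hj, Function.update_of_ne (fun hh => hj (by rw [← hh, e.apply_symm_apply]))]
        rfl
    rw [← Equiv.sum_comp E (fun ε => (F ε - μ) ^ 2),
      ← Equiv.sum_comp E (fun ε => ∑ i, (max (F ε - F (Function.update ε i (!(ε i)))) 0) ^ 2)]
    refine h1.trans (le_of_eq ?_)
    congr 1
    refine Finset.sum_congr rfl fun ε _ => ?_
    rw [← Equiv.sum_comp e]
    refine Finset.sum_congr rfl fun i _ => ?_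
    rw [u, hEa, e.symm_apply_apply]
  · intro inst F μ hμ
    have hz : ∑ ε, (F ε - μ) ^ 2 = 0 := by
      rw [Fintype.sum_unique] at hμ ⊢
      rw [Fintype.card_pempty, pow_zero, mul_one] at hμ
      rw [hμ, sub_self]; ring
    rw [hz]
    positivity
  · intro α inst h
    exact EFS_step h

theorem p_EFS : Stmt_EFS := by
  intro ι _ _ F μ hμ
  exact EFS_all ι F μ hμ

end Pool.RG
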