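import Pool.Agent.Work.MP_3e8c7a_g.InterfaceD

/-!
# Block HIL (MP_3e8c7a_an, THEOREM G, part 2): Euclidean subspaces of symmetric spaces (helper74)
-/

set_option autoImplicit false

namespace Pool.RG

open Module Pool.Agent.MP3e8c7a Pool.Agent.MP3e8c7as

/-- the linear map `x ↦ (⟨x, ω⟩)_ω` -/
noncomputable def HIL_h {m M : ℕ} (w : Fin M → Fin m → ℤ) : (Fin m → ℝ) →ₗ[ℝ] (Fin M → ℝ) :=
  LinearMap.pi fun i => ∑ l, (w i l : ℝ) • LinearMap.proj l

theorem HIL_h_apply {m M : ℕ} (w : Fin M → Fin m → ℤ) (x : Fin m → ℝ) (i : Fin M) :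
    HIL_h w x i = ∑ l, x l * (w i l : ℝ) := by
  simp only [HIL_h, LinearMap.pi_apply, LinearMap.sum_apply, LinearMap.smul_apply,
    LinearMap.proj_apply, smul_eq_mul]
  exact Finset.sum_congr rfl fun l _ => mul_comm _ _

theorem HIL_inner {m : ℕ} (x : Fin m → ℝ) (ω : Fin m → ℤ) :
    inner ℝ (WithLp.toLp 2 x : EuclideanSpace ℝ (Fin m)) (zE ω) = ∑ l, x l * (ω l : ℝ) := by
  rw [zE, PiLp.inner_apply]
  refine Finset.sum_congr rfl fun l _ => ?_
  simp [mul_comm]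

theorem HIL_norm {m : ℕ} (x : Fin m → ℝ) (hx : ∑ i, x i ^ 2 = 1) :
    ‖(WithLp.toLp 2 x : EuclideanSpace ℝ (Fin m))‖ = 1 := by
  rw [EuclideanSpace.norm_eq]
  simp [hx]

/-- comparison of two unit vectors -/
theorem HIL_comp {m : ℕ} (hm : 1 ≤ m) (hSYL : Stmt_SYL) (hLTH : Stmt_LTH) (R : ℝ) (K : ℕ)
    (Ω Ω' : Finset (Fin m → ℤ)) (hR1 : 4 * Real.sqrt m ≤ R) (hR2 : 4 * Real.sqrt m * K ≤ R)
    (hΩ : ∀ ω, ω ∈ Ω ↔ ‖zE ω‖ ≤ R) (hΩ' : ∀ ω, ω ∈ Ω' ↔ ‖zE ω‖ ≤ R + Real.sqrt m)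
    (hA : ∀ x : Fin m → ℝ, ∑ i, x i ^ 2 = 1 → ∀ A : Finset (Fin m → ℤ),
      (∀ ω, ω ∈ A ↔ ω ∈ Ω ∧ R / 4 ≤ |∑ i, x i * ω i|) →
      (Ω' \ Ω).card ≤ A.card ∧ Ω.card ≤ K * A.card)
    (M : ℕ) (hM : M = Ω.card) (e : Fin M ≃ Ω) (f : Seminorm ℝ (Fin M → ℝ)) (hf : Sym f)
    (x x' : Fin m → ℝ)
    (hx : ∑ i, x i ^ 2 = 1) (hx' : ∑ i, x' i ^ 2 = 1) :
    f (HIL_h (fun i => (e i).1) x') ≤ 7 * f (HIL_h (fun i => (e i).1) x) := by
  classical
  obtain ⟨hS1, hS2, hS3⟩ := hSYL M f hf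
  set h := HIL_h (fun i => (e i).1) with hh
  have hhx : ∀ (y : Fin m → ℝ) (i : Fin M), h y i = ∑ l, y l * ((e i).1 l : ℝ) := fun y i =>
    HIL_h_apply _ y i
  have hsm : (1 : ℝ) ≤ Real.sqrt m := by
    rw [Real.one_le_sqrt]
    exact_mod_cast hm
  have hR : 0 < R := by linarith
  -- the isometry
  set X : EuclideanSpace ℝ (Fin m) := WithLp.toLp 2 x with hX
  set X' : EuclideanSpace ℝ (Fin m) := WithLp.toLp 2 x' with hX'
  have nX : ‖X‖ = 1 := HIL_norm x hx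
  have nX' : ‖X'‖ = 1 := HIL_norm x' hx'
  obtain ⟨O, hO⟩ : ∃ O : EuclideanSpace ℝ (Fin m) ≃ₗᵢ[ℝ] EuclideanSpace ℝ (Fin m), O X' = X :=
    ⟨Submodule.reflection (Submodule.span ℝ {X' - X})ᗮ, Submodule.reflection_sub (nX'.trans nX.symm)⟩
  obtain ⟨π, hπi, hπ⟩ := hLTH m O Ω
  have hip : ∀ ω : Fin m → ℤ, ω ∈ Ω →
      |∑ l, x' l * (ω l : ℝ)| ≤ |∑ l, x l * (π ω l : ℝ)| + Real.sqrt m := by
    intro ω hω
    rw [← HIL_inner, ← HIL_inner]
    have h1 : inner ℝ X' (zE ω) = inner ℝ X (O (zE ω)) := by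
      rw [← hO, LinearIsometryEquiv.inner_map_map]
    have h2 : inner ℝ X (O (zE ω)) = inner ℝ X (zE (π ω)) + inner ℝ X (O (zE ω) - zE (π ω)) := by
      rw [inner_sub_right]; ring
    rw [← hX', ← hX, h1, h2]
    refine (abs_add_le _ _).trans (add_le_add le_rfl ?_)
    refine (abs_real_inner_le_norm _ _).trans ?_
    rw [nX, one_mul]
    exact hπ ω hω
  have hπΩ' : ∀ ω ∈ Ω, ‖zE (π ω)‖ ≤ R + Real.sqrt m := by
    intro ω hω
    have h1 : zE (π ω) = O (zE ω) - (O (zE ω) - zE (π ω)) := by abel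
    rw [h1]
    refine (norm_sub_le _ _).trans (add_le_add ?_ (hπ ω hω))
    rw [LinearIsometryEquiv.norm_map]
    exact (hΩ ω).1 hω
  -- the set where `h x` is large
  set Ax : Finset (Fin M) := Finset.univ.filter fun i => R / 4 ≤ |h x i| with hAx
  have hAcard : Ax.card = (Ω.filter fun ω => R / 4 ≤ |∑ l, x l * (ω l : ℝ)|).card := by
    refine Finset.card_bij (fun i _ => (e i).1) ?_ ?_ ?_
    · intro i hi
      rw [Finset.mem_filter] at hi ⊢
      refine ⟨(e i).2, ?_⟩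
      rw [← hhx]
      exact hi.2
    · intro i _ j _ hij
      exact e.injective (Subtype.ext hij)
    · intro ω hω
      rw [Finset.mem_filter] at hω
      refine ⟨e.symm ⟨ω, hω.1⟩, ?_, by simp⟩
      rw [Finset.mem_filter]
      refine ⟨Finset.mem_univ _, ?_⟩
      rw [hhx]
      simpa using hω.2
  obtain ⟨hc1, hc2⟩ := hA x hx (Ω.filter fun ω => R / 4 ≤ |∑ l, x l * (ω l : ℝ)|) (fun ω => by
    rw [Finset.mem_filter])
  rw [← hAcard] at hc1 hc2
  have hAf : R / 4 * f (ind Ax) ≤ f (h x) := by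
    have h1 : f ((R / 4) • ind Ax) = R / 4 * f (ind Ax) := by
      rw [map_smul_eq_mul, Real.norm_eq_abs, abs_of_pos (by positivity)]
    rw [← h1]
    refine hS1 _ _ fun i => ?_
    simp only [Pi.smul_apply, smul_eq_mul, ind]
    split_ifs with hi
    · rw [mul_one, abs_of_pos (by positivity)]
      exact (Finset.mem_filter.1 hi).2
    · simp
  have hfnn : 0 ≤ f (h x) := apply_nonneg f _
  -- the three functions
  set D : Finset (Fin M) := Finset.univ.filter fun i => π (e i).1 ∉ Ω with hD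
  set A₁ : Finset (Fin M) := Finset.univ.filter fun i => π (e i).1 ∈ Ω with hA₁
  let u₁ : Fin M → ℝ := fun i => if π (e i).1 ∈ Ω then |∑ l, x l * (π (e i).1 l : ℝ)| else 0
  let u₂ : Fin M → ℝ := (R + Real.sqrt m) • ind D
  let u₃ : Fin M → ℝ := Real.sqrt m • ind Finset.univ
  have hu : ∀ i, |h x' i| ≤ |(u₁ + u₂ + u₃) i| := by
    intro i
    rw [hhx]
    refine (hip _ (e i).2).trans (le_trans ?_ (le_abs_self _))
    simp only [Pi.add_apply, u₁, u₂, u₃, Pi.smul_apply, smul_eq_mul, ind, Finset.mem_univ, if_true,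
      mul_one]
    by_cases hi : π (e i).1 ∈ Ω
    · have h1 : i ∉ D := by simp [hD, hi]
      rw [if_pos hi, if_neg h1]
      linarith
    · have h1 : i ∈ D := by simp [hD, hi]
      rw [if_neg hi, if_pos h1]
      have h2 : |∑ l, x l * (π (e i).1 l : ℝ)| ≤ R + Real.sqrt m := by
        rw [← HIL_inner]
        refine (abs_real_inner_le_norm _ _).trans ?_
        rw [← hX, nX, one_mul]
        exact hπΩ' _ (e i).2
      linarith
  have hf1 : f u₁ ≤ f (h x) := by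
    let g : Fin M → Fin M := fun i => if hi : π (e i).1 ∈ Ω then e.symm ⟨π (e i).1, hi⟩ else i
    refine hS2 u₁ (h x) A₁ g ?_ ?_ ?_
    · intro i hi j hj hij
      have hi' : π (e i).1 ∈ Ω := (Finset.mem_filter.1 hi).2
      have hj' : π (e j).1 ∈ Ω := (Finset.mem_filter.1 hj).2
      simp only [g, dif_pos hi', dif_pos hj'] at hij
      have h1 := congrArg Subtype.val (e.symm.injective hij)
      exact e.injective (Subtype.ext (hπi (e i).2 (e j).2 h1))
    · intro i hi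
      have hi' : π (e i).1 ∉ Ω := fun h1 => hi (by simp [hA₁, h1])
      simp only [u₁, if_neg hi']
    · intro i hi
      have hi' : π (e i).1 ∈ Ω := (Finset.mem_filter.1 hi).2
      rw [hhx]
      simp only [u₁, if_pos hi', g, dif_pos hi', abs_abs, Equiv.apply_symm_apply]
      exact le_rfl
  have hDcard : D.card ≤ 1 * Ax.card := by
    rw [one_mul]
    refine le_trans ?_ hc1
    refine Finset.card_le_card_of_injOn (fun i => π (e i).1) ?_ ?_
    · intro i hi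
      have h1 : π (e i).1 ∉ Ω := (Finset.mem_filter.1 hi).2
      rw [Finset.mem_coe, Finset.mem_sdiff]
      exact ⟨(hΩ' _).2 (hπΩ' _ (e i).2), h1⟩
    · intro i _ j _ hij
      exact e.injective (Subtype.ext (hπi (e i).2 (e j).2 hij))
  have hsq : 0 ≤ Real.sqrt m := Real.sqrt_nonneg _
  have hIA : 0 ≤ f (ind Ax) := apply_nonneg f _
  have hf2 : f u₂ ≤ 5 * f (h x) := by
    have h1 : f u₂ = (R + Real.sqrt m) * f (ind D) := by
      simp only [u₂]
      rw [map_smul_eq_mul, Real.norm_eq_abs, abs_of_nonneg (by positivity)]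
    have h2 : f (ind D) ≤ f (ind Ax) := by
      have := hS3 D Ax 1 hDcard
      rwa [Nat.cast_one, one_mul] at this
    rw [h1]
    have h3 : (R + Real.sqrt m) * f (ind D) ≤ (R + R / 4) * f (ind Ax) :=
      mul_le_mul (by linarith) h2 (apply_nonneg f _) (by positivity)
    linarith
  have hf3 : f u₃ ≤ f (h x) := by
    have h1 : f u₃ = Real.sqrt m * f (ind Finset.univ) := by
      simp only [u₃]
      rw [map_smul_eq_mul, Real.norm_eq_abs, abs_of_nonneg hsq]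
    have h2 : f (ind Finset.univ) ≤ K * f (ind Ax) := by
      refine hS3 Finset.univ Ax K ?_
      rw [Finset.card_univ, Fintype.card_fin]
      exact hM.le.trans hc2
    rw [h1]
    have h3 : Real.sqrt m * f (ind Finset.univ) ≤ Real.sqrt m * (K * f (ind Ax)) :=
      mul_le_mul_of_nonneg_left h2 hsq
    have h4 : Real.sqrt m * (K * f (ind Ax)) ≤ R / 4 * f (ind Ax) := by
      rw [← mul_assoc]
      exact mul_le_mul_of_nonneg_right (by linarith) hIA
    linarith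
  calc f (h x') ≤ f (u₁ + u₂ + u₃) := hS1 _ _ hu
    _ ≤ f (u₁ + u₂) + f u₃ := map_add_le_add f _ _
    _ ≤ f u₁ + f u₂ + f u₃ := add_le_add (map_add_le_add f _ _) le_rfl
    _ ≤ 7 * f (h x) := by linarith

theorem p_HIL (hSYL : Stmt_SYL) (hLTH : Stmt_LTH) (hLTC : Stmt_LTC) : Stmt_HIL := by
  classical
  intro m
  rcases Nat.eq_zero_or_pos m with rfl | hm
  · refine ⟨0, fun f _ => ⟨0, 1, one_pos, fun x => ?_⟩⟩
    have h1 : e2 x = 0 := by simp [e2]
    rw [h1, LinearMap.zero_apply, map_zero]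
    simp
  obtain ⟨R, K, Ω, Ω', hR1, hR2, hΩ, hΩ', hA⟩ := hLTC m hm
  refine ⟨Ω.card, fun f hf => ?_⟩
  let e : Fin Ω.card ≃ Ω := Ω.equivFin.symm
  let w : Fin Ω.card → Fin m → ℤ := fun i => (e i).1
  let h := HIL_h w
  have hcomp : ∀ x x' : Fin m → ℝ, ∑ i, x i ^ 2 = 1 → ∑ i, x' i ^ 2 = 1 → f (h x') ≤ 7 * f (h x) :=
    fun x x' hx hx' => HIL_comp hm hSYL hLTH R K Ω Ω' hR1 hR2 hΩ hΩ' hA
      Ω.card rfl e f hf x x' hx hx'
  have hsm : (1 : ℝ) ≤ Real.sqrt m := by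
    rw [Real.one_le_sqrt]
    exact_mod_cast hm
  -- a unit vector
  let i₀ : Fin m := ⟨0, hm⟩
  let x₀ : Fin m → ℝ := Pi.single i₀ 1
  have hx₀ : ∑ i, x₀ i ^ 2 = 1 := by
    rw [Finset.sum_eq_single i₀]
    · simp [x₀]
    · intro j _ hj
      simp [x₀, hj]
    · intro h1; exact absurd (Finset.mem_univ _) h1
  have hpos : 0 < f (h x₀) := by
    refine lt_of_le_of_ne (apply_nonneg f _) fun h0 => ?_
    have h1 : h x₀ = 0 := hf.dfn _ h0.symm
    let ω₀ : Fin m → ℤ := Pi.single i₀ 1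
    have hω₀ : ω₀ ∈ Ω := by
      rw [hΩ]
      have h2 : zE ω₀ = WithLp.toLp 2 x₀ := by
        unfold zE
        congr 1
        funext j
        by_cases hj : j = i₀
        · subst hj; simp [ω₀, x₀]
        · simp [ω₀, x₀, hj]
      rw [h2, HIL_norm x₀ hx₀]
      linarith
    have h3 := congrFun h1 (e.symm ⟨ω₀, hω₀⟩)
    rw [HIL_h_apply] at h3
    have h4 : w (e.symm ⟨ω₀, hω₀⟩) = ω₀ := by simp [w]
    rw [h4, Finset.sum_eq_single i₀] at h3
    · simp [x₀, ω₀] at h3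
    · intro j _ hj
      simp [x₀, hj]
    · intro h5; exact absurd (Finset.mem_univ _) h5
  let S : Set ℝ := {t | ∃ x : Fin m → ℝ, ∑ i, x i ^ 2 = 1 ∧ t = f (h x)}
  have hSne : S.Nonempty := ⟨_, x₀, hx₀, rfl⟩
  have hSb : BddBelow S := ⟨0, by rintro _ ⟨x, _, rfl⟩; exact apply_nonneg f _⟩
  have hlow : ∀ x' : Fin m → ℝ, ∑ i, x' i ^ 2 = 1 → f (h x') / 7 ≤ sInf S := by
    intro x' hx'
    refine le_csInf hSne ?_
    rintro _ ⟨x, hx, rfl⟩
    have := hcomp x x' hx hx'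
    linarith
  refine ⟨h, sInf S, ?_, ?_⟩
  · have := hlow x₀ hx₀
    linarith
  · intro x
    have hnn : 0 ≤ ∑ i, x i ^ 2 := Finset.sum_nonneg fun i _ => sq_nonneg _
    rcases eq_or_lt_of_le hnn with h0 | h0
    · have hx : x = 0 := by
        funext i
        have h1 := (Finset.sum_eq_zero_iff_of_nonneg (fun i _ => sq_nonneg (x i))).1 h0.symm i
          (Finset.mem_univ i)
        exact pow_eq_zero_iff (two_ne_zero) |>.1 h1
      have h2 : e2 x = 0 := by rw [e2, ← h0, Real.sqrt_zero]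
      rw [h2, hx, map_zero, map_zero]
      simp
    · have he : 0 < e2 x := Real.sqrt_pos.2 h0
      have hsq : e2 x ^ 2 = ∑ i, x i ^ 2 := Real.sq_sqrt hnn
      set y : Fin m → ℝ := (e2 x)⁻¹ • x with hy
      have hyn : ∑ i, y i ^ 2 = 1 := by
        have h1 : ∀ i, y i ^ 2 = (e2 x ^ 2)⁻¹ * x i ^ 2 := by
          intro i
          rw [hy, Pi.smul_apply, smul_eq_mul, mul_pow, inv_pow]
        simp only [h1]
        rw [← Finset.mul_sum, ← hsq, inv_mul_cancel₀ (by positivity)]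
      have hxy : x = e2 x • y := by
        rw [hy, smul_smul, mul_inv_cancel₀ he.ne', one_smul]
      have hfx : f (h x) = e2 x * f (h y) := by
        conv_lhs => rw [hxy]
        rw [map_smul, map_smul_eq_mul, Real.norm_eq_abs, abs_of_pos he]
      rw [hfx]
      have h1 : sInf S ≤ f (h y) := csInf_le hSb ⟨y, hyn, rfl⟩
      have h2 := hlow y hyn
      constructor
      · rw [mul_comm]
        exact mul_le_mul_of_nonneg_left h1 he.le
      · nlinarith

end Pool.RG
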