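import Pool.Agent.Work.MP_3e8c7a_g.InterfaceD

/-! # LTC: counting lattice points -/

set_option autoImplicit false

namespace Pool.RG

open Module Pool.Agent.MP3e8c7a Pool.Agent.MP3e8c7as

theorem LTC_norm {m : ℕ} (ω : Fin m → ℤ) {r : ℝ} (hr : 0 ≤ r) :
    ‖zE ω‖ ≤ r ↔ ∑ i, (ω i : ℝ) ^ 2 ≤ r ^ 2 := by
  rw [EuclideanSpace.norm_eq, Real.sqrt_le_iff]
  have h : ∑ i, ‖zE ω i‖ ^ 2 = ∑ i, (ω i : ℝ) ^ 2 := by
    refine Finset.sum_congr rfl fun i _ => ?_
    rw [Real.norm_eq_abs, sq_abs]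
    rfl
  rw [h]
  exact ⟨fun h => h.2, fun h => ⟨hr, h⟩⟩

/-- the box -/
noncomputable def LTC_box (m N : ℕ) : Finset (Fin m → ℤ) :=
  Fintype.piFinset fun _ => Finset.Icc (-(N : ℤ)) N

theorem LTC_box_card (m N : ℕ) : (LTC_box m N).card = (2 * N + 1) ^ m := by
  rw [LTC_box, Fintype.card_piFinset_const, Int.card_Icc]
  congr 1
  omega

open Classical in
/-- the lattice points in a ball -/
noncomputable def LTC_ball (m N : ℕ) (r : ℝ) : Finset (Fin m → ℤ) :=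
  (LTC_box m N).filter fun ω => ‖zE ω‖ ≤ r

theorem LTC_mem {m N : ℕ} {r : ℝ} (hr : 0 ≤ r) (hN : r ≤ N) (ω : Fin m → ℤ) :
    ω ∈ LTC_ball m N r ↔ ‖zE ω‖ ≤ r := by
  rw [LTC_ball, Finset.mem_filter]
  refine ⟨fun h => h.2, fun h => ⟨?_, h⟩⟩
  rw [LTC_box, Fintype.mem_piFinset]
  intro i
  have h1 := (LTC_norm ω hr).1 h
  have h2 : (ω i : ℝ) ^ 2 ≤ ∑ i, (ω i : ℝ) ^ 2 :=
    Finset.single_le_sum (f := fun i => (ω i : ℝ) ^ 2) (fun i _ => sq_nonneg _)
      (Finset.mem_univ i)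
  have h3 : |(ω i : ℝ)| ≤ r := abs_le_of_sq_le_sq (h2.trans h1) hr
  have h4 := abs_le.1 (h3.trans hN)
  rw [Finset.mem_Icc]
  constructor
  · exact_mod_cast h4.1
  · exact_mod_cast h4.2

theorem LTC_A {m : ℕ} (q : ℕ) (R : ℝ) (hR : 2 * Real.sqrt m * q ≤ R) (x : Fin m → ℝ)
    (hx : ∑ i, x i ^ 2 = 1) (A : Finset (Fin m → ℤ))
    (hA : ∀ ω : Fin m → ℤ, ‖zE ω‖ ≤ R → R / 4 ≤ |∑ i, x i * ω i| → ω ∈ A) :
    q ^ m ≤ A.card := by
  have hR0 : 0 ≤ R := le_trans (by positivity) hR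
  set F : (Fin m → Fin q) → (Fin m → ℤ) := fun t i =>
    ⌈R / 2 * x i - q / 2⌉ + ((t i : ℕ) : ℤ) with hF
  have hd : ∀ t i, |(F t i : ℝ) - R / 2 * x i| ≤ q / 2 := by
    intro t i
    have h1 := Int.le_ceil (R / 2 * x i - q / 2)
    have h2 := Int.ceil_lt_add_one (R / 2 * x i - q / 2)
    have h3 : ((t i : ℕ) : ℝ) + 1 ≤ q := by exact_mod_cast (t i).2
    have h4 : (0 : ℝ) ≤ ((t i : ℕ) : ℝ) := Nat.cast_nonneg _
    have h5 : (F t i : ℝ) = (⌈R / 2 * x i - q / 2⌉ : ℝ) + ((t i : ℕ) : ℝ) := by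
      rw [hF]
      push_cast
      rfl
    rw [h5, abs_le]
    constructor <;> linarith
  have hmem : ∀ t, F t ∈ A := by
    intro t
    set e : Fin m → ℝ := fun i => (F t i : ℝ) - R / 2 * x i with he
    have hq : ∑ i, e i ^ 2 ≤ (R / 4) ^ 2 := by
      have h1 : ∑ i, e i ^ 2 ≤ ∑ _i : Fin m, ((q : ℝ) / 2) ^ 2 := by
        refine Finset.sum_le_sum fun i _ => ?_
        rw [← sq_abs (e i)]
        exact pow_le_pow_left₀ (abs_nonneg _) (hd t i) 2
      rw [Finset.sum_const, Finset.card_univ, Fintype.card_fin, nsmul_eq_mul] at h1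
      have h2 : Real.sqrt m ^ 2 = m := Real.sq_sqrt (Nat.cast_nonneg m)
      have h3 : (2 * Real.sqrt m * q) ^ 2 ≤ R ^ 2 := pow_le_pow_left₀ (by positivity) hR 2
      rw [mul_pow, mul_pow, h2] at h3
      linarith
    have hS : |∑ i, x i * e i| ≤ R / 4 := by
      refine abs_le_of_sq_le_sq ?_ (by linarith)
      have h1 := Finset.sum_mul_sq_le_sq_mul_sq Finset.univ x e
      rw [hx, one_mul] at h1
      exact h1.trans hq
    have h1 : ∑ i, x i * (F t i : ℝ) = R / 2 + ∑ i, x i * e i := by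
      have h2 : ∀ i, x i * (F t i : ℝ) = R / 2 * x i ^ 2 + x i * e i := by
        intro i
        rw [he]
        ring
      rw [Finset.sum_congr rfl fun i _ => h2 i, Finset.sum_add_distrib, ← Finset.mul_sum, hx,
        mul_one]
    have h3 : ∑ i, (F t i : ℝ) ^ 2 = ∑ i, e i ^ 2 + R * (∑ i, x i * e i) + R ^ 2 / 4 := by
      have h2 : ∀ i, (F t i : ℝ) ^ 2 = e i ^ 2 + R * (x i * e i) + R ^ 2 / 4 * x i ^ 2 := by
        intro i
        rw [he]
        ring
      rw [Finset.sum_congr rfl fun i _ => h2 i, Finset.sum_add_distrib, Finset.sum_add_distrib,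
        ← Finset.mul_sum, ← Finset.mul_sum, hx, mul_one]
    obtain ⟨h4, h5⟩ := abs_le.1 hS
    refine hA _ ?_ ?_
    · rw [LTC_norm _ hR0, h3]
      nlinarith [mul_le_mul_of_nonneg_left h5 hR0]
    · rw [h1]
      refine le_trans ?_ (le_abs_self _)
      linarith
  have hinj : Function.Injective F := by
    intro t t' h
    funext i
    have h1 := congrFun h i
    rw [hF] at h1
    have h2 : ((t i : ℕ) : ℤ) = ((t' i : ℕ) : ℤ) := add_left_cancel h1
    exact Fin.ext (by exact_mod_cast h2)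
  have h1 : (Finset.univ : Finset (Fin m → Fin q)).card ≤ A.card :=
    Finset.card_le_card_of_injOn F (fun t _ => hmem t) hinj.injOn
  rw [Finset.card_univ, Fintype.card_fun, Fintype.card_fin, Fintype.card_fin] at h1
  exact h1

theorem p_LTC : Stmt_LTC := by
  intro m hm
  set s : ℝ := Real.sqrt m with hs
  have hs0 : 0 ≤ s := Real.sqrt_nonneg _
  have hsm : s ≤ m := by
    have h1 : (1 : ℝ) ≤ m := by exact_mod_cast hm
    rw [hs, Real.sqrt_le_left (by linarith)]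
    nlinarith
  obtain ⟨K, hK⟩ : ∃ K : ℕ, K = (8 * m + 1) ^ m := ⟨_, rfl⟩
  have hK1 : 1 ≤ K := by
    rw [hK]
    exact Nat.one_le_pow _ _ (by omega)
  obtain ⟨q, hq⟩ : ∃ q : ℕ, q = 2 * K := ⟨_, rfl⟩
  obtain ⟨N, hN⟩ : ∃ N : ℕ, N = 4 * m * q := ⟨_, rfl⟩
  have hrad : ∀ j : ℕ, j ≤ 2 * q → 0 ≤ s * (2 * q + j) ∧ s * (2 * q + j) ≤ N := by
    intro j hj
    have h1 : (j : ℝ) ≤ 2 * q := by exact_mod_cast hj
    have h2 : (0 : ℝ) ≤ q := Nat.cast_nonneg q
    have h3 : (0 : ℝ) ≤ j := Nat.cast_nonneg j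
    refine ⟨by positivity, ?_⟩
    have h4 : s * (2 * q + j) ≤ m * (2 * q + 2 * q) :=
      mul_le_mul hsm (by linarith) (by linarith) (by linarith)
    rw [hN]
    push_cast
    linarith
  set B : ℕ → Finset (Fin m → ℤ) := fun j => LTC_ball m N (s * (2 * q + j)) with hB
  have hBcard : ∀ j, (B j).card ≤ K * q ^ m := by
    intro j
    have h1 : (B j).card ≤ (LTC_box m N).card := Finset.card_filter_le _ _
    rw [LTC_box_card] at h1
    have h2 : (2 * N + 1) ^ m ≤ ((8 * m + 1) * q) ^ m := by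
      refine Nat.pow_le_pow_left ?_ m
      rw [hN]
      have h3 : 1 ≤ q := by omega
      nlinarith
    rw [mul_pow, ← hK] at h2
    exact h1.trans h2
  have hBmono : ∀ j, j + 1 ≤ 2 * q → B j ⊆ B (j + 1) := by
    intro j hj ω hω
    obtain ⟨a1, a2⟩ := hrad j (by omega)
    obtain ⟨b1, b2⟩ := hrad (j + 1) hj
    have h1 := (LTC_mem a1 a2 ω).1 hω
    refine (LTC_mem b1 b2 ω).2 (h1.trans ?_)
    refine mul_le_mul_of_nonneg_left ?_ hs0
    push_cast
    linarith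
  obtain ⟨j, hj, hjc⟩ : ∃ j, j + 1 ≤ 2 * q ∧ (B (j + 1) \ B j).card ≤ q ^ m := by
    by_contra hcon
    push Not at hcon
    have h1 : ∀ j, j ≤ 2 * q → j * (q ^ m + 1) ≤ (B j).card := by
      intro j
      induction j with
      | zero => intro _; rw [Nat.zero_mul]; exact Nat.zero_le _
      | succ j ih =>
        intro hj
        have h2 := ih (by omega)
        have h3 := hcon j hj
        have h4 := Finset.card_sdiff_add_card_eq_card (hBmono j hj)
        have h5 : (j + 1) * (q ^ m + 1) = j * (q ^ m + 1) + (q ^ m + 1) := by ring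
        omega
    have h2 := h1 (2 * q) le_rfl
    have h3 := hBcard (2 * q)
    have h4 : K * q ^ m < 2 * q * (q ^ m + 1) := by
      have h5 : K ≤ 2 * q := by omega
      have h6 : K * q ^ m ≤ 2 * q * q ^ m := Nat.mul_le_mul_right _ h5
      have h7 : 2 * q * (q ^ m + 1) = 2 * q * q ^ m + 2 * q := by ring
      omega
    omega
  obtain ⟨a1, a2⟩ := hrad j (by omega)
  obtain ⟨b1, b2⟩ := hrad (j + 1) hj
  have hR' : s * (2 * q + j) + s = s * (2 * q + ((j + 1 : ℕ) : ℝ)) := by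
    push_cast
    ring
  have hqK : (q : ℝ) = 2 * K := by rw [hq]; push_cast; ring
  have hK1' : (1 : ℝ) ≤ K := by exact_mod_cast hK1
  have hj0 : (0 : ℝ) ≤ j := Nat.cast_nonneg j
  refine ⟨s * (2 * q + j), K, B j, B (j + 1), ?_, ?_, ?_, ?_, ?_⟩
  · rw [mul_comm 4 s]
    refine mul_le_mul_of_nonneg_left ?_ hs0
    linarith
  · rw [mul_comm 4 s, mul_assoc]
    refine mul_le_mul_of_nonneg_left ?_ hs0
    linarith
  · intro ω
    exact LTC_mem a1 a2 ω
  · intro ω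
    rw [hR']
    exact LTC_mem b1 b2 ω
  · intro x hx A hA
    have h1 : q ^ m ≤ A.card := by
      refine LTC_A q (s * (2 * q + j)) ?_ x hx A fun ω h1 h2 =>
        (hA ω).2 ⟨(LTC_mem a1 a2 ω).2 h1, h2⟩
      rw [← hs]
      nlinarith
    refine ⟨?_, ?_⟩
    · convert hjc.trans h1 using 3
    · exact (hBcard j).trans (Nat.mul_le_mul_left K h1)

end Pool.RG
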