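import Pool.Agent.Work.MP_3e8c7a_g.InterfaceD

set_option autoImplicit false

namespace Pool.RG

open Module Pool.Agent.MP3e8c7a Pool.Agent.MP3e8c7as MeasureTheory

/-- half open unit cubes -/
def LTH_c {m : ℕ} (z : Fin m → ℤ) : Set (EuclideanSpace ℝ (Fin m)) :=
  {y | ∀ i, (z i : ℝ) - 1 / 2 ≤ y i ∧ y i < (z i : ℝ) + 1 / 2}

theorem LTH_pre {m : ℕ} (z : Fin m → ℤ) : (LTH_c z : Set (EuclideanSpace ℝ (Fin m))) =
    (@WithLp.ofLp 2 (Fin m → ℝ)) ⁻¹'
      (Set.univ.pi fun i => Set.Ico ((z i : ℝ) - 1 / 2) ((z i : ℝ) + 1 / 2)) := by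
  ext y
  simp [LTH_c, Set.mem_pi]

theorem LTH_meas {m : ℕ} (z : Fin m → ℤ) : MeasurableSet (LTH_c z) := by
  rw [LTH_pre]
  exact (PiLp.volume_preserving_ofLp (Fin m)).measurable
    (MeasurableSet.univ_pi fun i => measurableSet_Ico)

theorem LTH_vol {m : ℕ} (z : Fin m → ℤ) : volume (LTH_c z) = 1 := by
  rw [LTH_pre, (PiLp.volume_preserving_ofLp (Fin m)).measure_preimage
    (MeasurableSet.univ_pi fun i => measurableSet_Ico).nullMeasurableSet, Real.volume_pi_Ico]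
  apply Finset.prod_eq_one
  intro i _
  rw [show (z i : ℝ) + 1 / 2 - ((z i : ℝ) - 1 / 2) = 1 by ring, ENNReal.ofReal_one]

theorem LTH_disj {m : ℕ} (z z' : Fin m → ℤ) (h : z ≠ z') : Disjoint (LTH_c z) (LTH_c z') := by
  rw [Set.disjoint_left]
  intro y hy hy'
  apply h
  funext i
  have h1 := hy i
  have h2 := hy' i
  have h3 : (z i : ℝ) < (z' i : ℝ) + 1 := by linarith [h1.1, h2.2]
  have h4 : (z' i : ℝ) < (z i : ℝ) + 1 := by linarith [h2.1, h1.2]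
  have h5 : z i < z' i + 1 := by exact_mod_cast h3
  have h6 : z' i < z i + 1 := by exact_mod_cast h4
  omega

theorem LTH_dist {m : ℕ} (z : Fin m → ℤ) (y : EuclideanSpace ℝ (Fin m)) (hy : y ∈ LTH_c z) :
    ‖y - zE z‖ ≤ Real.sqrt m / 2 := by
  rw [EuclideanSpace.norm_eq]
  have h1 : ∑ i, ‖(y - zE z) i‖ ^ 2 ≤ m * (1 / 2) ^ 2 := by
    have : ∑ i : Fin m, ‖(y - zE z) i‖ ^ 2 ≤ ∑ _i : Fin m, (1 / 2 : ℝ) ^ 2 := by
      refine Finset.sum_le_sum fun i _ => ?_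
      have h2 : |(y - zE z) i| ≤ 1 / 2 := by
        have := hy i
        show |y i - (z i : ℝ)| ≤ 1 / 2
        rw [abs_le]
        constructor <;> linarith [this.1, this.2]
      rw [Real.norm_eq_abs]
      gcongr
    simpa using this
  calc Real.sqrt (∑ i, ‖(y - zE z) i‖ ^ 2) ≤ Real.sqrt (m * (1 / 2) ^ 2) := Real.sqrt_le_sqrt h1
    _ = Real.sqrt m / 2 := by
      rw [Real.sqrt_mul (by positivity), Real.sqrt_sq (by norm_num)]; ring

theorem LTH_round {m : ℕ} (y : EuclideanSpace ℝ (Fin m)) : ∃ z : Fin m → ℤ, y ∈ LTH_c z := by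
  refine ⟨fun i => ⌊y i + 1 / 2⌋, fun i => ?_⟩
  have h1 := Int.floor_le (y i + 1 / 2)
  have h2 := Int.lt_floor_add_one (y i + 1 / 2)
  constructor <;> linarith

theorem LTH_finite {m : ℕ} (v : EuclideanSpace ℝ (Fin m)) (r : ℝ) :
    {z : Fin m → ℤ | ‖v - zE z‖ ≤ r}.Finite := by
  refine (Set.finite_Icc (fun i : Fin m => -⌈‖v‖ + r⌉) (fun _ => ⌈‖v‖ + r⌉)).subset ?_
  intro z hz
  have h1 : ∀ i, |(z i : ℝ)| ≤ ‖v‖ + r := by
    intro i
    have h2 : ‖zE z‖ ≤ ‖v‖ + r := by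
      have h3 : zE z = v - (v - zE z) := by abel
      rw [h3]
      exact (norm_sub_le _ _).trans (add_le_add le_rfl hz)
    have h4 : ‖(zE z) i‖ ≤ ‖zE z‖ := PiLp.norm_apply_le _ i
    exact h4.trans h2
  refine ⟨fun i => ?_, fun i => ?_⟩
  · have h3 : (-(⌈‖v‖ + r⌉ : ℤ) : ℝ) ≤ z i := by
      have := (abs_le.1 (h1 i)).1
      have h4 := Int.le_ceil (‖v‖ + r)
      linarith
    show -⌈‖v‖ + r⌉ ≤ z i
    exact_mod_cast h3
  · have h3 : (z i : ℝ) ≤ (⌈‖v‖ + r⌉ : ℤ) := (abs_le.1 (h1 i)).2.trans (Int.le_ceil _)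
    show z i ≤ ⌈‖v‖ + r⌉
    exact_mod_cast h3

theorem p_LTH : Stmt_LTH := by
  intro m O S
  classical
  obtain ⟨t, ht⟩ : ∃ t : (Fin m → ℤ) → Finset (Fin m → ℤ),
      ∀ ω z, z ∈ t ω ↔ ‖O (zE ω) - zE z‖ ≤ Real.sqrt m :=
    ⟨fun ω => (LTH_finite (O (zE ω)) (Real.sqrt m)).toFinset, fun ω z => by simp⟩
  have hall : ∀ s : Finset (Fin m → ℤ), s.card ≤ (s.biUnion t).card := by
    intro s
    have hv : ∀ ω : Fin m → ℤ, volume (O.symm ⁻¹' LTH_c ω) = 1 := by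
      intro ω
      rw [O.symm.measurePreserving.measure_preimage (LTH_meas ω).nullMeasurableSet, LTH_vol]
    have hm : ∀ ω : Fin m → ℤ, MeasurableSet (O.symm ⁻¹' LTH_c ω) := fun ω =>
      O.symm.continuous.measurable (LTH_meas ω)
    have h1 : volume (⋃ ω ∈ s, O.symm ⁻¹' LTH_c ω) = (s.card : ENNReal) := by
      rw [measure_biUnion_finset]
      · simp [hv]
      · intro a _ b _ hab
        exact (LTH_disj a b hab).preimage _
      · intro b _
        exact hm b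
    have h2 : (⋃ ω ∈ s, O.symm ⁻¹' LTH_c ω) ⊆ ⋃ z ∈ s.biUnion t, LTH_c z := by
      intro y hy
      simp only [Set.mem_iUnion, Set.mem_preimage] at hy
      obtain ⟨ω, hω, hy⟩ := hy
      obtain ⟨z, hz⟩ := LTH_round y
      simp only [Set.mem_iUnion]
      refine ⟨z, ?_, hz⟩
      rw [Finset.mem_biUnion]
      refine ⟨ω, hω, ?_⟩
      rw [ht]
      have h3 := LTH_dist z y hz
      have h4 := LTH_dist ω _ hy
      have h5 : ‖y - O (zE ω)‖ ≤ Real.sqrt m / 2 := by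
        rw [← O.symm.norm_map, map_sub, O.symm_apply_apply]
        exact h4
      calc ‖O (zE ω) - zE z‖ = ‖-(y - O (zE ω)) + (y - zE z)‖ := by congr 1; abel
        _ ≤ ‖-(y - O (zE ω))‖ + ‖y - zE z‖ := norm_add_le _ _
        _ ≤ Real.sqrt m := by rw [norm_neg]; linarith
    have h3 : (s.card : ENNReal) ≤ ((s.biUnion t).card : ENNReal) := by
      rw [← h1]
      refine (measure_mono h2).trans ((measure_biUnion_finset_le _ _).trans ?_)
      simp [LTH_vol]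
    exact_mod_cast h3
  obtain ⟨π, hπ, hπ'⟩ := (Finset.all_card_le_biUnion_card_iff_exists_injective t).1 hall
  exact ⟨π, hπ.injOn, fun ω _ => (ht _ _).1 (hπ' ω)⟩

end Pool.RG
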