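import Pool.Agent.Work.MP_3e8c7a_g.InterfaceD

/-! # MP_3e8c7a_an, THEOREM G, block MEN (helper4) -/

set_option autoImplicit false

namespace Pool.RG

open Module Pool.Agent.MP3e8c7a Pool.Agent.MP3e8c7as

theorem MEN_pow (a n : ℕ) : a ^ n * (a + n) ≤ a * (a + 1) ^ n := by
  induction n with
  | zero => simp
  | succ n ih =>
    calc a ^ (n + 1) * (a + (n + 1)) ≤ (a ^ n * (a + n)) * (a + 1) := by
          have h : 0 ≤ a ^ n * n := Nat.zero_le _
          nlinarith [pow_succ a n]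
      _ ≤ (a * (a + 1) ^ n) * (a + 1) := Nat.mul_le_mul_right _ ih
      _ = a * (a + 1) ^ (n + 1) := by ring

theorem MEN_pow2 (N n : ℕ) (hN : 1 ≤ N) (h : N ≤ n) : 2 * (N - 1) ^ n ≤ N ^ n := by
  obtain ⟨a, rfl⟩ : ∃ a, N = a + 1 := ⟨N - 1, by omega⟩
  rw [Nat.add_sub_cancel]
  rcases Nat.eq_zero_or_pos a with ha | ha
  · subst ha
    rw [zero_pow (by omega)]
    exact Nat.zero_le _
  · have h1 := MEN_pow a n
    have h2 : a * (2 * a ^ n) ≤ a ^ n * (a + n) := by
      have h3 : a ^ n * (a + a) ≤ a ^ n * (a + n) := Nat.mul_le_mul_left _ (by omega)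
      calc a * (2 * a ^ n) = a ^ n * (a + a) := by ring
        _ ≤ _ := h3
    exact Nat.le_of_mul_le_mul_left (h2.trans h1) ha

theorem MEN_sgn_mul (c d : Bool) : sgn (if c then d else !d) = sgn c * sgn d := by
  cases c <;> cases d <;> simp [sgn]

theorem MEN_sgn_not (c : Bool) : sgn (!c) = -sgn c := by
  cases c <;> simp [sgn]

theorem MEN_sgn_abs (c : Bool) : |sgn c| = 1 := by
  cases c <;> simp [sgn]

def MEN_flip {n M L : ℕ} (σ : Fin n → Bool) (ε : Fin n × Fin M × Fin L → Bool) :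
    Fin n × Fin M × Fin L → Bool := fun p => if σ p.1 then ε p else !ε p

theorem MEN_flip_inv {n M L : ℕ} (σ : Fin n → Bool) :
    Function.Involutive (MEN_flip (M := M) (L := L) σ) := by
  intro ε
  funext p
  simp only [MEN_flip]
  cases σ p.1 <;> simp

theorem MEN_hh {n M L : ℕ} (σ : Fin n → Bool) (ε : Fin n × Fin M × Fin L → Bool) (i : Fin n)
    (x : Fin M → ℝ) : hh (MEN_flip σ ε) i x = sgn (σ i) * hh ε i x := by
  rw [hh_apply, hh_apply, Finset.mul_sum]
  refine Finset.sum_congr rfl fun j _ => ?_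
  rw [Finset.mul_sum]
  refine Finset.sum_congr rfl fun l _ => ?_
  rw [MEN_flip, MEN_sgn_mul]
  ring

theorem MEN_two {V : Type} [AddCommGroup V] [Module ℝ V] (s : Seminorm ℝ V) {n : ℕ}
    (v : Fin n → V) (h : Fin n → ℝ) (i₀ : Fin n) :
    2 ^ n * s (h i₀ • v i₀) ≤ ∑ σ : Fin n → Bool, s (∑ i, (sgn (σ i) * h i) • v i) := by
  classical
  let τ : (Fin n → Bool) → Fin n → Bool := fun σ i => if i = i₀ then σ i else !σ i
  have hτ : Function.Involutive τ := by
    intro σ
    funext i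
    simp only [τ]
    by_cases hi : i = i₀ <;> simp [hi]
  have h1 : ∑ σ : Fin n → Bool, s (∑ i, (sgn (τ σ i) * h i) • v i) =
      ∑ σ : Fin n → Bool, s (∑ i, (sgn (σ i) * h i) • v i) :=
    Equiv.sum_comp (hτ.toPerm τ) fun σ : Fin n → Bool => s (∑ i, (sgn (σ i) * h i) • v i)
  have h2 : ∀ σ : Fin n → Bool, 2 * s (h i₀ • v i₀) ≤
      s (∑ i, (sgn (σ i) * h i) • v i) + s (∑ i, (sgn (τ σ i) * h i) • v i) := by
    intro σ
    have e : ∑ i, (sgn (σ i) * h i) • v i + ∑ i, (sgn (τ σ i) * h i) • v i =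
        (2 * sgn (σ i₀)) • (h i₀ • v i₀) := by
      rw [← Finset.sum_add_distrib, Finset.sum_eq_single i₀]
      · simp only [τ, if_true]
        rw [← add_smul, smul_smul]
        congr 1
        ring
      · intro i _ hi
        simp only [τ, if_neg hi]
        rw [← add_smul, MEN_sgn_not]
        have : sgn (σ i) * h i + -sgn (σ i) * h i = 0 := by ring
        rw [this, zero_smul]
      · intro hi
        exact absurd (Finset.mem_univ _) hi
    calc 2 * s (h i₀ • v i₀) = s ((2 * sgn (σ i₀)) • (h i₀ • v i₀)) := by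
          rw [map_smul_eq_mul s (2 * sgn (σ i₀)), Real.norm_eq_abs, abs_mul, MEN_sgn_abs]
          norm_num
      _ ≤ _ := by
          rw [← e]
          exact map_add_le_add s _ _
  have h3 := Finset.sum_le_sum fun (σ : Fin n → Bool) (_ : σ ∈ Finset.univ) => h2 σ
  rw [Finset.sum_const, Finset.sum_add_distrib, h1] at h3
  have hc : (Finset.univ : Finset (Fin n → Bool)).card = 2 ^ n := by simp
  rw [hc, nsmul_eq_mul] at h3
  push_cast at h3
  linarith

/-- the signs with a block equal to `g` -/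
def MEN_good {n M L : ℕ} (g : Fin M → Bool) (ε : Fin n × Fin M × Fin L → Bool) : Prop :=
  ∃ i, ∀ j l, ε (i, j, l) = g j

open Classical in
theorem MEN_card {n M L : ℕ} (g : Fin M → Bool) (h : 2 ^ (M * L) ≤ n) :
    2 ^ (n * (M * L)) ≤
      2 * (Finset.univ.filter fun ε : Fin n × Fin M × Fin L → Bool => MEN_good g ε).card := by
  have hbad : (Finset.univ.filter fun ε : Fin n × Fin M × Fin L → Bool => ¬ MEN_good g ε).card ≤
      (2 ^ (M * L) - 1) ^ n := by
    let G : Fin M × Fin L → Bool := fun p => g p.1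
    have h1 : (Fintype.piFinset fun _ : Fin n =>
        (Finset.univ : Finset (Fin M × Fin L → Bool)).erase G).card = (2 ^ (M * L) - 1) ^ n := by
      rw [Fintype.card_piFinset]
      simp only [Finset.prod_const, Finset.card_univ, Fintype.card_fin]
      rw [Finset.card_erase_of_mem (Finset.mem_univ _)]
      simp
    rw [← h1]
    refine Finset.card_le_card_of_injOn (fun ε i p => ε (i, p)) ?_ ?_
    · intro ε hε
      have hε' : ¬ MEN_good g ε := (Finset.mem_filter.1 hε).2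
      refine Finset.mem_coe.2 (Fintype.mem_piFinset.2 fun i => Finset.mem_erase.2
        ⟨?_, Finset.mem_univ _⟩)
      intro hi
      exact hε' ⟨i, fun j l => congrFun hi (j, l)⟩
    · intro ε _ ε' _ he
      funext p
      exact congrFun (congrFun he p.1) p.2
  have hall : (Finset.univ.filter fun ε : Fin n × Fin M × Fin L → Bool => MEN_good g ε).card +
      (Finset.univ.filter fun ε : Fin n × Fin M × Fin L → Bool => ¬ MEN_good g ε).card =
      2 ^ (n * (M * L)) := by
    rw [Finset.card_filter_add_card_filter_not]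
    simp
  have hp := MEN_pow2 (2 ^ (M * L)) n Nat.one_le_two_pow h
  have e : (2 ^ (M * L)) ^ n = 2 ^ (n * (M * L)) := by
    rw [← pow_mul, mul_comm n]
  rw [e] at hp
  omega

theorem MEN_val {n M L : ℕ} (x : Fin M → ℝ) (ε : Fin n × Fin M × Fin L → Bool) (i : Fin n)
    (g : Fin M → Bool) (hg : ∀ j, sgn (g j) * x j = |x j|) (h : ∀ j l, ε (i, j, l) = g j) :
    (L : ℝ) * e2 x ≤ |hh ε i x| := by
  have e1 : hh ε i x = L * ∑ j, |x j| := by
    rw [hh_apply, Finset.mul_sum]
    refine Finset.sum_congr rfl fun j _ => ?_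
    rw [Finset.sum_congr rfl fun l _ => by rw [h j l, hg j]]
    simp
  have e2' : e2 x ≤ ∑ j, |x j| := by
    rw [e2]
    refine Real.sqrt_le_iff.2 ⟨Finset.sum_nonneg fun j _ => abs_nonneg _, ?_⟩
    calc ∑ j, x j ^ 2 = ∑ j, |x j| ^ 2 := Finset.sum_congr rfl fun j _ => (sq_abs _).symm
      _ ≤ (∑ j, |x j|) ^ 2 := Finset.sum_sq_le_sq_sum_of_nonneg fun j _ => abs_nonneg _
  have e3 : (0 : ℝ) ≤ ∑ j, |x j| := Finset.sum_nonneg fun j _ => abs_nonneg _
  rw [e1, abs_of_nonneg (by positivity)]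
  exact mul_le_mul_of_nonneg_left e2' (by positivity)

theorem p_MEN : Stmt_MEN := by
  classical
  intro V _ _ s n M L v hv hn x
  let g : Fin M → Bool := fun j => decide (0 ≤ x j)
  have hg : ∀ j, sgn (g j) * x j = |x j| := by
    intro j
    simp only [g, sgn]
    by_cases hj : 0 ≤ x j
    · simp [hj, abs_of_nonneg hj]
    · simp [hj, abs_of_neg (not_le.1 hj)]
  have h1n : 1 ≤ n := Nat.one_le_two_pow.trans hn
  -- averaging over `σ`
  have key : ∀ ε : Fin n × Fin M × Fin L → Bool, MEN_good g ε →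
      2 ^ n * ((L : ℝ) / 2 * e2 x) ≤
        ∑ σ : Fin n → Bool, s (GG v (MEN_flip σ ε) x) := by
    rintro ε ⟨i₀, hi⟩
    have h1 := MEN_two s v (fun i => hh ε i x) i₀
    have h2 : ∀ σ : Fin n → Bool, s (∑ i, (sgn (σ i) * hh ε i x) • v i) =
        s (GG v (MEN_flip σ ε) x) := by
      intro σ
      rw [GG_apply]
      simp only [MEN_hh]
    rw [Finset.sum_congr rfl fun σ _ => h2 σ] at h1
    refine le_trans ?_ h1
    refine mul_le_mul_of_nonneg_left ?_ (by positivity)
    rw [map_smul_eq_mul s, Real.norm_eq_abs]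
    have h3 := MEN_val x ε i₀ g hg hi
    have h4 := hv i₀
    have h5 : (0 : ℝ) ≤ |hh ε i₀ x| := abs_nonneg _
    nlinarith
  have hsum : (2 : ℝ) ^ n * ∑ ε : Fin n × Fin M × Fin L → Bool, s (GG v ε x) =
      ∑ ε : Fin n × Fin M × Fin L → Bool, ∑ σ : Fin n → Bool, s (GG v (MEN_flip σ ε) x) := by
    rw [Finset.sum_comm]
    have h1 : ∀ σ : Fin n → Bool, ∑ ε : Fin n × Fin M × Fin L → Bool,
        s (GG v (MEN_flip σ ε) x) = ∑ ε : Fin n × Fin M × Fin L → Bool, s (GG v ε x) := by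
      intro σ
      exact Equiv.sum_comp ((MEN_flip_inv (M := M) (L := L) σ).toPerm _) fun ε => s (GG v ε x)
    rw [Finset.sum_congr rfl fun σ _ => h1 σ, Finset.sum_const, nsmul_eq_mul]
    simp
  have hlow : (((Finset.univ.filter fun ε : Fin n × Fin M × Fin L → Bool =>
      MEN_good g ε).card : ℕ) : ℝ) * (2 ^ n * ((L : ℝ) / 2 * e2 x)) ≤
      (2 : ℝ) ^ n * ∑ ε : Fin n × Fin M × Fin L → Bool, s (GG v ε x) := by
    rw [hsum, ← nsmul_eq_mul, ← Finset.sum_const]
    refine le_trans (Finset.sum_le_sum fun ε hε => key ε (Finset.mem_filter.1 hε).2) ?_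
    refine Finset.sum_le_sum_of_subset_of_nonneg (Finset.filter_subset _ _) fun ε _ _ => ?_
    exact Finset.sum_nonneg fun σ _ => apply_nonneg s _
  have hcard : ((2 : ℝ) ^ (n * (M * L))) ≤ 2 * (((Finset.univ.filter
      fun ε : Fin n × Fin M × Fin L → Bool => MEN_good g ε).card : ℕ) : ℝ) := by
    exact_mod_cast MEN_card (n := n) (M := M) (L := L) g hn
  have h2n : (0 : ℝ) < 2 ^ n := by positivity
  have he : 0 ≤ e2 x := Real.sqrt_nonneg _
  have hmain : (L : ℝ) / 4 * e2 x * 2 ^ (n * (M * L)) ≤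
      ∑ ε : Fin n × Fin M × Fin L → Bool, s (GG v ε x) := by
    have h3 : (((Finset.univ.filter fun ε : Fin n × Fin M × Fin L → Bool =>
        MEN_good g ε).card : ℕ) : ℝ) * ((L : ℝ) / 2 * e2 x) ≤
        ∑ ε : Fin n × Fin M × Fin L → Bool, s (GG v ε x) := by
      refine le_of_mul_le_mul_left ?_ h2n
      calc (2 : ℝ) ^ n * ((((Finset.univ.filter fun ε : Fin n × Fin M × Fin L → Bool =>
          MEN_good g ε).card : ℕ) : ℝ) * ((L : ℝ) / 2 * e2 x)) = _ := by ring
        _ ≤ _ := hlow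
    refine le_trans ?_ h3
    have h4 : (0 : ℝ) ≤ (L : ℝ) / 4 * e2 x := by positivity
    have h5 := mul_le_mul_of_nonneg_left hcard h4
    calc (L : ℝ) / 4 * e2 x * 2 ^ (n * (M * L)) ≤ _ := h5
      _ = _ := by ring
  show (L : ℝ) / 4 * e2 x ≤ (∑ ε : Fin n × Fin M × Fin L → Bool, s (GG v ε x)) /
    2 ^ (n * (M * L))
  rw [le_div_iff₀ (by positivity)]
  exact hmain

end Pool.RG
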