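import Pool.Agent.Work.MP_3e8c7a_g.InterfaceD

/-!
# Block MXD (helper10): maximal determinant
-/

set_option autoImplicit false

namespace Pool.RG

open Module Pool.Agent.MP3e8c7a Pool.Agent.MP3e8c7as

/-- a seminorm of the Euclidean space is bounded -/
theorem MXD_le {d : ℕ} (s : Seminorm ℝ (EuclideanSpace ℝ (Fin d))) :
    ∃ C : ℝ, 0 < C ∧ ∀ x, s x ≤ C * ‖x‖ := by
  refine ⟨1 + ∑ i, s (EuclideanSpace.single i 1), ?_, ?_⟩
  · have : 0 ≤ ∑ i, s (EuclideanSpace.single i (1 : ℝ)) := Finset.sum_nonneg fun i _ => apply_nonneg s _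
    linarith
  · intro x
    have h1 : x = ∑ i, x i • EuclideanSpace.single i (1 : ℝ) := by
      ext j
      simp [Finset.sum_apply, Pi.single_apply]
    have h2 : s x ≤ ∑ i, ‖x‖ * s (EuclideanSpace.single i (1 : ℝ)) := by
      conv_lhs => rw [h1]
      refine (Finset.le_sum_of_subadditive s (map_zero s).le (map_add_le_add s) _ _).trans ?_
      refine Finset.sum_le_sum fun i _ => ?_
      rw [map_smul_eq_mul]
      exact mul_le_mul_of_nonneg_right (PiLp.norm_apply_le x i) (apply_nonneg s _)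
    rw [← Finset.mul_sum] at h2
    have h3 : (1 + ∑ i, s (EuclideanSpace.single i (1 : ℝ))) * ‖x‖ =
        ‖x‖ + ‖x‖ * ∑ i, s (EuclideanSpace.single i (1 : ℝ)) := by ring
    rw [h3]
    have := norm_nonneg x
    linarith

theorem MXD_cont {d : ℕ} (s : Seminorm ℝ (EuclideanSpace ℝ (Fin d))) : Continuous s := by
  obtain ⟨C, hC, h⟩ := MXD_le s
  have hL : LipschitzWith (Real.toNNReal C) s := by
    refine LipschitzWith.of_dist_le_mul fun x y => ?_
    rw [Real.coe_toNNReal C hC.le, Real.dist_eq, dist_eq_norm]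
    refine (abs_sub_map_le_sub s x y).trans (h _)
  exact hL.continuous

theorem MXD_ge {d : ℕ} (s : Seminorm ℝ (EuclideanSpace ℝ (Fin d))) (hs : Def s) :
    ∃ c : ℝ, 0 < c ∧ ∀ x, c * ‖x‖ ≤ s x := by
  by_cases hne : (Metric.sphere (0 : EuclideanSpace ℝ (Fin d)) 1).Nonempty
  · obtain ⟨x₀, hx₀, hmin⟩ := (isCompact_sphere (0 : EuclideanSpace ℝ (Fin d)) 1).exists_isMinOn
      hne (MXD_cont s).continuousOn
    have hx₁ : ‖x₀‖ = 1 := by simpa using hx₀
    have hpos : 0 < s x₀ := by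
      rcases (apply_nonneg s x₀).eq_or_lt with h | h
      · have := hs x₀ h.symm
        rw [this, norm_zero] at hx₁
        exact absurd hx₁ (by norm_num)
      · exact h
    refine ⟨s x₀, hpos, fun x => ?_⟩
    by_cases hx : x = 0
    · rw [hx, norm_zero, mul_zero, map_zero]
    · have hn : 0 < ‖x‖ := norm_pos_iff.mpr hx
      have h1 : (‖x‖⁻¹ • x) ∈ Metric.sphere (0 : EuclideanSpace ℝ (Fin d)) 1 := by
        rw [mem_sphere_zero_iff_norm, norm_smul, norm_inv, norm_norm, inv_mul_cancel₀ hn.ne']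
      have h2 : s x₀ ≤ s (‖x‖⁻¹ • x) := hmin h1
      rw [map_smul_eq_mul, norm_inv, norm_norm] at h2
      calc s x₀ * ‖x‖ ≤ (‖x‖⁻¹ * s x) * ‖x‖ := mul_le_mul_of_nonneg_right h2 hn.le
        _ = s x := by field_simp
  · refine ⟨1, one_pos, fun x => ?_⟩
    by_cases hx : x = 0
    · rw [hx, norm_zero, mul_zero, map_zero]
    · exfalso
      apply hne
      have hn : 0 < ‖x‖ := norm_pos_iff.mpr hx
      exact ⟨‖x‖⁻¹ • x, by
        rw [mem_sphere_zero_iff_norm, norm_smul, norm_inv, norm_norm, inv_mul_cancel₀ hn.ne']⟩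

theorem p_MXD : Stmt_MXD := by
  intro V _ _ _ s d hs hd
  obtain ⟨Ψ⟩ : Nonempty (EuclideanSpace ℝ (Fin d) ≃ₗ[ℝ] V) :=
    FiniteDimensional.nonempty_linearEquiv_of_finrank_eq (by rw [finrank_euclideanSpace_fin, hd])
  obtain ⟨s', hs'⟩ : ∃ s' : Seminorm ℝ (EuclideanSpace ℝ (Fin d)), ∀ x, s' x = s (Ψ x) :=
    ⟨s.comp Ψ.toLinearMap, fun x => rfl⟩
  have hdef : Def s' := by
    intro x hx
    rw [hs'] at hx
    have := hs _ hx
    exact Ψ.map_eq_zero_iff.mp this
  obtain ⟨C, hC, hC2⟩ := MXD_le s'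
  obtain ⟨c, hc, hc2⟩ := MXD_ge s' hdef
  let K : Set (EuclideanSpace ℝ (Fin d) →L[ℝ] EuclideanSpace ℝ (Fin d)) :=
    {B | ∀ x, s' (B x) ≤ ‖x‖}
  have hclosed : IsClosed K := by
    have : K = ⋂ x, {B : EuclideanSpace ℝ (Fin d) →L[ℝ] EuclideanSpace ℝ (Fin d) |
        s' (B x) ≤ ‖x‖} := by
      ext B
      simp [K]
    rw [this]
    refine isClosed_iInter fun x => ?_
    exact isClosed_le ((MXD_cont s').comp (ContinuousLinearMap.apply ℝ _ x).continuous)
      continuous_const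
  have hbdd : Bornology.IsBounded K := by
    refine (Metric.isBounded_closedBall (x := (0 : EuclideanSpace ℝ (Fin d) →L[ℝ]
      EuclideanSpace ℝ (Fin d))) (r := c⁻¹)).subset ?_
    intro B hB
    rw [mem_closedBall_zero_iff]
    refine ContinuousLinearMap.opNorm_le_bound _ (by positivity) fun x => ?_
    have h1 := hc2 (B x)
    have h2 := hB x
    calc ‖B x‖ = c⁻¹ * (c * ‖B x‖) := by field_simp
      _ ≤ c⁻¹ * ‖x‖ := mul_le_mul_of_nonneg_left (h1.trans h2) (by positivity)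
  have hcomp : IsCompact K := Metric.isCompact_of_isClosed_isBounded hclosed hbdd
  have hne : K.Nonempty := ⟨0, fun x => by
    rw [ContinuousLinearMap.zero_apply, map_zero]
    exact norm_nonneg x⟩
  obtain ⟨B, hB, hmax⟩ := hcomp.exists_isMaxOn hne
    (f := fun A : EuclideanSpace ℝ (Fin d) →L[ℝ] EuclideanSpace ℝ (Fin d) => |A.det|)
    ContinuousLinearMap.continuous_det.abs.continuousOn
  have hpos : 0 < |B.det| := by
    have h1 : (C⁻¹ • ContinuousLinearMap.id ℝ (EuclideanSpace ℝ (Fin d))) ∈ K := by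
      intro x
      rw [ContinuousLinearMap.smul_apply, ContinuousLinearMap.id_apply, map_smul_eq_mul,
        Real.norm_eq_abs, abs_of_pos (inv_pos.mpr hC)]
      calc C⁻¹ * s' x ≤ C⁻¹ * (C * ‖x‖) := mul_le_mul_of_nonneg_left (hC2 x) (by positivity)
        _ = ‖x‖ := by field_simp
    have h2 := hmax h1
    refine lt_of_lt_of_le ?_ h2
    have h3 : (C⁻¹ • ContinuousLinearMap.id ℝ (EuclideanSpace ℝ (Fin d))).det =
        C⁻¹ ^ finrank ℝ (EuclideanSpace ℝ (Fin d)) := by
      have h4 : (C⁻¹ • ContinuousLinearMap.id ℝ (EuclideanSpace ℝ (Fin d))).det =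
          LinearMap.det (C⁻¹ • (LinearMap.id : EuclideanSpace ℝ (Fin d) →ₗ[ℝ] _)) := rfl
      rw [h4, LinearMap.det_smul, LinearMap.det_id, mul_one]
    change 0 < |(C⁻¹ • ContinuousLinearMap.id ℝ (EuclideanSpace ℝ (Fin d))).det|
    rw [h3]
    positivity
  refine ⟨Ψ.toLinearMap ∘ₗ (B : EuclideanSpace ℝ (Fin d) →ₗ[ℝ] EuclideanSpace ℝ (Fin d)), ?_, ?_⟩
  · intro x
    have h1 := hB x
    rw [hs'] at h1
    exact h1
  · intro A hA
    have h1 : B.comp (LinearMap.toContinuousLinearMap A) ∈ K := by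
      intro x
      have h2 := hA x
      rw [hs']
      exact h2
    have h2 : |(B.comp (LinearMap.toContinuousLinearMap A)).det| ≤ |B.det| := hmax h1
    have h3 : (B.comp (LinearMap.toContinuousLinearMap A)).det = B.det * LinearMap.det A := by
      have h4 : (B.comp (LinearMap.toContinuousLinearMap A)).det =
          LinearMap.det ((B : EuclideanSpace ℝ (Fin d) →ₗ[ℝ] _) ∘ₗ A) := rfl
      rw [h4, LinearMap.det_comp]
    rw [h3, abs_mul] at h2
    by_contra hcon
    push Not at hcon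
    have h5 : |B.det| * 1 < |B.det| * |LinearMap.det A| := mul_lt_mul_of_pos_left hcon hpos
    linarith

end Pool.RG
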