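import Pool.Agent.Work.MP_3e8c7a_g.InterfaceD

/-! # Block NOD: a space without complemented Euclidean pieces (helper94) -/

set_option autoImplicit false

namespace Pool.RG

open Module Pool.Agent.MP3e8c7a Pool.Agent.MP3e8c7as

theorem NOD_smul {n : ℕ} (c : ℝ) (hc : 0 ≤ c) (x : Fin n → ℝ) : e2 (c • x) = c * e2 x := by
  unfold e2
  have h : ∑ i, (c • x) i ^ 2 = c ^ 2 * ∑ i, x i ^ 2 := by
    rw [Finset.mul_sum]
    refine Finset.sum_congr rfl fun i _ => ?_
    rw [Pi.smul_apply, smul_eq_mul, mul_pow]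
  rw [h, Real.sqrt_mul (sq_nonneg c), Real.sqrt_sq hc]

theorem NOD_zero {n : ℕ} (x : Fin n → ℝ) (h : e2 x ≤ 0) : x = 0 := by
  unfold e2 at h
  have h1 : Real.sqrt (∑ i, x i ^ 2) = 0 := le_antisymm h (Real.sqrt_nonneg _)
  have h0 : 0 ≤ ∑ i, x i ^ 2 := Finset.sum_nonneg fun i _ => sq_nonneg _
  have h2 : ∑ i, x i ^ 2 = 0 := (Real.sqrt_eq_zero h0).1 h1
  funext i
  have h3 := (Finset.sum_eq_zero_iff_of_nonneg (fun i _ => sq_nonneg (x i))).1 h2 i
    (Finset.mem_univ i)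
  simpa using h3

theorem p_NOD (hD : Stmt_DVO) : Stmt_NOD := by
  intro C m _
  obtain ⟨N₀, hN⟩ := hD m
  refine ⟨N₀, fun B _ _ N hE s hs => ?_⟩
  obtain ⟨T, hT⟩ := hN (Fin N₀ → ℝ) s hs (by simp)
  refine ⟨LinearMap.range T, ?_⟩
  rintro ⟨j, q, hjq, hj, hq⟩
  apply hE
  have hinj : Function.Injective T := by
    rw [injective_iff_map_eq_zero]
    intro a ha
    apply NOD_zero
    have := (hT a).1
    rwa [ha, map_zero] at this
  let e : (Fin m → ℝ) ≃ₗ[ℝ] LinearMap.range T := LinearEquiv.ofInjective T hinj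
  have he : ∀ a, ((e a : LinearMap.range T) : Fin N₀ → ℝ) = T a := fun a => rfl
  refine ⟨(1 / 70 : ℝ) • (j ∘ₗ e.toLinearMap), (70 : ℝ) • (e.symm.toLinearMap ∘ₗ q), ?_, ?_, ?_⟩
  · intro a
    show (70 : ℝ) • e.symm (q ((1 / 70 : ℝ) • j (e a))) = a
    rw [map_smul, hjq, map_smul, LinearEquiv.symm_apply_apply, smul_smul]
    norm_num
  · intro a
    show N ((1 / 70 : ℝ) • j (e a)) ≤ e2 a
    rw [map_smul_eq_mul, Real.norm_of_nonneg (by norm_num)]
    have h1 : N (j (e a)) ≤ s (T a) := hj (e a)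
    have h2 := (hT a).2
    linarith
  · intro x
    show e2 ((70 : ℝ) • e.symm (q x)) ≤ 70 * C * N x
    rw [NOD_smul 70 (by norm_num)]
    have h1 := (hT (e.symm (q x))).1
    have h2 : T (e.symm (q x)) = ((q x : LinearMap.range T) : Fin N₀ → ℝ) := by
      rw [← he, LinearEquiv.apply_symm_apply]
    have h3 : s ((q x : LinearMap.range T) : Fin N₀ → ℝ) ≤ C * N x := hq x
    rw [h2] at h1
    linarith

end Pool.RG
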