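import Pool.Agent.Work.MP_3e8c7a_g.InterfaceD

/-! # Block SYL: symmetric norms -/

set_option autoImplicit false

namespace Pool.RG

open Module Pool.Agent.MP3e8c7a Pool.Agent.MP3e8c7as

/-- one coordinate -/
theorem SYL_one {M : ℕ} (f : Seminorm ℝ (Fin M → ℝ)) (hf : Sym f) (z : Fin M → ℝ) (a : Fin M) (u : ℝ)
    (hu : |u| ≤ |z a|) : f (Function.update z a u) ≤ f z := by
  obtain ⟨t, ht1, ht2, htu⟩ : ∃ t : ℝ, -1 ≤ t ∧ t ≤ 1 ∧ u = t * z a := by
    by_cases h : z a = 0
    · rw [h, abs_zero] at hu
      refine ⟨0, by norm_num, by norm_num, ?_⟩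
      rw [h]
      have := abs_nonpos_iff.mp hu
      simp [this]
    · have h1 : |u / z a| ≤ 1 := by
        rw [abs_div, div_le_one (abs_pos.mpr h)]
        exact hu
      exact ⟨u / z a, (abs_le.mp h1).1, (abs_le.mp h1).2, by field_simp⟩
  have h1 : Function.update z a u =
      ((1 + t) / 2) • z + ((1 - t) / 2) • (fun i => (if i = a then (-1 : ℝ) else 1) * z i) := by
    funext i
    by_cases h : i = a
    · subst h
      simp [htu]
      ring
    · simp [h]
      ring
  have h2 : f (fun i => (if i = a then (-1 : ℝ) else 1) * z i) = f z := by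
    apply hf.sign z (fun i => if i = a then (-1 : ℝ) else 1)
    intro i
    by_cases h : i = a <;> simp [h]
  rw [h1]
  refine (map_add_le_add f _ _).trans ?_
  rw [map_smul_eq_mul, map_smul_eq_mul, h2, Real.norm_eq_abs, Real.norm_eq_abs,
    abs_of_nonneg (by linarith), abs_of_nonneg (by linarith)]
  linarith

theorem SYL_mono {M : ℕ} (f : Seminorm ℝ (Fin M → ℝ)) (hf : Sym f) (x y : Fin M → ℝ)
    (h : ∀ i, |x i| ≤ |y i|) : f x ≤ f y := by
  have key : ∀ S : Finset (Fin M), f (fun i => if i ∈ S then x i else y i) ≤ f y := by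
    intro S
    induction S using Finset.induction_on with
    | empty => simp
    | insert a S ha ih =>
      have h1 : (fun i => if i ∈ insert a S then x i else y i) =
          Function.update (fun i => if i ∈ S then x i else y i) a (x a) := by
        funext i
        by_cases h : i = a
        · subst h
          simp
        · simp [h]
      rw [h1]
      refine (SYL_one f hf _ a (x a) ?_).trans ih
      simp [ha, h a]
  have := key Finset.univ
  simpa using this

theorem SYL_inj {M : ℕ} (f : Seminorm ℝ (Fin M → ℝ)) (hf : Sym f) (x y : Fin M → ℝ) (A : Finset (Fin M))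
    (g : Fin M → Fin M) (hg : Set.InjOn g A) (hx : ∀ i ∉ A, x i = 0) (h : ∀ i ∈ A, |x i| ≤ |y (g i)|) :
    f x ≤ f y := by
  classical
  let e : {i // i ∈ A} ≃ {i // i ∈ g '' (A : Set (Fin M))} := Equiv.Set.imageOfInjOn g A hg
  have he : ∀ i (hi : i ∈ A), ((e ⟨i, hi⟩ : {i // i ∈ g '' (A : Set (Fin M))}) : Fin M) = g i := fun i hi => rfl
  let π : Equiv.Perm (Fin M) := e.extendSubtype
  have hπ : ∀ i ∈ A, π i = g i := by
    intro i hi
    rw [← he i hi]
    exact Equiv.extendSubtype_apply_of_mem e i hi
  rw [← hf.perm y π]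
  refine SYL_mono f hf _ _ fun i => ?_
  by_cases hi : i ∈ A
  · rw [hπ i hi]
    exact h i hi
  · rw [hx i hi, abs_zero]
    exact abs_nonneg _

theorem SYL_small {M : ℕ} (f : Seminorm ℝ (Fin M → ℝ)) (hf : Sym f) (A B : Finset (Fin M))
    (h : A.card ≤ B.card) : f (ind A) ≤ f (ind B) := by
  classical
  obtain ⟨φ⟩ : Nonempty (A ↪ B) := by
    rw [Function.Embedding.nonempty_iff_card_le]
    simpa using h
  refine SYL_inj f hf _ _ A (fun i => if hi : i ∈ A then (φ ⟨i, hi⟩ : Fin M) else i) ?_ ?_ ?_
  · intro i hi j hj hij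
    have hi' : i ∈ A := hi
    have hj' : j ∈ A := hj
    simp only [hi', hj', dif_pos] at hij
    have h1 := φ.injective (Subtype.ext hij)
    simpa using h1
  · intro i hi
    simp [ind, hi]
  · intro i hi
    have h1 : ((φ ⟨i, hi⟩ : B) : Fin M) ∈ B := (φ ⟨i, hi⟩).2
    simp [ind, hi]

theorem SYL_card {M : ℕ} (f : Seminorm ℝ (Fin M → ℝ)) (hf : Sym f) (B : Finset (Fin M)) (K : ℕ) :
    ∀ A : Finset (Fin M), A.card ≤ K * B.card → f (ind A) ≤ K * f (ind B) := by
  induction K with
  | zero =>
    intro A hA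
    have h1 : A = ∅ := by
      rw [← Finset.card_eq_zero]
      omega
    have h2 : ind A = 0 := by
      funext i
      simp [ind, h1]
    rw [h2, map_zero]
    simp
  | succ K ih =>
    intro A hA
    have hB : 0 ≤ f (ind B) := apply_nonneg _ _
    have hKB : 0 ≤ (K : ℝ) * f (ind B) := by positivity
    push_cast
    rcases le_or_gt A.card B.card with h | h
    · have := SYL_small f hf A B h
      linarith
    · obtain ⟨A', hA', hc⟩ := Finset.exists_subset_card_eq h.le
      have h1 : (A \ A').card ≤ K * B.card := by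
        rw [Finset.card_sdiff_of_subset hA', hc]
        have : (K + 1) * B.card = K * B.card + B.card := by ring
        omega
      have h2 : ind A = ind A' + ind (A \ A') := by
        funext i
        by_cases hi : i ∈ A'
        · simp [ind, hi, hA' hi]
        · by_cases hi2 : i ∈ A <;> simp [ind, hi, hi2]
      have h3 := map_add_le_add f (ind A') (ind (A \ A'))
      rw [← h2] at h3
      have h4 := SYL_small f hf A' B hc.le
      have h5 := ih _ h1
      linarith

theorem p_SYL : Stmt_SYL := fun _ f hf =>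
  ⟨SYL_mono f hf, SYL_inj f hf, fun A B K h => SYL_card f hf B K A h⟩

end Pool.RG
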