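import Pool.Agent.Work.MP_3e8c7a_g.InterfaceD

/-! # Block SYN: symmetric subspaces -/

set_option autoImplicit false

namespace Pool.RG

open Module Pool.Agent.MP3e8c7a Pool.Agent.MP3e8c7as

theorem SYN_e2_nonneg {n : ℕ} (x : Fin n → ℝ) : 0 ≤ e2 x := Real.sqrt_nonneg _

theorem SYN_e2_sq {n : ℕ} (x : Fin n → ℝ) : e2 x ^ 2 = ∑ i, x i ^ 2 :=
  Real.sq_sqrt (Finset.sum_nonneg fun i _ => sq_nonneg (x i))

theorem SYN_abs_le {n : ℕ} (x : Fin n → ℝ) (i : Fin n) : |x i| ≤ e2 x := by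
  apply Real.abs_le_sqrt
  exact Finset.single_le_sum (f := fun i => x i ^ 2) (fun j _ => sq_nonneg (x j)) (Finset.mem_univ i)

theorem SYN_perm {V : Type} [AddCommGroup V] [Module ℝ V] (s : Seminorm ℝ V) {n : ℕ} (M L : ℕ) (v : Fin n → V)
    (x : Fin M → ℝ) (π : Equiv.Perm (Fin M)) : ff s v M L (fun i => x (π i)) = ff s v M L x := by
  rw [ff_apply, ff_apply]
  congr 1
  let e : (Fin n × Fin M × Fin L) ≃ (Fin n × Fin M × Fin L) :=
    Equiv.prodCongr (Equiv.refl _) (Equiv.prodCongr π (Equiv.refl _))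
  refine Fintype.sum_equiv (Equiv.arrowCongr e (Equiv.refl Bool)) _ _ fun ε => ?_
  congr 1
  rw [GG_apply, GG_apply]
  refine Finset.sum_congr rfl fun i _ => ?_
  congr 1
  rw [hh_apply, hh_apply]
  refine Fintype.sum_equiv π _ _ fun j => ?_
  refine Finset.sum_congr rfl fun l _ => ?_
  simp [Equiv.arrowCongr, e]

theorem SYN_sign {V : Type} [AddCommGroup V] [Module ℝ V] (s : Seminorm ℝ V) {n : ℕ} (M L : ℕ) (v : Fin n → V)
    (x σ : Fin M → ℝ) (hσ : ∀ i, σ i = 1 ∨ σ i = -1) :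
    ff s v M L (fun i => σ i * x i) = ff s v M L x := by
  rw [ff_apply, ff_apply]
  congr 1
  have hinv : Function.Involutive (fun (ε : Fin n × Fin M × Fin L → Bool) (t : Fin n × Fin M × Fin L) =>
      if σ t.2.1 = 1 then ε t else !(ε t)) := by
    intro ε
    funext t
    by_cases h : σ t.2.1 = 1 <;> simp [h]
  refine Fintype.sum_equiv (Function.Involutive.toPerm _ hinv) _ _ fun ε => ?_
  congr 1
  rw [GG_apply, GG_apply]
  refine Finset.sum_congr rfl fun i _ => ?_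
  congr 1
  rw [hh_apply, hh_apply]
  refine Finset.sum_congr rfl fun j _ => ?_
  refine Finset.sum_congr rfl fun l _ => ?_
  rw [Function.Involutive.coe_toPerm]
  rcases hσ j with h | h
  · simp [h]
  · have h1 : ¬ ((-1 : ℝ) = 1) := by norm_num
    simp only [h, h1, if_false]
    cases ε (i, j, l) <;> simp [sgn]

/-- One choice of the signs is good for all points of the net. -/
theorem SYN_exists {V : Type} [AddCommGroup V] [Module ℝ V] (s : Seminorm ℝ V) {n : ℕ} (M L : ℕ) (v : Fin n → V)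
    (hvar : ∀ x : Fin M → ℝ, ∑ ε : Fin n × Fin M × Fin L → Bool, (s (GG v ε x) - ff s v M L x) ^ 2 ≤
      2 ^ (n * (M * L)) * (2 * L * ∑ j, x j ^ 2))
    (hmean : ∀ x : Fin M → ℝ, (L : ℝ) / 4 * e2 x ≤ ff s v M L x) (T : Finset (Fin M → ℝ)) (ν : ℕ)
    (hT : T.card ≤ ν) (hL : 2048 * ν < L) :
    ∃ ε : Fin n × Fin M × Fin L → Bool, ∀ y ∈ T, |s (GG v ε y) - ff s v M L y| ≤ ff s v M L y / 8 := by
  by_contra hcon
  push Not at hcon
  have hLpos : (0 : ℝ) < L := by
    have : 0 < L := by omega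
    exact_mod_cast this
  have hcard : ∑ _ε : Fin n × Fin M × Fin L → Bool, (1 : ℝ) = 2 ^ (n * (M * L)) := by
    simp
  obtain ⟨w, hw⟩ : ∃ w : (Fin n × Fin M × Fin L → Bool) → (Fin M → ℝ) → ℝ,
      ∀ ε y, w ε y = (s (GG v ε y) - ff s v M L y) ^ 2 * (64 / (ff s v M L y) ^ 2) := ⟨_, fun _ _ => rfl⟩
  have hw0 : ∀ ε y, 0 ≤ w ε y := fun ε y => by rw [hw]; positivity
  have h1 : ∀ ε, 1 ≤ ∑ y ∈ T, w ε y := by
    intro ε
    obtain ⟨y, hy, hlt⟩ := hcon ε
    refine le_trans ?_ (Finset.single_le_sum (f := fun y => w ε y) (fun y _ => hw0 ε y) hy)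
    have hf : 0 < ff s v M L y := by
      rcases (apply_nonneg (ff s v M L) y).lt_or_eq with h | h
      · exact h
      · exfalso
        have h2 := hmean y
        rw [← h] at h2
        have h3 : e2 y ≤ 0 := by
          by_contra h4
          push Not at h4
          have : 0 < (L : ℝ) / 4 * e2 y := by positivity
          linarith
        have h4 : y = 0 := by
          funext i
          have h5 := SYN_abs_le y i
          have h6 : |y i| ≤ 0 := h5.trans h3
          simpa using h6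
        rw [h4, map_zero, map_zero, map_zero] at hlt
        simp at hlt
    have h3 : (ff s v M L y / 8) ^ 2 ≤ (s (GG v ε y) - ff s v M L y) ^ 2 := by
      rw [← sq_abs (s (GG v ε y) - ff s v M L y)]
      exact pow_le_pow_left₀ (by positivity) hlt.le 2
    show 1 ≤ w ε y
    rw [hw]
    have h5 : (1 : ℝ) = (ff s v M L y / 8) ^ 2 * (64 / (ff s v M L y) ^ 2) := by
      field_simp
      norm_num
    rw [h5]
    exact mul_le_mul_of_nonneg_right h3 (by positivity)
  have h2 : ∀ y, ∑ ε, w ε y ≤ 2 ^ (n * (M * L)) * (2048 / L) := by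
    intro y
    have h3 : ∑ ε, w ε y = (∑ ε : Fin n × Fin M × Fin L → Bool, (s (GG v ε y) - ff s v M L y) ^ 2) *
        (64 / (ff s v M L y) ^ 2) := by
      rw [Finset.sum_mul]
      exact Finset.sum_congr rfl fun ε _ => hw ε y
    rw [h3]
    have hf0 : 0 ≤ ff s v M L y := apply_nonneg _ _
    rcases hf0.lt_or_eq with hf | hf
    · have h4 := mul_le_mul_of_nonneg_right (hvar y) (by positivity : (0 : ℝ) ≤ 64 / (ff s v M L y) ^ 2)
      refine h4.trans ?_
      rw [mul_assoc]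
      refine mul_le_mul_of_nonneg_left ?_ (by positivity)
      have h5 : ((L : ℝ) / 4 * e2 y) ^ 2 ≤ (ff s v M L y) ^ 2 :=
        pow_le_pow_left₀ (by have := SYN_e2_nonneg y; positivity) (hmean y) 2
      rw [mul_pow, SYN_e2_sq] at h5
      rw [← mul_div_assoc, div_le_div_iff₀ (by positivity) hLpos]
      nlinarith [h5]
    · rw [← hf]
      simp
      positivity
  have h3 : (2 : ℝ) ^ (n * (M * L)) ≤ ∑ y ∈ T, ∑ ε, w ε y := by
    rw [← hcard, Finset.sum_comm]
    exact Finset.sum_le_sum fun ε _ => h1 ε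
  have h4 : ∑ y ∈ T, ∑ ε, w ε y ≤ (ν : ℝ) * (2 ^ (n * (M * L)) * (2048 / L)) := by
    refine (Finset.sum_le_sum fun y _ => h2 y).trans ?_
    rw [Finset.sum_const, nsmul_eq_mul]
    have : (T.card : ℝ) ≤ ν := by exact_mod_cast hT
    exact mul_le_mul_of_nonneg_right this (by positivity)
  have h5 : (2 : ℝ) ^ (n * (M * L)) ≤ 2 ^ (n * (M * L)) * (ν * (2048 / L)) := by
    have := h3.trans h4
    linarith [this]
  have h6 : (ν : ℝ) * (2048 / L) < 1 := by
    rw [← mul_div_assoc, div_lt_one hLpos]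
    have : ((2048 * ν : ℕ) : ℝ) < L := by exact_mod_cast hL
    push_cast at this
    linarith
  have h7 : (2 : ℝ) ^ (n * (M * L)) * (ν * (2048 / L)) < 2 ^ (n * (M * L)) := by
    have : (0 : ℝ) < 2 ^ (n * (M * L)) := by positivity
    nlinarith
  linarith

/-- From a net to the whole space. -/
theorem SYN_net {V : Type} [AddCommGroup V] [Module ℝ V] (s : Seminorm ℝ V) {M : ℕ} (f : Seminorm ℝ (Fin M → ℝ))
    (hf : Def f) (G₀ : (Fin M → ℝ) →ₗ[ℝ] V) (C₁ : ℝ) (hC₁ : ∀ x, s (G₀ x) ≤ C₁ * f x) (T : Finset (Fin M → ℝ))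
    (hT : ∀ x, f x ≤ 1 → ∃ y ∈ T, f (x - y) ≤ 1 / 4) (hG : ∀ y ∈ T, |s (G₀ y) - f y| ≤ f y / 8) :
    ∀ x, 3 / 16 * f x ≤ s (G₀ x) ∧ s (G₀ x) ≤ 15 / 8 * f x := by
  -- homogeneity
  have hscale : ∀ x, 0 < f x → f ((f x)⁻¹ • x) = 1 ∧ s (G₀ x) = f x * s (G₀ ((f x)⁻¹ • x)) := by
    intro x hx
    constructor
    · rw [map_smul_eq_mul, Real.norm_eq_abs, abs_of_pos (by positivity), inv_mul_cancel₀ hx.ne']
    · rw [map_smul, map_smul_eq_mul, Real.norm_eq_abs, abs_of_pos (by positivity), ← mul_assoc,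
        mul_inv_cancel₀ hx.ne', one_mul]
  have hzero : ∀ x, ¬ 0 < f x → x = 0 := by
    intro x hx
    exact hf x (le_antisymm (not_lt.mp hx) (apply_nonneg f x))
  obtain ⟨S, hS⟩ : ∃ S : Set ℝ, S = {C : ℝ | 0 ≤ C ∧ ∀ x, s (G₀ x) ≤ C * f x} := ⟨_, rfl⟩
  have hne : S.Nonempty := by
    refine ⟨|C₁|, ?_⟩
    rw [hS]
    exact ⟨abs_nonneg _, fun x => (hC₁ x).trans (mul_le_mul_of_nonneg_right (le_abs_self _) (apply_nonneg f x))⟩
  have hbdd : BddBelow S := ⟨0, fun C hC => by rw [hS] at hC; exact hC.1⟩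
  have hstep : ∀ C ∈ S, 45 / 32 + C / 4 ∈ S := by
    intro C hC
    rw [hS] at hC ⊢
    obtain ⟨hC0, hC⟩ := hC
    refine ⟨by positivity, fun x => ?_⟩
    by_cases hx : 0 < f x
    · obtain ⟨h1, h2⟩ := hscale x hx
      obtain ⟨y, hy, hxy⟩ := hT _ h1.le
      have h3 := (abs_le.mp (hG y hy)).2
      have h4 := hC ((f x)⁻¹ • x - y)
      have h5 : f y ≤ f ((f x)⁻¹ • x) + f ((f x)⁻¹ • x - y) := by
        have := map_sub_le_add f ((f x)⁻¹ • x) ((f x)⁻¹ • x - y)
        rwa [sub_sub_cancel] at this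
      have h6 : s (G₀ ((f x)⁻¹ • x)) ≤ s (G₀ y) + s (G₀ ((f x)⁻¹ • x - y)) := by
        have := map_add_le_add s (G₀ y) (G₀ ((f x)⁻¹ • x - y))
        rwa [← map_add, add_sub_cancel] at this
      have h7 : C * f ((f x)⁻¹ • x - y) ≤ C * (1 / 4) := mul_le_mul_of_nonneg_left hxy hC0
      rw [h2]
      have h8 : s (G₀ ((f x)⁻¹ • x)) ≤ 45 / 32 + C / 4 := by linarith
      rw [mul_comm]
      exact mul_le_mul_of_nonneg_right h8 hx.le
    · rw [hzero x hx]
      simp
  have hC0 : sInf S ≤ 15 / 8 := by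
    have h1 : 4 * (sInf S - 45 / 32) ≤ sInf S := by
      refine le_csInf hne fun C hC => ?_
      have := csInf_le hbdd (hstep C hC)
      linarith
    linarith
  have hup : ∀ x, s (G₀ x) ≤ 15 / 8 * f x := by
    intro x
    by_cases hx : 0 < f x
    · have h1 : s (G₀ x) / f x ≤ sInf S := by
        refine le_csInf hne fun C hC => ?_
        rw [hS] at hC
        rw [div_le_iff₀ hx]
        exact hC.2 x
      have h2 := h1.trans hC0
      rwa [div_le_iff₀ hx] at h2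
    · rw [hzero x hx]
      simp
  intro x
  refine ⟨?_, hup x⟩
  by_cases hx : 0 < f x
  · obtain ⟨h1, h2⟩ := hscale x hx
    obtain ⟨y, hy, hxy⟩ := hT _ h1.le
    have h3 := (abs_le.mp (hG y hy)).1
    have h4 := hup ((f x)⁻¹ • x - y)
    have h5 : f ((f x)⁻¹ • x) ≤ f y + f ((f x)⁻¹ • x - y) := by
      have := map_add_le_add f y ((f x)⁻¹ • x - y)
      rwa [add_sub_cancel] at this
    have h6 : s (G₀ y) ≤ s (G₀ ((f x)⁻¹ • x)) + s (G₀ ((f x)⁻¹ • x - y)) := by
      have := map_sub_le_add s (G₀ ((f x)⁻¹ • x)) (G₀ ((f x)⁻¹ • x - y))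
      rwa [← map_sub, sub_sub_cancel] at this
    rw [h2, mul_comm]
    refine mul_le_mul_of_nonneg_left ?_ hx.le
    linarith
  · rw [hzero x hx]
    simp

theorem p_SYN (hDRO : Stmt_DRO) (hVRN : Stmt_VRN) (hMEN : Stmt_MEN) : Stmt_SYN := by
  intro M
  obtain ⟨ν, hν⟩ := net M
  obtain ⟨L, hL⟩ : ∃ L : ℕ, L = 2048 * ν + 1 := ⟨_, rfl⟩
  refine ⟨3 * 2 ^ (M * L) + 1, ?_⟩
  intro V _ _ _ s hs hdim
  obtain ⟨v, hv1, hv2⟩ := hDRO (2 ^ (M * L)) V s hs hdim
  have hvar := hVRN V s (2 ^ (M * L)) M L v hv2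
  have hmean := hMEN V s (2 ^ (M * L)) M L v hv1 le_rfl
  have hLpos : (0 : ℝ) < L := by
    have : 0 < L := by omega
    exact_mod_cast this
  have hdef : Def (ff s v M L) := by
    intro x hx
    have h2 := hmean x
    rw [hx] at h2
    have h3 : e2 x ≤ 0 := by
      by_contra h4
      push Not at h4
      have : 0 < (L : ℝ) / 4 * e2 x := by positivity
      linarith
    funext i
    have h6 : |x i| ≤ 0 := (SYN_abs_le x i).trans h3
    simpa using h6
  have hsym : Sym (ff s v M L) := ⟨hdef, fun x π => SYN_perm s M L v x π, fun x σ hσ => SYN_sign s M L v x σ hσ⟩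
  obtain ⟨T, hTc, hT⟩ := hν (Fin M → ℝ) (ff s v M L) hdef (by simp)
  obtain ⟨ε, hε⟩ := SYN_exists s M L v hvar hmean T ν hTc (by omega)
  have hbound : ∀ x, s (GG v ε x) ≤ ((∑ i, s (GG v ε (Pi.single i 1))) * (4 / L)) * ff s v M L x := by
    intro x
    have h1 : GG v ε x = ∑ i, x i • GG v ε (Pi.single i 1) := by
      conv_lhs => rw [pi_eq_sum_univ' x]
      rw [map_sum]
      refine Finset.sum_congr rfl fun i _ => ?_
      rw [map_smul]
    have h2 : s (GG v ε x) ≤ ∑ i, |x i| * s (GG v ε (Pi.single i 1)) := by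
      rw [h1]
      refine (Finset.le_sum_of_subadditive s (map_zero s).le (fun a b => map_add_le_add s a b) _ _).trans ?_
      refine Finset.sum_le_sum fun i _ => ?_
      rw [map_smul_eq_mul, Real.norm_eq_abs]
    have h3 : e2 x ≤ 4 / L * ff s v M L x := by
      have := hmean x
      rw [div_mul_eq_mul_div, le_div_iff₀ hLpos]
      linarith
    refine h2.trans ?_
    rw [mul_assoc, Finset.sum_mul]
    refine Finset.sum_le_sum fun i _ => ?_
    rw [mul_comm]
    exact mul_le_mul_of_nonneg_left ((SYN_abs_le x i).trans h3) (apply_nonneg s _)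
  have hfin := SYN_net s (ff s v M L) hdef (GG v ε) _ hbound T hT hε
  refine ⟨ff s v M L, (16 / 3 : ℝ) • GG v ε, hsym, fun x => ?_⟩
  obtain ⟨h1, h2⟩ := hfin x
  rw [LinearMap.smul_apply, map_smul_eq_mul, Real.norm_eq_abs, abs_of_pos (by norm_num)]
  constructor <;> linarith

end Pool.RG
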