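import Pool.Agent.Work.MP_3e8c7a_g.Interface

/-!
# Block TL1: the first finite rank tilt
-/

set_option autoImplicit false

namespace Pool.RG

open Module Pool.Agent.MP3e8c7a Pool.Agent.MP3e8c7as

theorem TL1_c1_nonneg (m : ℕ) : 0 ≤ c1 m := by
  unfold c1
  positivity

theorem TL1_sum_le {V : Type} [AddCommGroup V] [Module ℝ V] (p : Seminorm ℝ V) {m : ℕ}
    (x : Fin m → V) (B : ℝ) (h : ∀ l, p (x l) ≤ B) : p (∑ l, x l) ≤ m * B := by
  have h1 : p (∑ l, x l) ≤ ∑ l, p (x l) := by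
    refine Finset.le_sum_of_subadditive p (map_zero p).le (map_add_le_add p) _ _
  refine h1.trans ((Finset.sum_le_sum fun l _ => h l).trans ?_)
  rw [Finset.sum_const, Finset.card_univ, Fintype.card_fin, nsmul_eq_mul]

theorem TL1_single {m : ℕ} (l : Fin m) : ‖(Pi.single l 1 : Fin m → ℝ)‖ ≤ 1 := by
  rw [pi_norm_le_iff_of_nonneg zero_le_one]
  intro j
  rcases eq_or_ne j l with rfl | h
  · simp
  · simp [h]

theorem TL1_core (m : ℕ) (A C₁ : ℝ) (hm : 1 ≤ m) (hA : 1 ≤ A) (hC : 1 ≤ C₁) (κ B : ℝ)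
    (hκd : κ = 1 / (2 * m * ((1 + C₁) * A))) (hB : B = κ⁻¹ * (m * (c1 m + κ * A)) + 1)
    (V : Type) [AddCommGroup V] [Module ℝ V] [FiniteDimensional ℝ V] (k : ℕ) (p : Seminorm ℝ V)
    (i : (Fin k → ℝ) →ₗ[ℝ] V) (φ : V →ₗ[ℝ] (Fin k → ℝ)) (β : V →ₗ[ℝ] (Fin m → ℝ))
    (Y : (Fin m → ℝ) →ₗ[ℝ] V) (hp : Def p)
    (hφi : ∀ a, φ (i a) = a) (hproj : ∀ x, p (i (φ x)) ≤ C₁ * p x) (hβY : ∀ t, β (Y t) = t)
    (hY : ∀ t, p (Y t) ≤ A * ‖t‖) (hk : m + m * (m + 1) ≤ k) :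
    ∃ (i₁ : (Fin k → ℝ) →ₗ[ℝ] V) (ξ : (Fin m → ℝ) →ₗ[ℝ] (Fin k → ℝ)), (∀ a, φ (i₁ a) = a) ∧
      (∀ z, p (i z) ≤ 2 * p (i₁ z) ∧ p (i₁ z) ≤ 3 / 2 * p (i z)) ∧ (∀ t, β (i₁ (ξ t)) = t) ∧
      ∀ t, p (i₁ (ξ t)) ≤ B * ‖t‖ := by
  have hm0 : (0 : ℝ) < (m : ℝ) := by exact_mod_cast hm
  have hA0 : 0 < A := by linarith
  have hC0 : 0 < 1 + C₁ := by linarith
  have hκ0 : 0 < κ := by rw [hκd]; positivity
  have hκm : m * (κ * ((1 + C₁) * A)) = 1 / 2 := by
    rw [hκd]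
    field_simp
  have hinj : Function.Injective i := by
    intro a b hab
    have := congrArg φ hab
    rwa [hφi, hφi] at this
  obtain ⟨y, hy⟩ : ∃ y : Fin m → V, y = fun l => Y (Pi.single l 1) := ⟨_, rfl⟩
  have hyp : ∀ l, p (y l) ≤ A := by
    intro l
    have h1 := hY (Pi.single l 1)
    have h2 := mul_le_mul_of_nonneg_left (TL1_single l) hA0.le
    rw [hy]
    show p (Y (Pi.single l 1)) ≤ A
    linarith
  have hyd : ∀ l, p (y l - i (φ (y l))) ≤ (1 + C₁) * A := by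
    intro l
    have h1 := map_sub_le_add p (y l) (i (φ (y l)))
    have h2 := hproj (y l)
    have h3 := mul_le_mul_of_nonneg_left (hyp l) hC0.le
    linarith
  -- the biorthogonal system
  have hG : finrank ℝ (Submodule.span ℝ (Set.range fun l => φ (y l))) ≤ m := by
    have h := finrank_range_le_card (R := ℝ) (fun l => φ (y l))
    rw [Fintype.card_fin] at h
    exact h
  have hZ : m * (m + 1) ≤ finrank ℝ (LinearMap.ker (β ∘ₗ i)) := by
    have h1 := LinearMap.finrank_range_add_finrank_ker (β ∘ₗ i)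
    have h2 := Submodule.finrank_le (LinearMap.range (β ∘ₗ i))
    rw [Module.finrank_fin_fun] at h1 h2
    omega
  obtain ⟨ζ, η, hζ, hη, hηG, hηζ⟩ := bio m (Fin k → ℝ) (p.comp i) (hp.comp i hinj) _ _ hG hZ
  have hζβ : ∀ l, β (i (ζ l)) = 0 := fun l => (hζ l).1
  have hζp : ∀ l, p (i (ζ l)) ≤ c1 m := fun l => (hζ l).2
  have hηp : ∀ j z, |η j z| ≤ p (i z) := fun j z => hη j z
  have hηy : ∀ j l, η j (φ (y l)) = 0 := fun j l =>
    hηG j _ (Submodule.subset_span ⟨l, rfl⟩)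
  -- the tilt
  set Ψ : (Fin k → ℝ) →ₗ[ℝ] V := ∑ j, (η j).smulRight (κ • (y j - i (φ (y j)))) with hΨ
  have hΨa : ∀ z, Ψ z = ∑ j, η j z • (κ • (y j - i (φ (y j)))) := by
    intro z
    rw [hΨ, LinearMap.sum_apply]
    rfl
  have hΨp : ∀ z, p (Ψ z) ≤ 1 / 2 * p (i z) := by
    intro z
    rw [hΨa]
    refine (TL1_sum_le p _ (p (i z) * (κ * ((1 + C₁) * A))) ?_).trans ?_
    · intro j
      rw [map_smul_eq_mul, map_smul_eq_mul, Real.norm_eq_abs, Real.norm_eq_abs, abs_of_pos hκ0]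
      exact mul_le_mul (hηp j z) (mul_le_mul_of_nonneg_left (hyd j) hκ0.le)
        (mul_nonneg hκ0.le (apply_nonneg p _)) (apply_nonneg p _)
    · have h : (m : ℝ) * (p (i z) * (κ * ((1 + C₁) * A))) =
          m * (κ * ((1 + C₁) * A)) * p (i z) := by ring
      rw [h, hκm]
  have hφΨ : ∀ z, φ (Ψ z) = 0 := by
    intro z
    rw [hΨa, map_sum]
    refine Finset.sum_eq_zero fun l _ => ?_
    rw [map_smul, map_smul, map_sub, hφi, sub_self, smul_zero, smul_zero]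
  have hΨy : ∀ l, Ψ (φ (y l)) = 0 := by
    intro l
    rw [hΨa]
    refine Finset.sum_eq_zero fun j _ => ?_
    rw [hηy, zero_smul]
  have hΨζ : ∀ l, Ψ (ζ l) = κ • (y l - i (φ (y l))) := by
    intro l
    rw [hΨa, Finset.sum_eq_single l]
    · rw [hηζ, if_pos rfl, one_smul]
    · intro j _ hne
      rw [hηζ, if_neg hne, zero_smul]
    · intro hn
      exact absurd (Finset.mem_univ l) hn
  set i₁ : (Fin k → ℝ) →ₗ[ℝ] V := i + Ψ with hi₁
  have hi₁a : ∀ z, i₁ z = i z + Ψ z := fun z => rfl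
  have hζ' : ∀ l, i₁ (ζ l + κ • φ (y l)) = i (ζ l) + κ • y l := by
    intro l
    rw [hi₁a, map_add, map_add, map_smul, map_smul, hΨy, hΨζ, smul_zero, smul_sub]
    abel
  set ξ : (Fin m → ℝ) →ₗ[ℝ] (Fin k → ℝ) :=
    ∑ l, (LinearMap.proj l : (Fin m → ℝ) →ₗ[ℝ] ℝ).smulRight (κ⁻¹ • (ζ l + κ • φ (y l))) with hξ
  have hξa : ∀ t, ξ t = ∑ l, t l • (κ⁻¹ • (ζ l + κ • φ (y l))) := by
    intro t
    rw [hξ, LinearMap.sum_apply]
    rfl
  have hiξ : ∀ t, i₁ (ξ t) = ∑ l, t l • (κ⁻¹ • (i (ζ l) + κ • y l)) := by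
    intro t
    rw [hξa, map_sum]
    refine Finset.sum_congr rfl fun l _ => ?_
    rw [map_smul, map_smul, hζ']
  refine ⟨i₁, ξ, ?_, ?_, ?_, ?_⟩
  · intro a
    rw [hi₁a, map_add, hφi, hφΨ, add_zero]
  · intro z
    constructor
    · have h0 : i z = i₁ z - Ψ z := by rw [hi₁a]; abel
      have h1 := map_sub_le_add p (i₁ z) (Ψ z)
      rw [← h0] at h1
      have h2 := hΨp z
      linarith
    · rw [hi₁a]
      have h1 := map_add_le_add p (i z) (Ψ z)
      have h2 := hΨp z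
      linarith
  · intro t
    rw [hiξ, map_sum]
    have h1 : ∀ l, β (t l • (κ⁻¹ • (i (ζ l) + κ • y l))) = t l • (Pi.single l 1 : Fin m → ℝ) := by
      intro l
      rw [map_smul, map_smul, map_add, map_smul, hζβ, zero_add, smul_smul κ⁻¹ κ,
        inv_mul_cancel₀ hκ0.ne', one_smul, hy]
      show t l • β (Y (Pi.single l 1)) = _
      rw [hβY]
    rw [Finset.sum_congr rfl fun l _ => h1 l]
    funext j
    rw [Finset.sum_apply, Finset.sum_eq_single j]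
    · simp
    · intro l _ hne
      rw [Pi.smul_apply, Pi.single_eq_of_ne (Ne.symm hne), smul_zero]
    · intro hn
      exact absurd (Finset.mem_univ j) hn
  · intro t
    rw [hiξ]
    have h0 : ∀ l, p (t l • (κ⁻¹ • (i (ζ l) + κ • y l))) ≤ ‖t‖ * (κ⁻¹ * (c1 m + κ * A)) := by
      intro l
      rw [map_smul_eq_mul, map_smul_eq_mul, Real.norm_eq_abs, Real.norm_eq_abs,
        abs_of_pos (inv_pos.2 hκ0)]
      have h1 := map_add_le_add p (i (ζ l)) (κ • y l)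
      rw [map_smul_eq_mul, Real.norm_eq_abs, abs_of_pos hκ0] at h1
      have h2 := mul_le_mul_of_nonneg_left (hyp l) hκ0.le
      have h3 : p (i (ζ l) + κ • y l) ≤ c1 m + κ * A := by
        have := hζp l
        linarith
      have h4 : |t l| ≤ ‖t‖ := by
        have := norm_le_pi_norm t l
        rwa [Real.norm_eq_abs] at this
      exact mul_le_mul h4 (mul_le_mul_of_nonneg_left h3 (inv_pos.2 hκ0).le)
        (mul_nonneg (inv_pos.2 hκ0).le (apply_nonneg p _)) (norm_nonneg t)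
    refine (TL1_sum_le p _ _ h0).trans ?_
    rw [hB]
    have h5 := norm_nonneg t
    have h6 : (m : ℝ) * (‖t‖ * (κ⁻¹ * (c1 m + κ * A))) =
        κ⁻¹ * (m * (c1 m + κ * A)) * ‖t‖ := by ring
    rw [h6]
    nlinarith

/-- Block TL1. -/
theorem p_TL1 : Stmt_TL1 := by
  intro m A C₁ hA hC
  rcases Nat.eq_zero_or_pos m with rfl | hm
  · refine ⟨1, one_pos, ?_⟩
    intro V _ _ _ k p i φ β Y hp hφi hproj hβY hY hk
    refine ⟨i, 0, hφi, ?_, ?_, ?_⟩
    · intro z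
      have := apply_nonneg p (i z)
      constructor <;> linarith
    · intro t
      exact Subsingleton.elim _ _
    · intro t
      rw [LinearMap.zero_apply, map_zero, map_zero]
      have := norm_nonneg t
      linarith
  · have hm0 : (0 : ℝ) < (m : ℝ) := by exact_mod_cast hm
    have hA0 : 0 < A := by linarith
    have hC0 : 0 < 1 + C₁ := by linarith
    have hκ0 : (0 : ℝ) < 1 / (2 * m * ((1 + C₁) * A)) := by positivity
    refine ⟨(1 / (2 * m * ((1 + C₁) * A)))⁻¹ *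
      (m * (c1 m + 1 / (2 * m * ((1 + C₁) * A)) * A)) + 1, ?_, ?_⟩
    · have := TL1_c1_nonneg m
      positivity
    · intro V _ _ _ k p i φ β Y hp hφi hproj hβY hY hk
      exact TL1_core m A C₁ hm hA hC _ _ rfl rfl V k p i φ β Y hp hφi hproj hβY hY hk

end Pool.RG
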