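import Pool.Agent.Work.MP_3e8c7a_g.Interface

/-! # Block TL2: the second tilt -/

set_option autoImplicit false

namespace Pool.RG

open Module Pool.Agent.MP3e8c7a Pool.Agent.MP3e8c7as

theorem TL2_sum_le {V : Type} [AddCommGroup V] [Module ℝ V] (p : Seminorm ℝ V) {m : ℕ}
    (x : Fin m → V) (B : ℝ) (h : ∀ l, p (x l) ≤ B) : p (∑ l, x l) ≤ m * B := by
  have h1 : p (∑ l, x l) ≤ ∑ l, p (x l) := by
    refine Finset.le_sum_of_subadditive p (map_zero p).le (map_add_le_add p) _ _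
  refine h1.trans ((Finset.sum_le_sum fun l _ => h l).trans ?_)
  rw [Finset.sum_const, Finset.card_univ, Fintype.card_fin, nsmul_eq_mul]

/-- The kernel of finitely many functionals. -/
theorem TL2_dim {V E : Type} [AddCommGroup V] [Module ℝ V] [FiniteDimensional ℝ V]
    [AddCommGroup E] [Module ℝ E] [FiniteDimensional ℝ E] {k m : ℕ}
    (φ : V →ₗ[ℝ] (Fin k → ℝ)) (ψ : Fin m → (V →ₗ[ℝ] ℝ)) (β : V →ₗ[ℝ] E) :
    finrank ℝ V ≤ finrank ℝ (LinearMap.ker (φ.prod ((LinearMap.pi ψ).prod β))) +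
      (k + (m + finrank ℝ E)) := by
  have h1 := LinearMap.finrank_range_add_finrank_ker (φ.prod ((LinearMap.pi ψ).prod β))
  have h2 := Submodule.finrank_le (LinearMap.range (φ.prod ((LinearMap.pi ψ).prod β)))
  rw [Module.finrank_prod, Module.finrank_prod, Module.finrank_fin_fun,
    Module.finrank_fin_fun] at h2
  omega

theorem p_TL2 : Stmt_TL2 := by
  intro V E _ _ _ _ _ _ k m p i φ β hp hφi hdim g ψ hψ
  rcases Nat.eq_zero_or_pos m with rfl | hm
  · refine ⟨i, hφi, fun z => ?_, fun z => rfl, fun a j => j.elim0⟩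
    have := apply_nonneg p (i z)
    constructor <;> linarith
  have hm0 : (0 : ℝ) < (m : ℝ) := by exact_mod_cast hm
  have hc1 : 0 < c1 m := by
    unfold c1
    positivity
  -- the biorthogonal system
  have hG : finrank ℝ (Submodule.span ℝ (Set.range fun l => g l - i (φ (g l)))) ≤ m := by
    have h := finrank_range_le_card (R := ℝ) (fun l => g l - i (φ (g l)))
    rw [Fintype.card_fin] at h
    exact h
  have hZ : m * (m + 1) ≤ finrank ℝ (LinearMap.ker (φ.prod ((LinearMap.pi ψ).prod β))) := by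
    have h := TL2_dim φ ψ β
    omega
  obtain ⟨ω, χ, hω, hχ, hχG, hχω⟩ := bio m V p hp _ _ hG hZ
  have hmem : ∀ l, (φ (ω l), ((fun j => ψ j (ω l)), β (ω l))) =
      ((0 : Fin k → ℝ), ((0 : Fin m → ℝ), (0 : E))) := by
    intro l
    have h := (hω l).1
    rw [LinearMap.mem_ker] at h
    exact h
  have hωφ : ∀ l, φ (ω l) = 0 := fun l => congrArg Prod.fst (hmem l)
  have hωψ : ∀ l j, ψ j (ω l) = 0 := fun l j =>
    congrFun (congrArg (fun x => x.2.1) (hmem l)) j
  have hωβ : ∀ l, β (ω l) = 0 := fun l => congrArg (fun x => x.2.2) (hmem l)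
  obtain ⟨ε, hε⟩ : ∃ ε : ℝ, ε = 1 / (2 * m * c1 m) := ⟨_, rfl⟩
  have hε0 : 0 < ε := by rw [hε]; positivity
  have hεm : m * (ε * c1 m) = 1 / 2 := by
    rw [hε]
    field_simp
  have hεi : ε⁻¹ = 2 * m * c1 m := by
    rw [hε, one_div, inv_inv]
  -- the tilt
  set Ψ : (Fin k → ℝ) →ₗ[ℝ] V := ∑ l, (ψ l ∘ₗ i).smulRight (-(ε • ω l)) with hΨ
  have hΨa : ∀ z, Ψ z = ∑ l, ψ l (i z) • -(ε • ω l) := by
    intro z
    rw [hΨ, LinearMap.sum_apply]
    rfl
  have hΨp : ∀ z, p (Ψ z) ≤ 1 / 2 * p (i z) := by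
    intro z
    rw [hΨa]
    refine (TL2_sum_le p _ (p (i z) * (ε * c1 m)) ?_).trans ?_
    · intro l
      rw [map_smul_eq_mul, map_neg_eq_map, map_smul_eq_mul, Real.norm_eq_abs, Real.norm_eq_abs,
        abs_of_pos hε0]
      exact mul_le_mul (hψ l (i z)) (mul_le_mul_of_nonneg_left (hω l).2 hε0.le)
        (mul_nonneg hε0.le (apply_nonneg p _)) (apply_nonneg p _)
    · have h : (m : ℝ) * (p (i z) * (ε * c1 m)) = m * (ε * c1 m) * p (i z) := by ring
      rw [h, hεm]
  have hφΨ : ∀ z, φ (Ψ z) = 0 := by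
    intro z
    rw [hΨa, map_sum]
    refine Finset.sum_eq_zero fun l _ => ?_
    rw [map_smul, map_neg, map_smul, hωφ, smul_zero, neg_zero, smul_zero]
  have hβΨ : ∀ z, β (Ψ z) = 0 := by
    intro z
    rw [hΨa, map_sum]
    refine Finset.sum_eq_zero fun l _ => ?_
    rw [map_smul, map_neg, map_smul, hωβ, smul_zero, neg_zero, smul_zero]
  set i' : (Fin k → ℝ) →ₗ[ℝ] V := i + Ψ with hi'
  have hi'a : ∀ z, i' z = i z + Ψ z := fun z => rfl
  have hφi' : ∀ a, φ (i' a) = a := by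
    intro a
    rw [hi'a, map_add, hφi, hφΨ, add_zero]
  have hup : ∀ z, p (i' z) ≤ 3 / 2 * p (i z) := by
    intro z
    rw [hi'a]
    have h1 := map_add_le_add p (i z) (Ψ z)
    have h2 := hΨp z
    linarith
  have hlow : ∀ z, p (i z) ≤ 2 * p (i' z) := by
    intro z
    have h0 : i z = i' z - Ψ z := by rw [hi'a]; abel
    have h1 := map_sub_le_add p (i' z) (Ψ z)
    rw [← h0] at h1
    have h2 := hΨp z
    linarith
  refine ⟨i', hφi', fun z => ⟨hlow z, hup z⟩, fun z => ?_, fun a j => ?_⟩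
  · rw [hi'a, map_add, hβΨ, add_zero]
  · set y : V := ∑ l, a l • g l with hy
    have hyG : y - i (φ y) ∈ Submodule.span ℝ (Set.range fun l => g l - i (φ (g l))) := by
      have h1 : y - i (φ y) = ∑ l, a l • (g l - i (φ (g l))) := by
        rw [hy, map_sum, map_sum, ← Finset.sum_sub_distrib]
        refine Finset.sum_congr rfl fun l _ => ?_
        rw [map_smul, map_smul, smul_sub]
      rw [h1]
      exact Submodule.sum_mem _ fun l _ => Submodule.smul_mem _ _ (Submodule.subset_span ⟨l, rfl⟩)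
    have h2 : y - i' (φ y) = (y - i (φ y)) - Ψ (φ y) := by
      rw [hi'a]
      abel
    have h3 : ψ j (Ψ (φ y)) = 0 := by
      rw [hΨa, map_sum]
      refine Finset.sum_eq_zero fun l _ => ?_
      rw [map_smul, map_neg, map_smul, hωψ, smul_zero, neg_zero, smul_zero]
    have h4 : χ j (Ψ (φ y)) = -(ε * ψ j (i (φ y))) := by
      rw [hΨa, map_sum, Finset.sum_eq_single j]
      · rw [map_smul, map_neg, map_smul, hχω, if_pos rfl, smul_eq_mul, smul_eq_mul, mul_one]
        ring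
      · intro l _ hne
        rw [map_smul, map_neg, map_smul, hχω, if_neg (Ne.symm hne), smul_zero, neg_zero, smul_zero]
      · intro hn
        exact absurd (Finset.mem_univ j) hn
    have h5 : ψ j y = ψ j (y - i' (φ y)) + ε⁻¹ * χ j (y - i' (φ y)) := by
      rw [h2, map_sub, map_sub (χ j), h3, h4, hχG j _ hyG, map_sub]
      have : ε⁻¹ * (0 - -(ε * ψ j (i (φ y)))) = ψ j (i (φ y)) := by
        field_simp
        ring
      rw [this]
      ring
    rw [h5]
    have h6 := hψ j (y - i' (φ y))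
    have h7 := hχ j (y - i' (φ y))
    have h8 : |ε⁻¹ * χ j (y - i' (φ y))| ≤ ε⁻¹ * p (y - i' (φ y)) := by
      rw [abs_mul, abs_of_pos (inv_pos.2 hε0)]
      exact mul_le_mul_of_nonneg_left h7 (inv_pos.2 hε0).le
    have h9 : c2 m * p (y - i' (φ y)) = p (y - i' (φ y)) + ε⁻¹ * p (y - i' (φ y)) := by
      rw [hεi]
      unfold c2
      ring
    rw [h9]
    exact (abs_add_le _ _).trans (add_le_add h6 h8)

end Pool.RG
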