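import Pool.Agent.Work.MP_3e8c7a_g.InterfaceD

set_option autoImplicit false

namespace Pool.RG

open Module Pool.Agent.MP3e8c7a Pool.Agent.MP3e8c7as

/-- A norming functional. -/
theorem VRN_func {V : Type} [AddCommGroup V] [Module ℝ V] [FiniteDimensional ℝ V]
    (s : Seminorm ℝ V) (w : V) : ∃ φ : V →ₗ[ℝ] ℝ, φ w = s w ∧ ∀ y, |φ y| ≤ s y := by
  by_cases hw : w = 0
  · refine ⟨0, ?_, fun y => ?_⟩
    · rw [hw, map_zero, map_zero]
    · rw [LinearMap.zero_apply, abs_zero]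
      exact apply_nonneg s y
  · have hinj : Function.Injective (LinearMap.toSpanSingleton ℝ V w) := by
      intro a b hab
      rw [LinearMap.toSpanSingleton_apply, LinearMap.toSpanSingleton_apply] at hab
      exact smul_left_injective ℝ hw hab
    obtain ⟨g, hg1, hg2⟩ := exists_ext s (LinearMap.toSpanSingleton ℝ V w) hinj (C := 1)
      zero_le_one (LinearMap.toSpanSingleton ℝ ℝ (s w)) (by
        intro a
        rw [LinearMap.toSpanSingleton_apply, LinearMap.toSpanSingleton_apply, one_mul,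
          map_smul_eq_mul, smul_eq_mul, abs_mul, Real.norm_eq_abs, abs_of_nonneg (apply_nonneg s w)])
    refine ⟨g, ?_, fun y => ?_⟩
    · have h1 := hg1 1
      rw [LinearMap.toSpanSingleton_apply, LinearMap.toSpanSingleton_apply, one_smul,
        one_smul] at h1
      exact h1
    · have h1 := hg2 y
      rwa [one_mul] at h1

theorem VRN_phi {V : Type} [AddCommGroup V] [Module ℝ V] (φ : V →ₗ[ℝ] ℝ) {n M L : ℕ}
    (v : Fin n → V) (ε : Fin n × Fin M × Fin L → Bool) (x : Fin M → ℝ) :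
    φ (GG v ε x) = ∑ z : Fin n × Fin M × Fin L, sgn (ε z) * (x z.2.1 * φ (v z.1)) := by
  rw [GG_apply, map_sum, Fintype.sum_prod_type]
  refine Finset.sum_congr rfl (fun i _ => ?_)
  rw [map_smul, smul_eq_mul, hh_apply, Fintype.sum_prod_type, Finset.sum_mul]
  refine Finset.sum_congr rfl (fun j _ => ?_)
  rw [Finset.sum_mul]
  refine Finset.sum_congr rfl (fun l _ => ?_)
  ring

theorem VRN_sgn (b : Bool) : (sgn b - sgn (!b)) ^ 2 = 4 := by
  cases b <;> simp [sgn] <;> norm_num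

theorem VRN_diff {V : Type} [AddCommGroup V] [Module ℝ V] [FiniteDimensional ℝ V]
    (s : Seminorm ℝ V) (φ : V →ₗ[ℝ] ℝ) {n M L : ℕ} (v : Fin n → V)
    (ε : Fin n × Fin M × Fin L → Bool) (x : Fin M → ℝ) (h1 : φ (GG v ε x) = s (GG v ε x))
    (h2 : ∀ y, |φ y| ≤ s y) (z : Fin n × Fin M × Fin L) :
    (max (s (GG v ε x) - s (GG v (Function.update ε z (!(ε z))) x)) 0) ^ 2 ≤
      4 * (x z.2.1 * φ (v z.1)) ^ 2 := by
  have h3 : s (GG v ε x) - s (GG v (Function.update ε z (!(ε z))) x) ≤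
      (sgn (ε z) - sgn (!(ε z))) * (x z.2.1 * φ (v z.1)) := by
    have h4 : φ (GG v (Function.update ε z (!(ε z))) x) ≤
        s (GG v (Function.update ε z (!(ε z))) x) := le_trans (le_abs_self _) (h2 _)
    have h5 : φ (GG v ε x) - φ (GG v (Function.update ε z (!(ε z))) x) =
        (sgn (ε z) - sgn (!(ε z))) * (x z.2.1 * φ (v z.1)) := by
      rw [VRN_phi, VRN_phi, ← Finset.sum_sub_distrib]
      rw [Finset.sum_eq_single z]
      · rw [Function.update_self]
        ring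
      · intro y _ hy
        rw [Function.update_of_ne hy, sub_self]
      · intro h
        exact absurd (Finset.mem_univ z) h
    rw [← h5, h1]
    linarith
  set t : ℝ := (sgn (ε z) - sgn (!(ε z))) * (x z.2.1 * φ (v z.1)) with ht
  have h6 : max (s (GG v ε x) - s (GG v (Function.update ε z (!(ε z))) x)) 0 ≤ |t| :=
    max_le (le_trans h3 (le_abs_self t)) (abs_nonneg t)
  have h7 : (0 : ℝ) ≤ max (s (GG v ε x) - s (GG v (Function.update ε z (!(ε z))) x)) 0 :=
    le_max_right _ _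
  calc (max (s (GG v ε x) - s (GG v (Function.update ε z (!(ε z))) x)) 0) ^ 2 ≤ |t| ^ 2 :=
        pow_le_pow_left₀ h7 h6 2
    _ = t ^ 2 := sq_abs t
    _ = 4 * (x z.2.1 * φ (v z.1)) ^ 2 := by rw [ht, mul_pow, VRN_sgn]

theorem VRN_one {V : Type} [AddCommGroup V] [Module ℝ V] (s : Seminorm ℝ V) {n : ℕ}
    (v : Fin n → V) (hv : ∀ a : Fin n → ℝ, s (∑ i, a i • v i) ≤ e2 a) (φ : V →ₗ[ℝ] ℝ)
    (h2 : ∀ y, |φ y| ≤ s y) : ∑ i, φ (v i) ^ 2 ≤ 1 := by
  have h3 : ∑ i, φ (v i) ^ 2 = φ (∑ i, φ (v i) • v i) := by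
    rw [map_sum]
    refine Finset.sum_congr rfl (fun i _ => ?_)
    rw [map_smul, smul_eq_mul, sq]
  have h4 : ∑ i, φ (v i) ^ 2 ≤ Real.sqrt (∑ i, φ (v i) ^ 2) := by
    have h5 := hv (fun i => φ (v i))
    have h6 : φ (∑ i, φ (v i) • v i) ≤ s (∑ i, φ (v i) • v i) := le_trans (le_abs_self _) (h2 _)
    rw [← h3] at h6
    exact le_trans h6 h5
  have h0 : 0 ≤ ∑ i, φ (v i) ^ 2 := Finset.sum_nonneg (fun i _ => sq_nonneg _)
  have h7 := Real.sq_sqrt h0
  have h8 := Real.sqrt_nonneg (∑ i, φ (v i) ^ 2)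
  by_contra hlt
  rw [not_le] at hlt
  nlinarith

theorem p_VRN (hEFS : Stmt_EFS) : Stmt_VRN := by
  intro V _ _ _ s n M L v hv x
  classical
  have hcard : Fintype.card (Fin n × Fin M × Fin L) = n * (M * L) := by
    rw [Fintype.card_prod, Fintype.card_prod, Fintype.card_fin, Fintype.card_fin,
      Fintype.card_fin]
  have hμ : ff s v M L x * 2 ^ Fintype.card (Fin n × Fin M × Fin L) =
      ∑ ε : Fin n × Fin M × Fin L → Bool, s (GG v ε x) := by
    rw [ff_apply, hcard, div_mul_cancel₀]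
    positivity
  have h1 := hEFS (Fin n × Fin M × Fin L) (fun ε => s (GG v ε x)) (ff s v M L x) hμ
  have h2 : ∀ ε : Fin n × Fin M × Fin L → Bool, ∑ i : Fin n × Fin M × Fin L,
      (max (s (GG v ε x) - s (GG v (Function.update ε i (!(ε i))) x)) 0) ^ 2 ≤
        4 * L * ∑ j, x j ^ 2 := by
    intro ε
    obtain ⟨φ, hφ1, hφ2⟩ := VRN_func s (GG v ε x)
    have h3 : ∑ i : Fin n × Fin M × Fin L,
        (max (s (GG v ε x) - s (GG v (Function.update ε i (!(ε i))) x)) 0) ^ 2 ≤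
        ∑ z : Fin n × Fin M × Fin L, 4 * (x z.2.1 * φ (v z.1)) ^ 2 :=
      Finset.sum_le_sum (fun z _ => VRN_diff s φ v ε x hφ1 hφ2 z)
    have h4 : ∑ z : Fin n × Fin M × Fin L, 4 * (x z.2.1 * φ (v z.1)) ^ 2 =
        4 * L * (∑ j, x j ^ 2) * ∑ i, φ (v i) ^ 2 := by
      rw [Fintype.sum_prod_type, Finset.mul_sum]
      refine Finset.sum_congr rfl (fun i _ => ?_)
      rw [Fintype.sum_prod_type, Finset.mul_sum, Finset.sum_mul]
      refine Finset.sum_congr rfl (fun j _ => ?_)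
      dsimp only
      rw [Finset.sum_const, Finset.card_univ, Fintype.card_fin, nsmul_eq_mul]
      ring
    have h5 := VRN_one s v hv φ hφ2
    have h6 : 0 ≤ 4 * (L : ℝ) * ∑ j, x j ^ 2 := by
      have : 0 ≤ ∑ j, x j ^ 2 := Finset.sum_nonneg (fun j _ => sq_nonneg _)
      positivity
    calc ∑ i : Fin n × Fin M × Fin L,
        (max (s (GG v ε x) - s (GG v (Function.update ε i (!(ε i))) x)) 0) ^ 2 ≤ _ := h3
      _ = 4 * L * (∑ j, x j ^ 2) * ∑ i, φ (v i) ^ 2 := h4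
      _ ≤ 4 * L * (∑ j, x j ^ 2) * 1 := mul_le_mul_of_nonneg_left h5 h6
      _ = 4 * L * ∑ j, x j ^ 2 := by ring
  have h3 : ∑ ε : Fin n × Fin M × Fin L → Bool, ∑ i : Fin n × Fin M × Fin L,
      (max (s (GG v ε x) - s (GG v (Function.update ε i (!(ε i))) x)) 0) ^ 2 ≤
      2 ^ (n * (M * L)) * (4 * L * ∑ j, x j ^ 2) := by
    have h4 := Finset.sum_le_sum (s := (Finset.univ : Finset (Fin n × Fin M × Fin L → Bool)))
      (fun ε _ => h2 ε)
    rw [Finset.sum_const, Finset.card_univ, nsmul_eq_mul, Fintype.card_fun, Fintype.card_bool,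
      hcard] at h4
    push_cast at h4
    exact h4
  refine le_trans h1 ?_
  calc 1 / 2 * ∑ ε : Fin n × Fin M × Fin L → Bool, ∑ i : Fin n × Fin M × Fin L,
      (max (s (GG v ε x) - s (GG v (Function.update ε i (!(ε i))) x)) 0) ^ 2 ≤
        1 / 2 * (2 ^ (n * (M * L)) * (4 * L * ∑ j, x j ^ 2)) :=
        mul_le_mul_of_nonneg_left h3 (by norm_num)
    _ = 2 ^ (n * (M * L)) * (2 * L * ∑ j, x j ^ 2) := by ring

end Pool.RG
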