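import Pool.Agent.Work.MP_3e8c7a_g.Interface

/-! # Block XG: assembly -/

set_option autoImplicit false

namespace Pool.RG

open Module Pool.Agent.MP3e8c7a Pool.Agent.MP3e8c7as

theorem XG_c2_pos (m : ℕ) : 0 < c2 m := by
  unfold c2 c1
  positivity

/-- factorisations through a norm comparable to `N` -/
theorem XG_fac {A B : Type} [AddCommGroup A] [Module ℝ A] [AddCommGroup B] [Module ℝ B]
    (s : Seminorm ℝ A) (N N₂ : Seminorm ℝ B) (C C' : ℝ) (hC : 0 ≤ C)
    (h1 : ∀ x, N x ≤ 4 * N₂ x) (h2 : ∀ x, N₂ x ≤ 9 / 4 * N x) (hCC : 9 * C ≤ C')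
    (h : FacE C s N₂) : FacE C' s N := by
  obtain ⟨j, q, hqj, hj, hq⟩ := h
  refine ⟨(1 / 4 : ℝ) • j, (4 : ℝ) • q, fun a => ?_, fun a => ?_, fun x => ?_⟩
  · rw [LinearMap.smul_apply, LinearMap.smul_apply, map_smul, hqj, smul_smul]
    norm_num
  · rw [LinearMap.smul_apply, map_smul_eq_mul, Real.norm_eq_abs, abs_of_pos (by norm_num)]
    have h3 := h1 (j a)
    have h4 := hj a
    linarith
  · rw [LinearMap.smul_apply, map_smul_eq_mul, Real.norm_eq_abs, abs_of_pos (by norm_num)]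
    have h3 := hq x
    have h4 := mul_le_mul_of_nonneg_left (h2 x) hC
    have h5 : 9 * C * N x ≤ C' * N x := mul_le_mul_of_nonneg_right hCC (apply_nonneg N x)
    linarith

theorem p_XG (hTL1 : Stmt_TL1) (hTL2 : Stmt_TL2) (hCPG : Stmt_CPG) : Stmt_XG := by
  intro b C₁ M hb hC₁
  obtain ⟨A₁, hA₁, hg1⟩ := grd M
  obtain ⟨A₂, hA₂, hg2⟩ := grd (M * (M + 1))
  obtain ⟨B₁, hB₁, hT1⟩ := hTL1 (M * (M + 1)) A₂ C₁ hA₂ hC₁
  obtain ⟨D₁, hD₁, hCP⟩ := hCPG M A₁ (3 / 2 * B₁) hA₁ (by linarith)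
  have hc2 := XG_c2_pos M
  refine ⟨max 1 (D₁ * A₁ * A₂ * c2 M), M + 2 * (M * (M + 1)) + (M * (M + 1)) * (M * (M + 1) + 1) +
    M * (M + 1) + 1, le_max_left _ _, ?_⟩
  intro V _ _ _ k p r hp hr hH hk hdim i φ hφi hproj hNOR
  obtain ⟨ρ, W, a, F₁, hρ, hTop, hF₁, hF₁'⟩ := hg1 V p r hp hr (by omega)
  obtain ⟨ρ', Y, β, F₂, hρ', hTop', hF₂, hF₂'⟩ := hg2 V r p hr hp (by omega)
  rcases le_or_gt (ρ * ρ') (D₁ * A₁ * A₂ * c2 M) with hle | hlt
  · refine ⟨F₁ ⊓ F₂, ρ, ?_, hρ, ?_⟩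
    · have h1 := Submodule.finrank_sup_add_finrank_inf_eq F₁ F₂
      have h2 := Submodule.finrank_le (F₁ ⊔ F₂)
      omega
    · intro y hy
      have h1 := hF₁' y hy.1
      have h2 := hF₂' y hy.2
      have hry : 0 ≤ ρ * r y := mul_nonneg hρ.le (apply_nonneg r y)
      have hpy : 0 ≤ p y := apply_nonneg p y
      constructor
      · have h3 : 1 * (ρ * r y) ≤ max 1 (D₁ * A₁ * A₂ * c2 M) * (ρ * r y) :=
          mul_le_mul_of_nonneg_right (le_max_left _ _) hry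
        linarith
      · have h3 : ρ * r y ≤ ρ * (ρ' * p y) := mul_le_mul_of_nonneg_left h2 hρ.le
        have h4 : ρ * ρ' * p y ≤ max 1 (D₁ * A₁ * A₂ * c2 M) * p y :=
          mul_le_mul_of_nonneg_right (hle.trans (le_max_right _ _)) hpy
        linarith
  · exfalso
    have hA₁0 : 0 < A₁ := by linarith
    have hA₂0 : 0 < A₂ := by linarith
    obtain ⟨i₁, ξ, hφi₁, hi₁, hβξ, hpξ⟩ := hT1 V k p i φ β Y hp hφi hproj hTop'.aW hTop'.rW
      (by omega)
    -- the functionals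
    have hψ : ∀ (l : Fin M) (x : V),
        |((ρ / A₁) • ((LinearMap.proj l : (Fin M → ℝ) →ₗ[ℝ] ℝ) ∘ₗ a)) x| ≤ p x := by
      intro l x
      rw [LinearMap.smul_apply, LinearMap.comp_apply, LinearMap.proj_apply, smul_eq_mul, abs_mul,
        abs_of_pos (div_pos hρ hA₁0)]
      have h1 : |a x l| ≤ ‖a x‖ := norm_le_pi_norm (a x) l
      have h2 := hTop.pa x
      have h3 : ρ / A₁ * |a x l| ≤ ρ / A₁ * ‖a x‖ :=
        mul_le_mul_of_nonneg_left h1 (div_pos hρ hA₁0).le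
      refine h3.trans ?_
      rw [div_mul_eq_mul_div, div_le_iff₀ hA₁0]
      linarith
    obtain ⟨i₂, hφi₂, hi₂, hβi₂, hsep⟩ := hTL2 V (Fin (M * (M + 1)) → ℝ) k M p i₁ φ β hp hφi₁
      (by rw [Module.finrank_fin_fun]; omega) (fun l => W (Pi.single l 1))
      (fun l => (ρ / A₁) • ((LinearMap.proj l : (Fin M → ℝ) →ₗ[ℝ] ℝ) ∘ₗ a)) hψ
    have hWsum : ∀ ω : Fin M → ℝ, ∑ l, ω l • W (Pi.single l 1) = W ω := by
      intro ω
      have h : ∑ l, ω l • (Pi.single l 1 : Fin M → ℝ) = ω := by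
        funext j
        simp [Finset.sum_apply, Pi.single_apply]
      calc ∑ l, ω l • W (Pi.single l 1) = W (∑ l, ω l • (Pi.single l 1 : Fin M → ℝ)) := by
            rw [map_sum]
            exact Finset.sum_congr rfl fun l _ => (map_smul W _ _).symm
        _ = W ω := by rw [h]
    have hup : ∀ z, p (i₂ z) ≤ 9 / 4 * p (i z) := by
      intro z
      have h1 := (hi₂ z).2
      have h2 := (hi₁ z).2
      linarith
    have hlow : ∀ z, p (i z) ≤ 4 * p (i₂ z) := by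
      intro z
      have h1 := (hi₂ z).1
      have h2 := (hi₁ z).1
      linarith
    have hσ : ∀ ω : Fin M → ℝ, ρ / (A₁ * c2 M) * ‖ω‖ ≤ p (W ω - i₂ (φ (W ω))) := by
      intro ω
      have h1 : ∀ j, |ω j| ≤ A₁ * c2 M / ρ * p (W ω - i₂ (φ (W ω))) := by
        intro j
        have h2 := hsep ω j
        rw [hWsum, LinearMap.smul_apply, LinearMap.comp_apply, LinearMap.proj_apply, hTop.aW,
          smul_eq_mul, abs_mul, abs_of_pos (div_pos hρ hA₁0)] at h2
        rw [div_mul_eq_mul_div, div_le_iff₀ hA₁0] at h2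
        rw [div_mul_eq_mul_div, le_div_iff₀ hρ]
        linarith
      have h2 : ‖ω‖ ≤ A₁ * c2 M / ρ * p (W ω - i₂ (φ (W ω))) := by
        rw [pi_norm_le_iff_of_nonneg (mul_nonneg (by positivity) (apply_nonneg p _))]
        exact h1
      have h3 := mul_le_mul_of_nonneg_left h2
        (show 0 ≤ ρ / (A₁ * c2 M) from (div_pos hρ (mul_pos hA₁0 hc2)).le)
      refine h3.trans (le_of_eq ?_)
      field_simp
    set s : Seminorm ℝ (Fin M → ℝ) := p.comp (W - i₂ ∘ₗ φ ∘ₗ W) with hs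
    have hsa : ∀ ω, s ω = p (W ω - i₂ (φ (W ω))) := fun ω => rfl
    have hsD : Def s := by
      intro ω hω
      have h1 := hσ ω
      rw [← hsa, hω] at h1
      have h2 : 0 < ρ / (A₁ * c2 M) := div_pos hρ (mul_pos hA₁0 hc2)
      have h3 : ‖ω‖ ≤ 0 := by
        by_contra hcon
        have := mul_pos h2 (not_le.1 hcon)
        linarith
      exact norm_le_zero_iff.1 h3
    obtain ⟨S, hS⟩ := hNOR s hsD
    refine hS (XG_fac (s.comp S.subtype) (p.comp i) (p.comp i₂)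
      (6 * b ^ 2 * (1 + 9 / 4 * C₁)) _ (by positivity) hlow hup ?_ ?_)
    · have h1 : 54 * (1 + 9 / 4 * C₁) ≤ 176 * C₁ := by linarith
      have h2 := mul_le_mul_of_nonneg_left h1 (sq_nonneg b)
      nlinarith
    · refine hCP V k p r b (9 / 4 * C₁) (A₂ / ρ') (ρ / (A₁ * c2 M)) i₂ φ W β ξ hb (by linarith)
        (div_pos hA₂0 hρ') hp hr hH hφi₂ ?_ hTop.rW ?_ ?_ ?_ hσ ?_ s hsa S
      · intro x
        have h1 := hup (φ x)
        have h2 := hproj x
        linarith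
      · intro x
        have h1 := hTop'.pa x
        rw [div_mul_eq_mul_div, le_div_iff₀ hρ']
        linarith
      · intro t
        rw [hβi₂, hβξ]
      · intro t
        have h1 := (hi₂ (ξ t)).2
        have h2 := hpξ t
        linarith
      · rw [mul_div_assoc', div_le_div_iff₀ hρ' (mul_pos hA₁0 hc2)]
        linarith

end Pool.RG
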