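import Pool.Agent.Work.MP_3e8c7a_s.All
import Pool.Agent.Work.MP_3e8c7a_r.B_BAS
import Pool.Agent.Work.MP_3e8c7a_r.B_GRD

/-!
# MP_3e8c7a_an, THEOREM G: one complemented section of the critical dimension without complemented Euclidean pieces

`V` finite dimensional, `p`, `r` norms, all sections of dimension `k` of `p` and `r` are `b`-isomorphic (`Hyp b k p r`).
`i : (Fin k → ℝ) →ₗ[ℝ] V`, `φ : V →ₗ[ℝ] (Fin k → ℝ)`, `φ (i a) = a`, `p (i (φ x)) ≤ C₁ * p x`: ONE complemented section `E₀` of `p`.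
THEOREM G (`Stmt_G`): if for some `M` every norm on `ℝ^M` has a subspace which is not (isomorphic to) a complemented subspace
of `E₀` (`NOR`), then `p` and a multiple of `r` are equivalent on a subspace of bounded codimension.

RULES. Every block is one file `B_X.lean` in this folder, `import Pool.Agent.Work.MP_3e8c7a_g.Interface`,
namespace `Pool.RG`, `open Module Pool.Agent.MP3e8c7a Pool.Agent.MP3e8c7as`, with `theorem p_X (h1 : Stmt_Y) .. : Stmt_X`, exactly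
the blocks named after `uses` as hypotheses in that order (`theorem p_X : Stmt_X` if there is no `uses`); auxiliary lemmas with the
prefix `X_`. No straight double quotes. ALREADY PROVED and usable as theorems: `tri`, `kil` (the block trick), `bio` (biorthogonal
systems), `grd` (the double greedy choice), see below and the docstrings in `MP_3e8c7a_s/Interface.lean`,
`MP_3e8c7a_r/Interface.lean`. From `Pool.Agent.MP3e8c7a` (files `Base`, `Step`, `Hyper`): `Iso c p r` (there is a linear equivalence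
`T` with `p x ≤ r (T x) ≤ c * p x`), `Iso.of_bounds`, `Iso.symm`, `Iso.trans`, `Iso.mono`, `Hyp b k p r`, `Hyp.inj` (for an
injective linear map `u : W → V` with `finrank W = k`: `Iso b (p.comp u) (r.comp u)`), `Def p` (definite), `Def.comp`, `exists_ext`
(Hahn-Banach), `Hyp.symm`. All norms `‖·‖` are sup norms of `Fin m → ℝ`.
-/

set_option autoImplicit false

namespace Pool.RG

open Module Pool.Agent.MP3e8c7a Pool.Agent.MP3e8c7as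

theorem tri : Pool.Agent.MP3e8c7as.Stmt_TRI := Pool.Agent.MP3e8c7as.p_TRI

theorem kil : Pool.Agent.MP3e8c7as.Stmt_KIL := Pool.Agent.MP3e8c7as.p_KIL

theorem bio : Pool.Agent.MP3e8c7as.Stmt_BIO :=
  Pool.Agent.MP3e8c7as.p_BIO Pool.Agent.MP3e8c7as.p_TRI Pool.Agent.MP3e8c7as.p_GRD Pool.Agent.MP3e8c7as.p_KIL

theorem grd : Pool.RX.Stmt_GRD := Pool.RX.p_GRD Pool.RX.p_BAS

/-- `A` with the norm `s` is isomorphic to a complemented subspace of `B` with the norm `N`, with the constant `C`. -/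
def FacE (C : ℝ) {A B : Type} [AddCommGroup A] [Module ℝ A] [AddCommGroup B] [Module ℝ B] (s : Seminorm ℝ A)
    (N : Seminorm ℝ B) : Prop :=
  ∃ (j : A →ₗ[ℝ] B) (q : B →ₗ[ℝ] A), (∀ a, q (j a) = a) ∧ (∀ a, N (j a) ≤ s a) ∧ ∀ x, s (q x) ≤ C * N x

/-- Every norm on `ℝ^M` has a subspace which is not isomorphic to a complemented subspace of `B`. -/
def NOR (C : ℝ) (M : ℕ) {B : Type} [AddCommGroup B] [Module ℝ B] (N : Seminorm ℝ B) : Prop :=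
  ∀ s : Seminorm ℝ (Fin M → ℝ), Def s → ∃ S : Submodule ℝ (Fin M → ℝ), ¬ FacE C (s.comp S.subtype) N

/-- **TL1** (150; uses nothing). FIRST TILT: afterwards `β` is onto on the section, with a bounded lifting. `M' = 0`: `i₁ = i`, `ξ = 0`. Let `y l = Y (Pi.single l 1)`. `bio` for `m = M'`, the space `Fin k → ℝ` with the norm
`p.comp i` (`Def`, `i` is injective), `G = span {φ (y l)}`, `Z = ker (β ∘ i)` (dimension `≥ k - M' ≥ M' (M' + 1)`): `ζ l` (called `ω l` there) and `η j` (called `χ j`), `p (i (ζ l)) ≤ c1 M'`, `β (i (ζ l)) = 0`, `|η j z| ≤ p (i z)`,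
`η j (φ (y l)) = 0`, `η j (ζ l) = δ`. `κ = 1 / (2 M' (1 + C₁) A)`, `i₁ z = i z + κ • ∑ j, η j z • (y j - i (φ (y j)))`: `φ (i₁ z) = z` because `φ (y - i φ y) = 0`, and the second term is at most `κ M' p (i z) (1 + C₁) A = p (i z) / 2`. For
`ζ' l = ζ l + κ • φ (y l)` one has `i₁ (ζ' l) = i (ζ l) + κ i φ y_l + κ (y_l - i φ y_l) = i (ζ l) + κ • y l`, so `β (i₁ (ζ' l)) = κ • e_l`. `ξ t = κ⁻¹ • ∑ l, t l • ζ' l`, `B = κ⁻¹ M' (c1 M' + κ A) + 1`. -/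
def Stmt_TL1 : Prop := ∀ (M' : ℕ) (A C₁ : ℝ), 1 ≤ A → 1 ≤ C₁ → ∃ B : ℝ, 0 < B ∧
  ∀ (V : Type) [AddCommGroup V] [Module ℝ V] [FiniteDimensional ℝ V] (k : ℕ) (p : Seminorm ℝ V)
    (i : (Fin k → ℝ) →ₗ[ℝ] V) (φ : V →ₗ[ℝ] (Fin k → ℝ)) (β : V →ₗ[ℝ] (Fin M' → ℝ)) (Y : (Fin M' → ℝ) →ₗ[ℝ] V), Def p →
    (∀ a, φ (i a) = a) → (∀ x, p (i (φ x)) ≤ C₁ * p x) → (∀ t, β (Y t) = t) → (∀ t, p (Y t) ≤ A * ‖t‖) →
    M' + M' * (M' + 1) ≤ k →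
    ∃ (i₁ : (Fin k → ℝ) →ₗ[ℝ] V) (ξ : (Fin M' → ℝ) →ₗ[ℝ] (Fin k → ℝ)), (∀ a, φ (i₁ a) = a) ∧
      (∀ z, p (i z) ≤ 2 * p (i₁ z) ∧ p (i₁ z) ≤ 3 / 2 * p (i z)) ∧ (∀ t, β (i₁ (ξ t)) = t) ∧ ∀ t, p (i₁ (ξ t)) ≤ B * ‖t‖

/-- **TL2** (170; uses nothing). SECOND TILT: afterwards the vectors `g l` are separated from the section; `β` does not change on it. (A variant of block EXC of `MP_3e8c7a_s`, see `MP_3e8c7a_s/B_EXC.lean`.) `M = 0`: `i₂ = i`. `θ l z = ψ l (i z)`, `|θ l z| ≤ p (i z)`. `bio` for `m = M`,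
`G = span {g l - i (φ (g l))}` and `Z = ker φ ⊓ (⨅ l, ker (ψ l)) ⊓ ker β` (dimension `≥ finrank V - k - M - finrank E ≥ M (M + 1)`): `ω`, `χ`. `ε = 1 / (2 M c1 M)`, `i₂ z = i z - ∑ l, θ l z • ε • ω l`; the second term is at most `M p (i z) ε c1 M = p (i z) / 2`.
For `y = ∑ a l • g l`: `y - i₂ (φ y) = (y - i (φ y)) + ∑ l, θ l (φ y) • ε • ω l`, so `(ψ j + ε⁻¹ • χ j) (y - i₂ (φ y)) = ψ j (y - i φ y) + θ j (φ y) = ψ j y`, and `|ψ j + ε⁻¹ χ j| ≤ (1 + 2 M c1 M) p = c2 M p`. -/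
def Stmt_TL2 : Prop := ∀ (V E : Type) [AddCommGroup V] [Module ℝ V] [FiniteDimensional ℝ V] [AddCommGroup E] [Module ℝ E]
  [FiniteDimensional ℝ E] (k M : ℕ) (p : Seminorm ℝ V) (i : (Fin k → ℝ) →ₗ[ℝ] V) (φ : V →ₗ[ℝ] (Fin k → ℝ)) (β : V →ₗ[ℝ] E),
  Def p → (∀ a, φ (i a) = a) → k + M + finrank ℝ E + M * (M + 1) ≤ finrank ℝ V →
  ∀ (g : Fin M → V) (ψ : Fin M → (V →ₗ[ℝ] ℝ)), (∀ l x, |ψ l x| ≤ p x) →
  ∃ i₂ : (Fin k → ℝ) →ₗ[ℝ] V, (∀ a, φ (i₂ a) = a) ∧ (∀ z, p (i z) ≤ 2 * p (i₂ z) ∧ p (i₂ z) ≤ 3 / 2 * p (i z)) ∧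
    (∀ z, β (i₂ z) = β (i z)) ∧ ∀ (a : Fin M → ℝ) (j : Fin M),
      |ψ j (∑ l, a l • g l)| ≤ c2 M * p ((∑ l, a l • g l) - i₂ (φ (∑ l, a l • g l)))

/-- **CPG** (230; uses nothing). EVERY SUBSPACE OF `(ℝ^M, s)` IS COMPLEMENTED IN THE SECTION. `D = 2 A (M + 1) B`, `s₀ = 1 / (2 A (M + 1) τ)`. (0) `kil` with `D = M`, blocks of size `M + 1`, `f t = (l ↦ β (i (φ (W e_l))) t)` in `Fin M → ℝ`: `c : Fin M → Fin (M * (M + 1)) → ℝ`, `Nrm c`;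
`Γ t l = ∑ u, c l u * t u`, `Γ' t = ∑ l, t l • (sign of c l)`: `‖Γ t‖ ≤ ‖t‖`, `‖Γ' t‖ ≤ ‖t‖` (disjoint supports), `Γ (Γ' t) = t`, `Γ (β (i (φ (W ω)))) = 0`. `u z = Γ (β (i z))`, `ξ' = ξ ∘ Γ'`: `u (ξ' t) = t`, `‖u z‖ ≤ τ r (i z)`,
`p (i (ξ' t)) ≤ B ‖t‖`, `u (φ (W ω)) = 0`. (1) `π : (Fin M → ℝ) → S` linear, `π ω = ω` on `S`, `‖π ω‖ ≤ (M + 1) ‖ω‖` (orthogonal projection: `‖x‖ ≤ |x|_2 ≤ √M ‖x‖`). (2) `i₃ z = i z + s₀ • W (π (u z))`, `r (s₀ W π u z) ≤ s₀ A (M + 1) τ r (i z) = r (i z) / 2`. So `i₃` is injective (`Def r`),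
`Iso 3 (r.comp i) (r.comp i₃)`, and with `Hyp.inj` for `i`, `i₃` there is `T` with `p (i z) ≤ p (i₃ (T z)) ≤ 3 b² p (i z)`. (3) `q₃ z = s₀ • π (u z) : S`, `s (q₃ z) = p ((1 - i φ) (s₀ W π u z)) = p ((1 - i φ) (i₃ z)) ≤ (1 + C) p (i₃ z)`.
`j₃ ω = s₀⁻¹ • ξ' ω - φ (W ω)`: `u (j₃ ω) = s₀⁻¹ • ω`, so `q₃ (j₃ ω) = ω`, and `i₃ (j₃ ω) = s₀⁻¹ • i (ξ' ω) + (W ω - i (φ (W ω)))`, `p (..) ≤ s₀⁻¹ B ‖ω‖ + s ω ≤ σ ‖ω‖ + s ω ≤ 2 s ω`. (4) `j = T⁻¹ (j₃ / 2)`, `q = 2 q₃ T`. -/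
def Stmt_CPG : Prop := ∀ (M : ℕ) (A B : ℝ), 1 ≤ A → 0 < B → ∃ D : ℝ, 0 < D ∧
  ∀ (V : Type) [AddCommGroup V] [Module ℝ V] [FiniteDimensional ℝ V] (k : ℕ) (p r : Seminorm ℝ V) (b C τ σ : ℝ)
    (i : (Fin k → ℝ) →ₗ[ℝ] V) (φ : V →ₗ[ℝ] (Fin k → ℝ)) (W : (Fin M → ℝ) →ₗ[ℝ] V)
    (β : V →ₗ[ℝ] (Fin (M * (M + 1)) → ℝ)) (ξ : (Fin (M * (M + 1)) → ℝ) →ₗ[ℝ] (Fin k → ℝ)), 1 ≤ b → 0 ≤ C → 0 < τ →
    Def p → Def r → Hyp b k p r → (∀ a, φ (i a) = a) → (∀ x, p (i (φ x)) ≤ C * p x) → (∀ ω, r (W ω) ≤ A * ‖ω‖) →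
    (∀ x, ‖β x‖ ≤ τ * r x) → (∀ t, β (i (ξ t)) = t) → (∀ t, p (i (ξ t)) ≤ B * ‖t‖) →
    (∀ ω, σ * ‖ω‖ ≤ p (W ω - i (φ (W ω)))) → D * τ ≤ σ → ∀ s : Seminorm ℝ (Fin M → ℝ),
    (∀ ω, s ω = p (W ω - i (φ (W ω)))) → ∀ S : Submodule ℝ (Fin M → ℝ),
    FacE (6 * b ^ 2 * (1 + C)) (s.comp S.subtype) (p.comp i)

/-- **THEOREM G** for norms. -/
def Stmt_G : Prop := ∀ (b C₁ : ℝ) (M : ℕ), 1 ≤ b → 1 ≤ C₁ → ∃ (D : ℝ) (K : ℕ), 1 ≤ D ∧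
  ∀ (V : Type) [AddCommGroup V] [Module ℝ V] [FiniteDimensional ℝ V] (k : ℕ) (p r : Seminorm ℝ V), Def p → Def r →
    Hyp b k p r → K ≤ k → k + K ≤ finrank ℝ V → ∀ (i : (Fin k → ℝ) →ₗ[ℝ] V) (φ : V →ₗ[ℝ] (Fin k → ℝ)),
    (∀ a, φ (i a) = a) → (∀ x, p (i (φ x)) ≤ C₁ * p x) → NOR (176 * b ^ 2 * C₁) M (p.comp i) →
    ∃ (Y : Submodule ℝ V) (Λ : ℝ), finrank ℝ V ≤ finrank ℝ Y + K ∧ 0 < Λ ∧
      ∀ y ∈ Y, p y ≤ D * (Λ * r y) ∧ Λ * r y ≤ D * p y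

/-- **XG** (220; uses TL1 TL2 CPG). ASSEMBLY. `M' = M (M + 1)`, `A₁` = `grd M`, `A₂` = `grd M'`, `B₁` = TL1 (`M', A₂, C₁`), `D₁` = CPG (`M, A₁, 3/2 B₁`), `D₀ = D₁ A₁ A₂ c2 M`, `D = max 1 D₀`, `K = M + 2 M' + M' (M' + 1) + M (M + 1) + 1`. `grd M` for `(p, r)`: `ρ, W, a, F₁`; `grd M'` for `(r, p)`: `ρ', Y, β, F₂`.
If `ρ ρ' ≤ D₀` take `F₁ ⊓ F₂`, `Λ = ρ`. Otherwise TL1 for `β`, `Y` (`rW`: `p (Y t) ≤ A₂ ‖t‖`, `aW`): `i₁`, `ξ`. TL2 for `i₁`, `E = Fin M' → ℝ`, `g l = W (Pi.single l 1)`, `ψ l x = (ρ / A₁) * a x l` (`|ψ l x| ≤ p x` by `pa`): `i₂`. `∑ ω l • g l = W ω`, `ψ j (W ω) = (ρ / A₁) ω j`, so with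
`s ω = p (W ω - i₂ (φ (W ω)))` one has `ρ / (A₁ c2 M) ‖ω‖ ≤ s ω`; `s` is a norm. `p (i₂ (φ x)) ≤ 9/4 C₁ p x`, `β (i₂ (ξ t)) = t`, `p (i₂ (ξ t)) ≤ 3/2 B₁ ‖t‖`, `‖β x‖ ≤ (A₂ / ρ') r x` (`pa`). CPG with `τ = A₂ / ρ'`, `σ = ρ / (A₁ c2 M)`, `C = 9/4 C₁`: for all `S`
`FacE (6 b² (1 + 9/4 C₁)) (s|S) (p.comp i₂)`. As `p (i z) ≤ 4 p (i₂ z)`, `p (i₂ z) ≤ 9/4 p (i z)`: `j / 4`, `4 q` give `FacE (54 b² (1 + 9/4 C₁)) (s|S) (p.comp i)`, and `54 (13/4) = 175.5 ≤ 176` (`FacE` is monotone in `C`): this contradicts `NOR` for `s`. -/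
def Stmt_XG : Prop := Stmt_G

end Pool.RG
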