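import Pool.Agent.Work.MP_3e8c7a_g.Interface
import Pool.Agent.Work.MP_3e8c7a_r.B_NET

/-!
# MP_3e8c7a_an, THEOREM G, part 2: Dvoretzky's theorem (qualitative, with an absolute constant), elementary

`Stmt_DVO`: for every `m` every normed space of large dimension contains a subspace which is `70`-isomorphic to `ℓ_2^m`.

Plan. (1) DRO: vectors `v i` with `s (v i) ≥ 1/2`, `s (∑ a i • v i) ≤ |a|_2` (maximal determinant). (2) `GG v ε x = ∑ i, (∑ j, ∑ l, ± x j) • v i` with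
signs `ε`; the average `ff` over the signs is a norm on `ℝ^M` invariant under permutations and changes of signs, and by the inequality of
Efron and Stein `GG v ε` is an isomorphism `(ℝ^M, ff) → V` for some `ε` (SYN). (3) In a symmetric norm on the functions on the lattice points
of a large ball the coordinate functions span `ℓ_2^m` (HIL).

RULES as in `Interface.lean`: file `B_X.lean`, `import Pool.Agent.Work.MP_3e8c7a_g.InterfaceD`, namespace `Pool.RG`,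
`open Module Pool.Agent.MP3e8c7a Pool.Agent.MP3e8c7as`, `theorem p_X (h1 : Stmt_Y) .. : Stmt_X` with exactly the blocks after `uses`; auxiliary
lemmas with the prefix `X_`; no straight double quotes. `net` (finite nets, block NET of `MP_3e8c7a_r/Interface.lean`) may be used directly.
-/

set_option autoImplicit false

namespace Pool.RG

open Module Pool.Agent.MP3e8c7a Pool.Agent.MP3e8c7as

theorem net : Pool.RX.Stmt_NET := Pool.RX.p_NET Pool.RX.p_BAS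

/-- The Euclidean norm of `ℝ^n`. -/
noncomputable def e2 {n : ℕ} (x : Fin n → ℝ) : ℝ := Real.sqrt (∑ i, x i ^ 2)

/-- The sign of a Boolean. -/
def sgn (c : Bool) : ℝ := if c then 1 else -1

/-- The coefficient of `v i`. -/
def hh {n M L : ℕ} (ε : Fin n × Fin M × Fin L → Bool) (i : Fin n) : (Fin M → ℝ) →ₗ[ℝ] ℝ :=
  ∑ j, ∑ l, sgn (ε (i, j, l)) • LinearMap.proj j

theorem hh_apply {n M L : ℕ} (ε : Fin n × Fin M × Fin L → Bool) (i : Fin n) (x : Fin M → ℝ) :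
    hh ε i x = ∑ j, ∑ l, sgn (ε (i, j, l)) * x j := by
  simp [hh, LinearMap.sum_apply]

/-- The random operator. -/
def GG {V : Type} [AddCommGroup V] [Module ℝ V] {n M L : ℕ} (v : Fin n → V) (ε : Fin n × Fin M × Fin L → Bool) :
    (Fin M → ℝ) →ₗ[ℝ] V :=
  ∑ i, (hh ε i).smulRight (v i)

theorem GG_apply {V : Type} [AddCommGroup V] [Module ℝ V] {n M L : ℕ} (v : Fin n → V)
    (ε : Fin n × Fin M × Fin L → Bool) (x : Fin M → ℝ) : GG v ε x = ∑ i, hh ε i x • v i := by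
  simp [GG, LinearMap.sum_apply]

/-- The average over the signs. -/
noncomputable def ff {V : Type} [AddCommGroup V] [Module ℝ V] (s : Seminorm ℝ V) {n : ℕ} (v : Fin n → V) (M L : ℕ) :
    Seminorm ℝ (Fin M → ℝ) :=
  Seminorm.of (fun x => (∑ ε : Fin n × Fin M × Fin L → Bool, s (GG v ε x)) / 2 ^ (n * (M * L)))
    (fun x y => by
      rw [← add_div, ← Finset.sum_add_distrib]
      refine div_le_div_of_nonneg_right (Finset.sum_le_sum fun ε _ => ?_) (by positivity)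
      rw [map_add]
      exact map_add_le_add s _ _)
    (fun a x => by
      rw [mul_div_assoc', Finset.mul_sum]
      refine congrArg (fun t => t / 2 ^ (n * (M * L))) (Finset.sum_congr rfl fun ε _ => ?_)
      rw [map_smul, map_smul_eq_mul])

theorem ff_apply {V : Type} [AddCommGroup V] [Module ℝ V] (s : Seminorm ℝ V) {n : ℕ} (v : Fin n → V) (M L : ℕ)
    (x : Fin M → ℝ) : ff s v M L x = (∑ ε : Fin n × Fin M × Fin L → Bool, s (GG v ε x)) / 2 ^ (n * (M * L)) := rfl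

/-- A norm on `ℝ^M` which is invariant under permutations and changes of signs. -/
structure Sym {M : ℕ} (f : Seminorm ℝ (Fin M → ℝ)) : Prop where
  dfn : Def f
  perm : ∀ (x : Fin M → ℝ) (π : Equiv.Perm (Fin M)), f (fun i => x (π i)) = f x
  sign : ∀ (x σ : Fin M → ℝ), (∀ i, σ i = 1 ∨ σ i = -1) → f (fun i => σ i * x i) = f x

/-- The indicator function. -/
noncomputable def ind {M : ℕ} (A : Finset (Fin M)) : Fin M → ℝ := fun i => if i ∈ A then 1 else 0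

/-- A lattice point as a vector of the Euclidean space. -/
noncomputable def zE {m : ℕ} (ω : Fin m → ℤ) : EuclideanSpace ℝ (Fin m) := WithLp.toLp 2 fun i => (ω i : ℝ)

/-! ## Dvoretzky-Rogers -/

/-- **MXD** (200; uses nothing). MAXIMAL DETERMINANT. Let `E = EuclideanSpace ℝ (Fin d)`, `Φ : V ≃ E` any linear equivalence. The set of the `B : E →ₗ E` with `s (Φ.symm (B x)) ≤ ‖x‖` for all `x` is closed and bounded (`s` is equivalent to the norm `‖Φ ·‖`: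
`Pool.RX.p_BAS` or finite dimension), so compact (in `E →L[ℝ] E`, or as matrices), and `|det B|` is continuous: let `B₀` be a maximum. `|det B₀| > 0` because a small multiple of the identity is in the set. `T = Φ.symm ∘ B₀`; if `A` is as in the statement then `B₀ ∘ A`
is in the set, so `|det B₀| |det A| ≤ |det B₀|`. -/
def Stmt_MXD : Prop := ∀ (V : Type) [AddCommGroup V] [Module ℝ V] [FiniteDimensional ℝ V] (s : Seminorm ℝ V) (d : ℕ), Def s →
  finrank ℝ V = d → ∃ T : EuclideanSpace ℝ (Fin d) →ₗ[ℝ] V, (∀ x, s (T x) ≤ ‖x‖) ∧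
    ∀ A : EuclideanSpace ℝ (Fin d) →ₗ[ℝ] EuclideanSpace ℝ (Fin d), (∀ x, s (T (A x)) ≤ ‖x‖) → |LinearMap.det A| ≤ 1

/-- **DRO** (220; uses MXD). DVORETZKY-ROGERS. `T` of MXD. (1) If `U ≤ E` has codimension `c < n` then some `u ∈ U`, `‖u‖ = 1`, has `s (T u) ≥ 1/2`. Otherwise `s (T u) ≤ ‖u‖ / 2` on `U`; let `P` be the orthogonal projection onto `U`, `A = √3 • P + (1/2) • (1 - P)`:
`s (T (A x)) ≤ (√3/2) ‖P x‖ + (1/2) ‖x - P x‖ ≤ ‖x‖` (Cauchy-Schwarz), and `det A = √3 ^ (d - c) / 2 ^ c` (conjugate to `prodMap` for `U × Uᗮ`, or an adapted orthonormal basis), `> 1` because `d - c ≥ 2 c + 1`, `√3 ^ (2 c) = 3 ^ c ≥ 2 ^ c`. Contradiction. (2) Greedily an orthonormal family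
`u : Fin n → E` with `s (T (u i)) ≥ 1/2` (take `U` the orthogonal complement of the span of the previous ones), `v i = T (u i)`, `s (∑ a i • v i) ≤ ‖∑ a i • u i‖ = e2 a`. -/
def Stmt_DRO : Prop := ∀ (n : ℕ) (V : Type) [AddCommGroup V] [Module ℝ V] [FiniteDimensional ℝ V] (s : Seminorm ℝ V), Def s →
  3 * n + 1 ≤ finrank ℝ V → ∃ v : Fin n → V, (∀ i, 1 / 2 ≤ s (v i)) ∧ ∀ a : Fin n → ℝ, s (∑ i, a i • v i) ≤ e2 a

/-! ## Random signs -/

/-- **EFS** (130; uses nothing). EFRON-STEIN on the cube. Induction on `ι` (`Fintype.induction_empty_option`, or `Fin n` and transport). For `Option ι`: `F₀`, `F₁` the two halves with means `μ₀`, `μ₁`, `μ = (μ₀ + μ₁) / 2`: `∑ (F - μ)² = ∑ (F₀ - μ₀)² + ∑ (F₁ - μ₁)² + 2^|ι| (μ₀ - μ₁)² / 2`, and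
`2^|ι| (μ₀ - μ₁)² ≤ ∑ (F₀ - F₁)²` (Cauchy-Schwarz) `= ∑ ((max (F₀ - F₁) 0)² + (max (F₁ - F₀) 0)²)`, the contribution of the new coordinate. -/
def Stmt_EFS : Prop := ∀ (ι : Type) [Fintype ι] [DecidableEq ι] (F : (ι → Bool) → ℝ) (μ : ℝ),
  μ * 2 ^ Fintype.card ι = ∑ ε, F ε →
  ∑ ε, (F ε - μ) ^ 2 ≤ 1 / 2 * ∑ ε, ∑ i, (max (F ε - F (Function.update ε i (!(ε i)))) 0) ^ 2

/-- **VRN** (160; uses EFS). THE VARIANCE. EFS for `ι = Fin n × Fin M × Fin L` (`card = n * (M * L)`), `F ε = s (GG v ε x)`, `μ = ff s v M L x`. Let `φ` be a norming functional of `GG v ε x` (`exists_ext`: `|φ| ≤ s`, `φ (GG v ε x) = F ε`). For `ε'` = `ε` changed at `(i, j, l)`: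
`F ε - F ε' ≤ φ (GG v ε x - GG v ε' x) = 2 sgn (ε (i,j,l)) x j φ (v i) ≤ 2 |x j| |φ (v i)|`. `∑ i, φ (v i)² ≤ 1`: with `a i = φ (v i)`, `∑ a i² = φ (∑ a i • v i) ≤ e2 a`. So the inner sum is at most `4 L ∑ x j²`. -/
def Stmt_VRN : Prop := ∀ (V : Type) [AddCommGroup V] [Module ℝ V] [FiniteDimensional ℝ V] (s : Seminorm ℝ V) (n M L : ℕ)
  (v : Fin n → V), (∀ a : Fin n → ℝ, s (∑ i, a i • v i) ≤ e2 a) → ∀ x : Fin M → ℝ,
  ∑ ε : Fin n × Fin M × Fin L → Bool, (s (GG v ε x) - ff s v M L x) ^ 2 ≤ 2 ^ (n * (M * L)) * (2 * L * ∑ j, x j ^ 2)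

/-- **MEN** (220; uses nothing). THE MEAN. (1) For `σ : Fin n → Bool` the map `ε ↦ (block i of ε negated if σ i)` is a bijection and multiplies `hh ε i x` by `∓ 1`, so `∑ ε, s (∑ i, sgn (σ i) * hh ε i x • v i)` does not depend on `σ`. (2) For real `h` and every `i₀`: `2^n s (h i₀ • v i₀) ≤ ∑ σ, s (∑ i, sgn (σ i) * h i • v i)`
(triangle inequality for `∑ σ, sgn (σ i₀) • ∑ i, (sgn (σ i) * h i) • v i = 2^n • h i₀ • v i₀`). So `ff s v M L x * 2 ^ (n * (M * L)) ≥ ∑ ε, (1/2) |hh ε i₀ x|` for any choice of `i₀ = i₀(ε)`. (3) Let `g j l` be the truth value of `x j ≥ 0`. If the block `i₀` of `ε` is `g` then `hh ε i₀ x = L ∑ |x j| ≥ L e2 x`.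
At least half of the `ε` have such a block: the others are `(2^(M L) - 1)^n ≤ 2^(n M L) / 2` (Bernoulli: `(1 + 1/(2^(M L) - 1))^n ≥ 1 + n / 2^(M L) ≥ 2`; if `2^(M L) = 1` there are none as `n ≥ 1`). -/
def Stmt_MEN : Prop := ∀ (V : Type) [AddCommGroup V] [Module ℝ V] (s : Seminorm ℝ V) (n M L : ℕ)
  (v : Fin n → V), (∀ i, 1 / 2 ≤ s (v i)) → 2 ^ (M * L) ≤ n → ∀ x : Fin M → ℝ, (L : ℝ) / 4 * e2 x ≤ ff s v M L x

/-- **SYN** (280; uses DRO VRN MEN). SYMMETRIC SUBSPACES. `ν` = `net M`, `L = 2048 ν + 1`, `n = 2 ^ (M L)`, `N = 3 n + 1`. `v` of DRO, `f = ff s v M L`; `Sym f`: `Def` by MEN, permutations and signs by reindexing the sum over `ε`. `T` = `net` for `f`. For `y ∈ T`, `y ≠ 0`, let `B_y` be the set of the `ε` with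
`|s (GG v ε y) - f y| > f y / 8`. VRN: `|B_y| (f y / 8)² ≤ 2^K 2 L e2(y)²`, MEN: `f y ≥ L/4 e2 y`, so `|B_y| ≤ 2^K 2048 / L`, `K = n (M L)`; the sum over `T` is `< 2^K`, so there is `ε` outside all `B_y`. `G₀ = GG v ε`. Let `C` be any constant with `s (G₀ x) ≤ C f x` for all `x` (finite dimension). For `f x ≤ 1`, `y ∈ T`,
`f (x - y) ≤ 1/4`: `s (G₀ x) ≤ 9/8 f y + C/4 ≤ 9/8 · 5/4 + C / 4`; for the infimum of the possible `C`: `C ≤ 15/8`. And for `f x = 1`: `s (G₀ x) ≥ 7/8 f y - C / 4 ≥ 7/8 · 3/4 - 15/32 = 3/16`. `G = (16/3) • G₀`. -/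
def Stmt_SYN : Prop := ∀ M : ℕ, ∃ N : ℕ, ∀ (V : Type) [AddCommGroup V] [Module ℝ V] [FiniteDimensional ℝ V] (s : Seminorm ℝ V),
  Def s → N ≤ finrank ℝ V → ∃ (f : Seminorm ℝ (Fin M → ℝ)) (G : (Fin M → ℝ) →ₗ[ℝ] V), Sym f ∧
    ∀ x, f x ≤ s (G x) ∧ s (G x) ≤ 10 * f x

/-! ## Euclidean subspaces of symmetric spaces -/

/-- **SYL** (180; uses nothing). SYMMETRIC NORMS. (1) Monotone: change one coordinate at a time, `t y = ((1+t)/2) y + ((1-t)/2) (-y)` for `|t| ≤ 1`. (2) Extend `g` from `A` to a permutation `π` of `Fin M` (finite sets of the same cardinality), then `|x i| ≤ |y (π i)|` for all `i`. (3) Split `A` in at most `K` sets of at most `|B|` elements,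
each of them embeds into `B` (if `B` is empty so is `A`). -/
def Stmt_SYL : Prop := ∀ (M : ℕ) (f : Seminorm ℝ (Fin M → ℝ)), Sym f →
  (∀ x y : Fin M → ℝ, (∀ i, |x i| ≤ |y i|) → f x ≤ f y) ∧
  (∀ (x y : Fin M → ℝ) (A : Finset (Fin M)) (g : Fin M → Fin M), Set.InjOn g A → (∀ i ∉ A, x i = 0) →
    (∀ i ∈ A, |x i| ≤ |y (g i)|) → f x ≤ f y) ∧
  ∀ (A B : Finset (Fin M)) (K : ℕ), A.card ≤ K * B.card → f (ind A) ≤ K * f (ind B)

/-- **LTH** (170; uses nothing). A ROTATED LATTICE IS CLOSE TO THE LATTICE (Hall). Hall's theorem `Finset.all_card_le_biUnion_card_iff_exists_injective` for `t ω` = the (finite) set of the `z` with `‖O (zE ω) - zE z‖ ≤ √m`. Condition: for a finite set `S'` the images under `O` of the cubes `zE ω + [-1/2, 1/2)^m`, `ω ∈ S'`, are disjoint of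
volume one (`LinearIsometryEquiv.measurePreserving`, `EuclideanSpace.volume_preserving_..`), and contained in the union of the cubes `zE z + [-1/2, 1/2)^m`, `z ∈ ⋃ t ω`: a point `y` of `O (cube of ω)` lies in the cube of some `z` (rounding) and `‖zE z - O (zE ω)‖ ≤ ‖zE z - y‖ + ‖y - O (zE ω)‖ ≤ √m/2 + √m/2`. -/
def Stmt_LTH : Prop := ∀ (m : ℕ) (O : EuclideanSpace ℝ (Fin m) ≃ₗᵢ[ℝ] EuclideanSpace ℝ (Fin m)) (S : Finset (Fin m → ℤ)),
  ∃ π : (Fin m → ℤ) → (Fin m → ℤ), Set.InjOn π S ∧ ∀ ω ∈ S, ‖O (zE ω) - zE (π ω)‖ ≤ Real.sqrt m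

/-- **LTC** (220; uses nothing). COUNTING LATTICE POINTS. `K = (4 m + 1)^m`, `R = 2 √m q` with `q ≥ 2 K` a large integer. `Ω` has at most `(2 R + 1)^m ≤ ((4 m + 1) q)^m` points. For `∑ x i² = 1` the set `A_x` contains the lattice points of the cube with centre `(R/2) x` and half side `R / (4 √m) = q / 2` (they have distance `≤ R/4` from
`(R/2) x`, so `|z| ≤ 3R/4` and `∑ x i z i ≥ R/4`), at least `q^m` points (a closed interval of length `q` contains at least `q` integers). The shell: for given `z_2, .., z_m` (at most `(2 R + 2 √m + 1)^(m-1)` choices) `z_1²` lies in an interval `(α, β]` with `β - α = 2 R √m + m`, so there are at most `2 (√(2 R √m + m) + 1)` values of `z_1`: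
the product is at most `q^m` for large `q`. -/
def Stmt_LTC : Prop := ∀ m : ℕ, 1 ≤ m → ∃ (R : ℝ) (K : ℕ) (Ω Ω' : Finset (Fin m → ℤ)), 4 * Real.sqrt m ≤ R ∧
  4 * Real.sqrt m * K ≤ R ∧ (∀ ω, ω ∈ Ω ↔ ‖zE ω‖ ≤ R) ∧ (∀ ω, ω ∈ Ω' ↔ ‖zE ω‖ ≤ R + Real.sqrt m) ∧
  ∀ x : Fin m → ℝ, ∑ i, x i ^ 2 = 1 → ∀ A : Finset (Fin m → ℤ), (∀ ω, ω ∈ A ↔ ω ∈ Ω ∧ R / 4 ≤ |∑ i, x i * ω i|) →
    (Ω' \ Ω).card ≤ A.card ∧ Ω.card ≤ K * A.card

/-- **HIL** (260; uses SYL LTH LTC). `m = 0`: `M = 0`, `c = 1`. `M = |Ω|`, `e : Fin M ≃ Ω`, `(h x) i = ∑ l, x l * (e i) l`. Claim: for `e2 x = e2 x' = 1`: `f (h x') ≤ 7 f (h x)`. Let `O` be the reflection with `O x' = x` (`Submodule.reflection_sub` or similar), so `∑ x' l ω l = ⟪x, O (zE ω)⟫`; `π` = LTH for `Ω`. `|(h x') ω| ≤ |⟪x, π ω⟫| + √m`, `π ω ∈ Ω'`.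
So `|h x'| ≤ u₁ + u₂ + u₃`, `u₁ = |⟪x, π ω⟫|` for `π ω ∈ Ω` (and 0 otherwise), `u₂ = R + √m` for `π ω ∉ Ω`, `u₃ = √m`. SYL (2): `f u₁ ≤ f (h x)`. The set of the `ω` with `π ω ∉ Ω` has at most `|Ω' \ Ω| ≤ |A|` elements, `(R/4) f (ind A) ≤ f (h x)` (monotone), so `f u₂ ≤ (R + √m) (4/R) f (h x) ≤ 5 f (h x)`; `f u₃ ≤ √m K f (ind A)
≤ √m K (4/R) f (h x) ≤ f (h x)`. `c` = the infimum of `f (h x)` over `e2 x = 1` (positive: all values are `≥ 1/7` of one of them, which is not zero as `h` is injective: `Ω` contains the unit vectors). Homogeneity. -/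
def Stmt_HIL : Prop := ∀ m : ℕ, ∃ M : ℕ, ∀ f : Seminorm ℝ (Fin M → ℝ), Sym f →
  ∃ (h : (Fin m → ℝ) →ₗ[ℝ] (Fin M → ℝ)) (c : ℝ), 0 < c ∧ ∀ x, c * e2 x ≤ f (h x) ∧ f (h x) ≤ 7 * (c * e2 x)

/-- **DVO** (50; uses SYN HIL). DVORETZKY'S THEOREM. `T = c⁻¹ • (G ∘ h)`. -/
def Stmt_DVO : Prop := ∀ m : ℕ, ∃ N : ℕ, ∀ (V : Type) [AddCommGroup V] [Module ℝ V] [FiniteDimensional ℝ V] (s : Seminorm ℝ V),
  Def s → N ≤ finrank ℝ V → ∃ T : (Fin m → ℝ) →ₗ[ℝ] V, ∀ x, e2 x ≤ s (T x) ∧ s (T x) ≤ 70 * e2 x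

/-- `ℓ_2^m` is isomorphic to a complemented subspace of `B` with the norm `N`, with the constant `C`. -/
def Euc (C : ℝ) (m : ℕ) {B : Type} [AddCommGroup B] [Module ℝ B] (N : Seminorm ℝ B) : Prop :=
  ∃ (j : (Fin m → ℝ) →ₗ[ℝ] B) (q : B →ₗ[ℝ] (Fin m → ℝ)), (∀ a, q (j a) = a) ∧ (∀ a, N (j a) ≤ e2 a) ∧ ∀ x, e2 (q x) ≤ C * N x

/-- **NOD** (100; uses DVO). `M` = the `N` of DVO for `m`, `V = Fin M → ℝ`. For a norm `s` on `ℝ^M` let `T` be as in DVO and `S` the range of `T`. `FacE C (s|S) N` with `j`, `q` would give `j₀ = (1/70) • j ∘ T`, `q₀ = 70 • T⁻¹ ∘ q`: `N (j₀ a) ≤ s (T a) / 70 ≤ e2 a`, `e2 (q₀ x) ≤ 70 s (q x) ≤ 70 C N x`. -/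
def Stmt_NOD : Prop := ∀ (C : ℝ) (m : ℕ), 0 ≤ C → ∃ M : ℕ, ∀ (B : Type) [AddCommGroup B] [Module ℝ B] (N : Seminorm ℝ B),
  ¬ Euc (70 * C) m N → NOR C M N

end Pool.RG
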